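import Mathlib
import Pool.Agent.SSQ.Defs

set_option autoImplicit false

/-!
# Almost primes of both parities in short intervals: definitions
-/

namespace Pool.Agent.RPS

open Pool.Agent.SqrtParity Pool.Agent.SSQ Finset

/-- `m` has no prime factor `≤ z` -/
def Rough (z m : ℕ) : Prop := ∀ q : ℕ, q.Prime → q ≤ z → ¬ q ∣ m

/-- `m` has no prime factor in `(T, z]` -/
def RoughT (T z m : ℕ) : Prop := ∀ q : ℕ, q.Prime → T < q → q ≤ z → ¬ q ∣ m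

/-- `f` is completely multiplicative with values `1, -1` and equal to `e` at all `z`-rough integers
of `(n², n² + n / V]`. -/
structure HypR (f : ℕ → ℤ) (n V : ℝ) (z : ℕ) (e : ℤ) : Prop where
  cm : CM f
  win : ∀ m : ℕ, n ^ 2 < m → (m : ℝ) ≤ n ^ 2 + n / V → Rough z m → f m = e

/-- the constants `C, T, S0` are admissible for the sieve with at most 13 linear forms -/
def SieveC (C T S0 : ℕ) : Prop := 1 ≤ C ∧ 5 ≤ T ∧ 2 ≤ S0 ∧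
  ∀ (F : Finset (ℤ × ℤ)) (z S : ℕ), F.card ≤ 13 →
    (∀ f ∈ F, ∀ q : ℕ, q.Prime → T < q → q ≤ z → ¬ (q : ℤ) ∣ f.1) → S0 ≤ S → z ^ C ≤ S →
    ∃ A : Finset ℕ, A ⊆ range S ∧ (S : ℝ) / Real.log S ^ C ≤ A.card ∧
      ∀ s ∈ A, ∀ f ∈ F, ∀ q : ℕ, q.Prime → T < q → q ≤ z → ¬ (q : ℤ) ∣ f.1 * s + f.2

/-- the modulus of the differences `a`: `4 ∏_{5 ≤ p ≤ T} p` -/
def W1 (T : ℕ) : ℕ := 2 * primorial T / 3

/-- good multipliers: some prime `j` in `(J, 8J]` and some `P = 1 mod W` with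
`P - j² F(h)` in `[1/(4000 V⁴), 1/(2000 V⁴)]` -/
def GoodR (n V : ℝ) (W J : ℕ) (h : ℝ) : Prop :=
  ∃ j : ℕ, j.Prime ∧ J < j ∧ j ≤ 8 * J ∧ ∃ P : ℤ, (W : ℤ) ∣ P - 1 ∧
    1 / (4000 * V ^ 4) ≤ P - j ^ 2 * FF n h ∧ P - j ^ 2 * FF n h ≤ 1 / (2000 * V ^ 4)

/-- radius of the block of the multiplier `h` -/
noncomputable def IR (n V : ℝ) (J : ℕ) (h : ℝ) : ℝ :=
  √(kk n h / (4000 * V ^ 4 * h)) / (16 * J) - 8 * J

/-- in the block of `h` the value of `f` at the multiples `j y`, `y` rough, depends only on the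
class of `j y` modulo `M` -/
def BlkR (f : ℕ → ℤ) (n : ℝ) (z M J : ℕ) (I : ℝ) (h j : ℕ) (κ : ZMod M → ℤ) : Prop :=
  j.Prime ∧ J < j ∧ j ≤ 8 * J ∧ (∀ r, κ r = 1 ∨ κ r = -1) ∧
    ∀ y : ℕ, Rough z y → |((j * y : ℕ) : ℝ) - kk n h| ≤ I → f (j * y) = κ ((j * y : ℕ) : ZMod M)

/-- the unit which is `1` modulo `w` and `-1` modulo `3` -/
def Eps (w : ℕ) (ε : (ZMod (3 * w))ˣ) : Prop := ε * ε = 1 ∧
  ∀ x y : ℤ, (w : ℤ) ∣ x - y → (3 : ℤ) ∣ x + y → (x : ZMod (3 * w)) = ε * (y : ZMod (3 * w))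

/-- fourfold difference -/
def D4 (q₁ q₂ q₃ q₄ : ℕ) (g : ℕ → ℝ) : ℕ → ℝ := Dq q₁ (Dq q₂ (Dq q₃ (Dq q₄ g)))

end Pool.Agent.RPS
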