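import Mathlib
import Pool.Agent.RPS.Defs
import Pool.Agent.H33.Exp.VdC

set_option autoImplicit false

/-!
# Fourfold van der Corput inequality combined with the Kusmin-Landau inequality
-/

namespace Pool.Agent.RPS

open Pool.Agent.SqrtParity Pool.Agent.SSQ Pool.Agent.RPS Pool.Agent.H33 Finset

/-- one step of the van der Corput inequality, small shifts are estimated trivially -/
theorem vdc4_step {g : ℕ → ℝ} {X N H : ℕ} {Y E B B' : ℝ} (hX : X ≤ N) (hY : 1 ≤ Y) (hE : 0 < E)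
    (hH : 1 ≤ H) (hHN : H ≤ N) (hYE : 1 ≤ Y * E) (hHE : 1 ≤ H * E) (hB0 : 0 ≤ B) (hB'0 : 0 ≤ B')
    (hB' : 6 * E + 4 * B ≤ B' ^ 2)
    (hB : ∀ q : ℕ, 1 ≤ q → q < H → (H : ℝ) ≤ q * Y →
      ‖∑ i ∈ range (X - q), ee (Dq q g i)‖ ≤ N * B) :
    ‖∑ i ∈ range X, ee (g i)‖ ≤ N * B' := by
  classical
  have hHpos : (0 : ℝ) < H := by exact_mod_cast hH
  have hN0 : (0 : ℝ) ≤ N := Nat.cast_nonneg N
  have hXN : (X : ℝ) ≤ N := by exact_mod_cast hX
  have hHN' : (H : ℝ) ≤ N := by exact_mod_cast hHN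
  have hY0 : 0 < Y := by linarith
  have hv := vdc_ee g X H hH
  set S : ℝ := ‖∑ n ∈ range X, ee (g n)‖ with hS
  have hS0 : 0 ≤ S := norm_nonneg _
  -- bound for the sum over the shifts
  have hsum : ∑ h ∈ Ico 1 H, ‖∑ n ∈ range (X - h), ee (g (n + h) - g n)‖
      ≤ N * (H * E) + H * (N * B) := by
    have hterm : ∀ h ∈ Ico 1 H, ‖∑ n ∈ range (X - h), ee (g (n + h) - g n)‖
        ≤ (if (h : ℝ) * Y < H then (N : ℝ) else 0) + N * B := by
      intro h hh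
      rw [mem_Ico] at hh
      split_ifs with hc
      · have h1 : ‖∑ n ∈ range (X - h), ee (g (n + h) - g n)‖ ≤ N := by
          calc ‖∑ n ∈ range (X - h), ee (g (n + h) - g n)‖
              ≤ ∑ n ∈ range (X - h), ‖ee (g (n + h) - g n)‖ := norm_sum_le _ _
            _ = ((X - h : ℕ) : ℝ) := by simp [norm_ee]
            _ ≤ (X : ℝ) := by exact_mod_cast Nat.sub_le _ _
            _ ≤ N := hXN
        have h2 : 0 ≤ (N : ℝ) * B := mul_nonneg hN0 hB0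
        linarith
      · rw [not_lt] at hc
        have h1 := hB h hh.1 hh.2 hc
        unfold Dq at h1
        linarith
    have hcard : ((((Ico 1 H).filter (fun h : ℕ => (h : ℝ) * Y < H)).card : ℕ) : ℝ) ≤ H * E := by
      have hsub : (Ico 1 H).filter (fun h : ℕ => (h : ℝ) * Y < H) ⊆ Ioc 0 ⌊(H : ℝ) / Y⌋₊ := by
        intro h hh
        rw [mem_filter, mem_Ico] at hh
        rw [mem_Ioc]
        refine ⟨by omega, ?_⟩
        apply Nat.le_floor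
        rw [le_div_iff₀ hY0]
        exact hh.2.le
      calc ((((Ico 1 H).filter (fun h : ℕ => (h : ℝ) * Y < H)).card : ℕ) : ℝ)
          ≤ ((Ioc 0 ⌊(H : ℝ) / Y⌋₊).card : ℝ) := by exact_mod_cast card_le_card hsub
        _ = (⌊(H : ℝ) / Y⌋₊ : ℝ) := by simp
        _ ≤ H / Y := Nat.floor_le (by positivity)
        _ ≤ H * E := by
            rw [div_le_iff₀ hY0]
            nlinarith
    calc ∑ h ∈ Ico 1 H, ‖∑ n ∈ range (X - h), ee (g (n + h) - g n)‖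
        ≤ ∑ h ∈ Ico 1 H, ((if (h : ℝ) * Y < H then (N : ℝ) else 0) + N * B) := sum_le_sum hterm
      _ = (((Ico 1 H).filter (fun h : ℕ => (h : ℝ) * Y < H)).card : ℝ) * N
          + ((H - 1 : ℕ) : ℝ) * (N * B) := by
          rw [sum_add_distrib, ← sum_filter, sum_const, sum_const, nsmul_eq_mul, nsmul_eq_mul,
            Nat.card_Ico]
      _ ≤ (H * E) * N + H * (N * B) := by
          apply add_le_add
          · exact mul_le_mul_of_nonneg_right hcard hN0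
          · apply mul_le_mul_of_nonneg_right _ (mul_nonneg hN0 hB0)
            exact_mod_cast Nat.sub_le _ _
      _ = _ := by ring
  have hsum0 : 0 ≤ ∑ h ∈ Ico 1 H, ‖∑ n ∈ range (X - h), ee (g (n + h) - g n)‖ :=
    sum_nonneg (fun _ _ => norm_nonneg _)
  have h1 : (H : ℝ) * S ^ 2 ≤ (2 * N) * (N + 2 * (N * (H * E) + H * (N * B))) := by
    refine hv.trans ?_
    apply mul_le_mul
    · linarith
    · linarith
    · have : (0 : ℝ) ≤ X := Nat.cast_nonneg X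
      linarith
    · linarith
  have h2 : (H : ℝ) * S ^ 2 ≤ H * (N ^ 2 * (6 * E + 4 * B)) := by
    refine h1.trans ?_
    have e1 : H * ((N : ℝ) ^ 2 * (6 * E + 4 * B)) - (2 * N) * (N + 2 * (N * (H * E) + H * (N * B)))
        = 2 * N ^ 2 * (H * E - 1) := by ring
    have e2 : 0 ≤ 2 * (N : ℝ) ^ 2 * (H * E - 1) := mul_nonneg (by positivity) (by linarith)
    linarith
  have h3 : S ^ 2 ≤ (N * B') ^ 2 := by
    have h4 := le_of_mul_le_mul_left h2 hHpos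
    refine h4.trans ?_
    rw [mul_pow]
    exact mul_le_mul_of_nonneg_left hB' (by positivity)
  exact le_of_sq_le_sq h3 (mul_nonneg hN0 hB'0)

/-- Fourfold van der Corput inequality with Kusmin-Landau -/
theorem vdc4 {g : ℕ → ℝ} {N H : ℕ} {Y E : ℝ} (hY : 1 ≤ Y) (hE : 0 < E) (hE1 : E ≤ 1)
    (hH : 1 ≤ H) (hHN : H ≤ N) (hYE : 1 ≤ Y * E) (hHE : 1 ≤ H * E)
    (hd : ∀ q₁ q₂ q₃ q₄ : ℕ, 1 ≤ q₁ → 1 ≤ q₂ → 1 ≤ q₃ → 1 ≤ q₄ → q₁ < H → q₂ < H → q₃ < H →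
      q₄ < H → (H : ℝ) ≤ q₁ * Y → (H : ℝ) ≤ q₂ * Y → (H : ℝ) ≤ q₃ * Y → (H : ℝ) ≤ q₄ * Y →
      ∃ l : ℝ, 0 < l ∧ 1 ≤ l * (N * E) ∧
        (∀ i, i + q₁ + q₂ + q₃ + q₄ < N →
          l ≤ Dq 1 (D4 q₁ q₂ q₃ q₄ g) i ∧ Dq 1 (D4 q₁ q₂ q₃ q₄ g) i ≤ 1 / 2) ∧
        (∀ i, i + 1 + q₁ + q₂ + q₃ + q₄ < N →
          Dq 1 (D4 q₁ q₂ q₃ q₄ g) (i + 1) ≤ Dq 1 (D4 q₁ q₂ q₃ q₄ g) i)) :
    ‖∑ i ∈ range N, ee (g i)‖ ≤ 6 * N * E ^ ((1 : ℝ) / 16) := by
  set x : ℝ := E ^ ((1 : ℝ) / 16) with hx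
  have hx0 : 0 < x := Real.rpow_pos_of_pos hE _
  have hx1 : x ≤ 1 := Real.rpow_le_one hE.le hE1 (by norm_num)
  have hE16 : E = x ^ 16 := by
    rw [hx, ← Real.rpow_natCast, ← Real.rpow_mul hE.le]
    norm_num
  have hpow : ∀ a b : ℕ, a ≤ b → x ^ b ≤ x ^ a := fun a b hab =>
    pow_le_pow_of_le_one hx0.le hx1 hab
  have p8 := hpow 8 16 (by norm_num)
  have p4 := hpow 4 16 (by norm_num)
  have p2 := hpow 2 16 (by norm_num)
  have key : ‖∑ i ∈ range N, ee (g i)‖ ≤ N * (6 * x) := by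
    apply vdc4_step (B := 5 * x ^ 2) le_rfl hY hE hH hHN hYE hHE (by positivity) (by positivity)
    · rw [hE16]
      nlinarith [sq_nonneg x]
    intro q₄ h4 h4' h4''
    apply vdc4_step (B := 9 / 2 * x ^ 4) (Nat.sub_le _ _) hY hE hH hHN hYE hHE (by positivity)
      (by positivity)
    · rw [hE16]
      nlinarith [sq_nonneg x, sq_nonneg (x ^ 2)]
    intro q₃ h3 h3' h3''
    apply vdc4_step (B := 10 / 3 * x ^ 8) ((Nat.sub_le _ _).trans (Nat.sub_le _ _)) hY hE hH hHN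
      hYE hHE (by positivity) (by positivity)
    · rw [hE16]
      nlinarith [sq_nonneg x, sq_nonneg (x ^ 4)]
    intro q₂ h2 h2' h2''
    apply vdc4_step (B := x ^ 16)
      ((Nat.sub_le _ _).trans ((Nat.sub_le _ _).trans (Nat.sub_le _ _))) hY hE hH hHN
      hYE hHE (by positivity) (by positivity)
    · rw [hE16]
      nlinarith [sq_nonneg (x ^ 8)]
    intro q₁ h1 h1' h1''
    obtain ⟨l, hl0, hl1, hl2, hl3⟩ := hd q₁ q₂ q₃ q₄ h1 h2 h3 h4 h1' h2' h3' h4' h1'' h2'' h3'' h4''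
    have hk := kusmin_landau (D4 q₁ q₂ q₃ q₄ g) (N - q₄ - q₃ - q₂ - q₁) hl0
      (fun n hn => (hl2 n (by omega)).1) (fun n hn => (hl2 n (by omega)).2)
      (fun n hn => by
        have := hl3 n (by omega)
        unfold Dq at this
        simpa [add_assoc] using this)
    have e : (fun i => ee (Dq q₁ (Dq q₂ (Dq q₃ (Dq q₄ g))) i)) = fun i => ee (D4 q₁ q₂ q₃ q₄ g i) :=
      rfl
    calc ‖∑ i ∈ range (N - q₄ - q₃ - q₂ - q₁), ee (Dq q₁ (Dq q₂ (Dq q₃ (Dq q₄ g))) i)‖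
        = ‖∑ i ∈ range (N - q₄ - q₃ - q₂ - q₁), ee (D4 q₁ q₂ q₃ q₄ g i)‖ := rfl
      _ ≤ 1 / l := hk
      _ ≤ N * x ^ 16 := by
          rw [div_le_iff₀ hl0, ← hE16]
          linarith
  calc ‖∑ i ∈ range N, ee (g i)‖ ≤ N * (6 * x) := key
    _ = 6 * N * x := by ring

end Pool.Agent.RPS
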