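import Mathlib
import Pool.Agent.RPS.Defs
import Pool.Agent.RPS.Vdc4
import Pool.Agent.SSQ.Fifth

set_option autoImplicit false

/-!
# Exponential sums with `λ F(h)`
-/

namespace Pool.Agent.RPS

open Pool.Agent.SqrtParity Pool.Agent.SSQ Pool.Agent.H33 Finset

theorem wf_norm_neg (g : ℕ → ℝ) (N : ℕ) :
    ‖∑ i ∈ range N, ee (-(g i))‖ = ‖∑ i ∈ range N, ee (g i)‖ := by
  have h : ∑ i ∈ range N, ee (-(g i)) = (starRingEnd ℂ) (∑ i ∈ range N, ee (g i)) := by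
    rw [map_sum]
    exact Finset.sum_congr rfl (fun i _ => ee_neg _)
  rw [h]
  exact RCLike.norm_conj _

/-- the basic function -/
noncomputable def wf_p : ℝ → ℝ := fun t => t ^ ((2 : ℝ) / 3)

theorem wf_Dq (φ : ℝ → ℝ) (a s : ℝ) (q i : ℕ) :
    Dq q (fun i : ℕ => φ (a + s * i)) i = Dr (s * q) φ (a + s * i) := by
  unfold Dq Dr
  push_cast
  congr 2
  ring

theorem wf_Dq_fun (φ : ℝ → ℝ) (a s : ℝ) (q : ℕ) :
    Dq q (fun i : ℕ => φ (a + s * i)) = fun i : ℕ => Dr (s * q) φ (a + s * i) := by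
  funext i
  exact wf_Dq φ a s q i

theorem wf_Dq_mul (c : ℝ) (g : ℕ → ℝ) (q : ℕ) : Dq q (fun i => c * g i) = fun i => c * Dq q g i := by
  funext i
  unfold Dq
  ring

/-- the five-fold difference of the phase -/
theorem wf_five (c a s : ℝ) (q₁ q₂ q₃ q₄ : ℕ) (g : ℕ → ℝ) (hg : g = fun i : ℕ => c * wf_p (a + s * i))
    (i : ℕ) : Dq 1 (D4 q₁ q₂ q₃ q₄ g) i =
      c * DrL [s * (1 : ℕ), s * q₁, s * q₂, s * q₃, s * q₄] wf_p (a + s * i) := by
  subst hg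
  unfold D4
  rw [wf_Dq_mul, wf_Dq_mul, wf_Dq_mul, wf_Dq_mul, wf_Dq_mul]
  rw [wf_Dq_fun, wf_Dq_fun, wf_Dq_fun, wf_Dq_fun, wf_Dq_fun]
  rfl

/-- bounds for the five-fold difference -/
theorem wf_bounds5 {A B x u₁ u₂ u₃ u₄ u₅ : ℝ} (hA : 0 < A) (hx : A ≤ x) (h1 : 0 ≤ u₁)
    (h2 : 0 ≤ u₂) (h3 : 0 ≤ u₃) (h4 : 0 ≤ u₄) (h5 : 0 ≤ u₅) (hB : x + u₁ + u₂ + u₃ + u₄ + u₅ ≤ B) :
    560 / 243 * B ^ (-(13 : ℝ) / 3) * (u₁ * u₂ * u₃ * u₄ * u₅)
      ≤ DrL [u₁, u₂, u₃, u₄, u₅] wf_p x ∧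
    DrL [u₁, u₂, u₃, u₄, u₅] wf_p x
      ≤ 560 / 243 * A ^ (-(13 : ℝ) / 3) * (u₁ * u₂ * u₃ * u₄ * u₅) :=
  fifth_pos hA hx h1 h2 h3 h4 h5 hB

/-- the six-fold difference is nonpositive -/
theorem wf_six {A x : ℝ} (hA : 0 < A) (hx : A ≤ x) (us : List ℝ) (hus : ∀ u ∈ us, 0 ≤ u)
    (hl : us.length = 6) : DrL us wf_p x ≤ 0 := by
  have key := DrL_bounds (fun i t => cF i * t ^ ((2 : ℝ) / 3 - i))
    (fun i x hx => hasDerivAt_cF i x hx)
    (A := A) (B := x + us.sum) (L := cF 6 * A ^ (-(16 : ℝ) / 3)) (M := 0)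
    hA us hus 0 (by
      intro y hy1 hy2
      have hc : cF 6 = -(7280 / 729) := by
        simp only [cF]
        norm_num
      rw [Nat.zero_add, hl, hc]
      have he : (2 : ℝ) / 3 - ((6 : ℕ) : ℝ) = -(16 : ℝ) / 3 := by norm_num
      rw [he]
      have hy0 : 0 < y := by linarith
      constructor
      · apply mul_le_mul_of_nonpos_left _ (by norm_num)
        exact Real.rpow_le_rpow_of_nonpos hA hy1 (by norm_num)
      · have : 0 ≤ y ^ (-(16 : ℝ) / 3) := by positivity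
        nlinarith) x hx le_rfl
  have e : (fun t : ℝ => cF 0 * t ^ ((2 : ℝ) / 3 - ((0 : ℕ) : ℝ))) = wf_p := by
    funext t
    simp [cF, wf_p]
  rw [e] at key
  simpa using key.2

/-- monotonicity -/
theorem wf_mono {c a s : ℝ} (hc : 0 ≤ c) (hs : 0 ≤ s) {A : ℝ} (hA : 0 < A) (q₁ q₂ q₃ q₄ : ℕ)
    (g : ℕ → ℝ) (hg : g = fun i : ℕ => c * wf_p (a + s * i)) (i : ℕ) (hi : A ≤ a + s * i) :
    Dq 1 (D4 q₁ q₂ q₃ q₄ g) (i + 1) ≤ Dq 1 (D4 q₁ q₂ q₃ q₄ g) i := by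
  rw [wf_five c a s q₁ q₂ q₃ q₄ g hg, wf_five c a s q₁ q₂ q₃ q₄ g hg]
  apply mul_le_mul_of_nonneg_left _ hc
  have h := wf_six hA hi [s, s * (1 : ℕ), s * q₁, s * q₂, s * q₃, s * q₄] (by
    intro u hu
    simp only [List.mem_cons, List.not_mem_nil, or_false] at hu
    rcases hu with rfl | rfl | rfl | rfl | rfl | rfl <;> positivity) rfl
  have e : DrL [s, s * (1 : ℕ), s * q₁, s * q₂, s * q₃, s * q₄] wf_p (a + s * i) =
      DrL [s * (1 : ℕ), s * q₁, s * q₂, s * q₃, s * q₄] wf_p (a + s * i + s) -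
      DrL [s * (1 : ℕ), s * q₁, s * q₂, s * q₃, s * q₄] wf_p (a + s * i) := rfl
  rw [e] at h
  have e2 : a + s * ((i + 1 : ℕ) : ℝ) = a + s * i + s := by
    push_cast
    ring
  rw [e2]
  linarith

/-- numerical conditions -/
theorem wf_num (W : ℕ) : ∃ n0 : ℝ, 1 ≤ n0 ∧ ∀ n : ℝ, n0 ≤ n →
    6 ≤ n ^ ((1 : ℝ) / 100000) ∧ 16384 * (W : ℝ) ≤ n ^ ((5 : ℝ) / 1000) ∧
      14336 * (10 * (W : ℝ)) ^ 5 ≤ n ^ ((4 : ℝ) / 1000) := by
  have h1 := (tendsto_rpow_atTop (show (0 : ℝ) < 1 / 100000 by norm_num)).eventually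
    (Filter.eventually_ge_atTop (6 : ℝ))
  have h2 := (tendsto_rpow_atTop (show (0 : ℝ) < 5 / 1000 by norm_num)).eventually
    (Filter.eventually_ge_atTop (16384 * (W : ℝ)))
  have h3 := (tendsto_rpow_atTop (show (0 : ℝ) < 4 / 1000 by norm_num)).eventually
    (Filter.eventually_ge_atTop (14336 * (10 * (W : ℝ)) ^ 5))
  obtain ⟨n0, hn0⟩ := Filter.eventually_atTop.mp (h1.and (h2.and h3))
  refine ⟨max 1 n0, le_max_left _ _, fun n hn => ?_⟩
  exact hn0 n (le_trans (le_max_right _ _) hn)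

/-- the case of positive `lam` -/
theorem wf_pos (W : ℕ) (hW : 1 ≤ W) : ∃ n0 : ℝ, 1 ≤ n0 ∧ ∀ n : ℝ, n0 ≤ n → ∀ X : ℝ,
    n ^ ((19 : ℝ) / 100) ≤ X → X ≤ n ^ ((192 : ℝ) / 1000) → ∀ N : ℕ, n ^ ((54 : ℝ) / 1000) ≤ N →
    (N : ℝ) ≤ n ^ ((55 : ℝ) / 1000) → ∀ (h₀ : ℕ) (s : ℕ) (lam : ℝ), 1 ≤ s → s ≤ 10 * W →
    1 / W ≤ lam → lam ≤ n ^ ((3 : ℝ) / 10000) → X / 4 ≤ h₀ → (h₀ : ℝ) + s * N ≤ 4 * X →
    ‖∑ i ∈ range N, ee (lam * FF n ((h₀ + s * i : ℕ) : ℝ))‖ ≤ N * n ^ (-(1 : ℝ) / 2500) := by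
  obtain ⟨n0, hn01, hnum⟩ := wf_num W
  refine ⟨n0, hn01, fun n hn X hX1 hX2 N hN1 hN2 h₀ s lam hs1 hs2 hl1 hl2 hh1 hh2 => ?_⟩
  obtain ⟨m1, m2, m3⟩ := hnum n hn
  have hn1 : 1 ≤ n := hn01.trans hn
  have hn0 : 0 < n := by linarith
  have hW' : (1 : ℝ) ≤ W := by exact_mod_cast hW
  have hlam0 : 0 < lam := lt_of_lt_of_le (by positivity) hl1
  -- powers of n
  have P : ∀ a b : ℝ, n ^ a * n ^ b = n ^ (a + b) := fun a b => (Real.rpow_add hn0 a b).symm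
  have Pmono : ∀ a b : ℝ, a ≤ b → n ^ a ≤ n ^ b := fun a b h =>
    Real.rpow_le_rpow_of_exponent_le hn1 h
  have Ppos : ∀ a : ℝ, 0 < n ^ a := fun a => Real.rpow_pos_of_pos hn0 a
  have Pone : ∀ a : ℝ, 0 ≤ a → 1 ≤ n ^ a := fun a h => Real.one_le_rpow hn1 h
  have m1' : ∀ a : ℝ, 1 / 100000 ≤ a → 6 ≤ n ^ a := fun a h => m1.trans (Pmono _ _ h)
  have hX0 : 0 < X := lt_of_lt_of_le (Ppos _) hX1
  set g : ℕ → ℝ := fun i => lam * FF n ((h₀ + s * i : ℕ) : ℝ) with hgdef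
  set c : ℝ := 3 * lam * n ^ ((2 : ℝ) / 3) with hc
  have hc0 : 0 < c := by positivity
  have hg : g = fun i : ℕ => c * wf_p ((h₀ : ℝ) + (s : ℝ) * i) := by
    funext i
    simp only [hgdef, hc, wf_p]
    unfold FF
    push_cast
    rw [Real.mul_rpow hn0.le (by positivity)]
    ring
  set H : ℕ := ⌊n ^ ((38 : ℝ) / 1000)⌋₊ with hH
  have hH1 : (H : ℝ) ≤ n ^ ((38 : ℝ) / 1000) := Nat.floor_le (Ppos _).le
  have hH2 : n ^ ((38 : ℝ) / 1000) / 2 ≤ H := by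
    have h1 := Nat.lt_floor_add_one (n ^ ((38 : ℝ) / 1000))
    rw [← hH] at h1
    have h2 := m1' ((38 : ℝ) / 1000) (by norm_num)
    linarith
  have hH3 : 1 ≤ H := by
    apply Nat.le_floor
    push_cast
    exact Pone _ (by norm_num)
  set Y : ℝ := n ^ ((7 : ℝ) / 1000) with hY
  set E : ℝ := n ^ (-(7 : ℝ) / 1000) with hE
  have hYE : Y * E = 1 := by
    rw [hY, hE, P]
    norm_num
  have hv := vdc4 (g := g) (N := N) (H := H) (Y := Y) (E := E) (Pone _ (by norm_num)) (Ppos _)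
    (Real.rpow_le_one_of_one_le_of_nonpos hn1 (by norm_num)) hH3 (by
      have h1 : (H : ℝ) ≤ N := hH1.trans ((Pmono _ _ (by norm_num)).trans hN1)
      exact_mod_cast h1) hYE.ge (by
      have h1 : n ^ ((38 : ℝ) / 1000) / 2 * E ≤ H * E := mul_le_mul_of_nonneg_right hH2 (Ppos _).le
      have h2 : n ^ ((38 : ℝ) / 1000) / 2 * E = n ^ ((31 : ℝ) / 1000) / 2 := by
        rw [hE, div_mul_eq_mul_div, P]
        norm_num
      have h3 := m1' ((31 : ℝ) / 1000) (by norm_num)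
      linarith) (by
      intro q₁ q₂ q₃ q₄ a1 a2 a3 a4 b1 b2 b3 b4 c1 c2 c3 c4
      have hqlow : ∀ q : ℕ, (H : ℝ) ≤ q * Y → n ^ ((31 : ℝ) / 1000) / 2 ≤ q := by
        intro q hq
        have h1 : (H : ℝ) * E ≤ q * Y * E := mul_le_mul_of_nonneg_right hq (Ppos _).le
        rw [mul_assoc, hYE, mul_one] at h1
        have h2 : n ^ ((38 : ℝ) / 1000) / 2 * E ≤ H * E := mul_le_mul_of_nonneg_right hH2 (Ppos _).le
        have h3 : n ^ ((38 : ℝ) / 1000) / 2 * E = n ^ ((31 : ℝ) / 1000) / 2 := by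
          rw [hE, div_mul_eq_mul_div, P]
          norm_num
        linarith
      have hqup : ∀ q : ℕ, q < H → (q : ℝ) ≤ n ^ ((38 : ℝ) / 1000) := by
        intro q hq
        have : (q : ℝ) ≤ H := by exact_mod_cast hq.le
        linarith
      have hs1' : (1 : ℝ) ≤ s := by exact_mod_cast hs1
      have hs2' : (s : ℝ) ≤ 10 * W := by exact_mod_cast hs2
      set Q : ℝ := (s * (1 : ℕ)) * (s * q₁) * (s * q₂) * (s * q₃) * (s * q₄) with hQ
      have hQeq : Q = (s : ℝ) ^ 5 * ((q₁ : ℝ) * q₂ * q₃ * q₄) := by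
        rw [hQ]
        push_cast
        ring
      have hq1' : (1 : ℝ) ≤ q₁ := by exact_mod_cast a1
      have hq2' : (1 : ℝ) ≤ q₂ := by exact_mod_cast a2
      have hq3' : (1 : ℝ) ≤ q₃ := by exact_mod_cast a3
      have hq4' : (1 : ℝ) ≤ q₄ := by exact_mod_cast a4
      have hQ0 : 0 < Q := by rw [hQeq]; positivity
      have hQlow : n ^ ((124 : ℝ) / 1000) / 16 ≤ Q := by
        have h1 := hqlow q₁ c1
        have h2 := hqlow q₂ c2
        have h3 := hqlow q₃ c3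
        have h4 := hqlow q₄ c4
        have hp := Ppos ((31 : ℝ) / 1000)
        have e1 : (n ^ ((31 : ℝ) / 1000) / 2) * (n ^ ((31 : ℝ) / 1000) / 2) *
            (n ^ ((31 : ℝ) / 1000) / 2) * (n ^ ((31 : ℝ) / 1000) / 2) ≤ (q₁ : ℝ) * q₂ * q₃ * q₄ := by
          gcongr
        have e2 : (n ^ ((31 : ℝ) / 1000) / 2) * (n ^ ((31 : ℝ) / 1000) / 2) *
            (n ^ ((31 : ℝ) / 1000) / 2) * (n ^ ((31 : ℝ) / 1000) / 2) =
            n ^ ((124 : ℝ) / 1000) / 16 := by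
          have : n ^ ((124 : ℝ) / 1000) = n ^ ((31 : ℝ) / 1000) * n ^ ((31 : ℝ) / 1000) *
            n ^ ((31 : ℝ) / 1000) * n ^ ((31 : ℝ) / 1000) := by
            rw [P, P, P]
            norm_num
          rw [this]
          ring
        have e3 : (1 : ℝ) ≤ (s : ℝ) ^ 5 := one_le_pow₀ hs1'
        rw [hQeq]
        have e4 : 0 ≤ (q₁ : ℝ) * q₂ * q₃ * q₄ := by positivity
        nlinarith
      have hQup : Q ≤ (10 * (W : ℝ)) ^ 5 * n ^ ((152 : ℝ) / 1000) := by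
        have h1 := hqup q₁ b1
        have h2 := hqup q₂ b2
        have h3 := hqup q₃ b3
        have h4 := hqup q₄ b4
        have e1 : (q₁ : ℝ) * q₂ * q₃ * q₄ ≤ n ^ ((38 : ℝ) / 1000) * n ^ ((38 : ℝ) / 1000) *
            n ^ ((38 : ℝ) / 1000) * n ^ ((38 : ℝ) / 1000) := by
          gcongr
        have e2 : n ^ ((38 : ℝ) / 1000) * n ^ ((38 : ℝ) / 1000) *
            n ^ ((38 : ℝ) / 1000) * n ^ ((38 : ℝ) / 1000) = n ^ ((152 : ℝ) / 1000) := by
          rw [P, P, P]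
          norm_num
        rw [e2] at e1
        rw [hQeq]
        gcongr
      have hX4 : (4 : ℝ) ^ (-(13 : ℝ) / 3) = 1 / 4 ^ ((13 : ℝ) / 3) := by
        rw [neg_div, Real.rpow_neg (by norm_num), one_div]
      have h413 : (4 : ℝ) ^ ((13 : ℝ) / 3) ≤ 1024 := by
        have h1 : (4 : ℝ) ^ ((13 : ℝ) / 3) ≤ (4 : ℝ) ^ (5 : ℝ) :=
          Real.rpow_le_rpow_of_exponent_le (by norm_num) (by norm_num)
        have h2 : (4 : ℝ) ^ (5 : ℝ) = 1024 := by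
          rw [show (5 : ℝ) = ((5 : ℕ) : ℝ) by norm_num, Real.rpow_natCast]
          norm_num
        linarith
      have h413p : (0 : ℝ) < (4 : ℝ) ^ ((13 : ℝ) / 3) := by positivity
      -- lower bound of the B power
      have hBpow : 1 / 1024 * n ^ (-(832 : ℝ) / 1000) ≤ (4 * X) ^ (-(13 : ℝ) / 3) := by
        rw [Real.mul_rpow (by norm_num) hX0.le, hX4]
        have h1 : n ^ (-(832 : ℝ) / 1000) ≤ X ^ (-(13 : ℝ) / 3) := by
          have h2 : (n ^ ((192 : ℝ) / 1000)) ^ (-(13 : ℝ) / 3) ≤ X ^ (-(13 : ℝ) / 3) :=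
            Real.rpow_le_rpow_of_nonpos hX0 hX2 (by norm_num)
          rw [← Real.rpow_mul hn0.le] at h2
          refine le_trans (le_of_eq ?_) h2
          norm_num
        have h3 : (1 : ℝ) / 1024 ≤ 1 / 4 ^ ((13 : ℝ) / 3) :=
          one_div_le_one_div_of_le h413p h413
        exact mul_le_mul h3 h1 (Ppos _).le (by positivity)
      have hApow : (X / 4) ^ (-(13 : ℝ) / 3) ≤ 1024 * n ^ (-(247 : ℝ) / 300) := by
        rw [Real.div_rpow hX0.le (by norm_num), hX4, div_div_eq_mul_div, div_one]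
        have h1 : X ^ (-(13 : ℝ) / 3) ≤ n ^ (-(247 : ℝ) / 300) := by
          have h2 : X ^ (-(13 : ℝ) / 3) ≤ (n ^ ((19 : ℝ) / 100)) ^ (-(13 : ℝ) / 3) :=
            Real.rpow_le_rpow_of_nonpos (Ppos _) hX1 (by norm_num)
          rw [← Real.rpow_mul hn0.le] at h2
          refine h2.trans (le_of_eq ?_)
          norm_num
        have h2 : 0 < X ^ (-(13 : ℝ) / 3) := by positivity
        calc X ^ (-(13 : ℝ) / 3) * 4 ^ ((13 : ℝ) / 3) ≤ n ^ (-(247 : ℝ) / 300) * 1024 :=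
              mul_le_mul h1 h413 h413p.le (Ppos _).le
          _ = _ := by ring
      refine ⟨c * (560 / 243 * (4 * X) ^ (-(13 : ℝ) / 3) * Q), by positivity, ?_, ?_, ?_⟩
      · -- size of l
        have e1 : 3 * (1 / (W : ℝ)) * n ^ ((2 : ℝ) / 3) ≤ c := by
          rw [hc]
          gcongr
        have e2 : 2 * (1 / 1024 * n ^ (-(832 : ℝ) / 1000)) * (n ^ ((124 : ℝ) / 1000) / 16) ≤
            560 / 243 * (4 * X) ^ (-(13 : ℝ) / 3) * Q := by
          apply mul_le_mul _ hQlow (by positivity) (by positivity)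
          have : 0 < (4 * X) ^ (-(13 : ℝ) / 3) := by positivity
          linarith
        have e3 : n ^ ((54 : ℝ) / 1000) * E ≤ N * E := mul_le_mul_of_nonneg_right hN1 (Ppos _).le
        have e4 : (3 * (1 / (W : ℝ)) * n ^ ((2 : ℝ) / 3)) *
            (2 * (1 / 1024 * n ^ (-(832 : ℝ) / 1000)) * (n ^ ((124 : ℝ) / 1000) / 16)) *
            (n ^ ((54 : ℝ) / 1000) * E) ≤
            c * (560 / 243 * (4 * X) ^ (-(13 : ℝ) / 3) * Q) * (N * E) := by
          apply mul_le_mul _ e3 (by positivity) (by positivity)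
          exact mul_le_mul e1 e2 (by positivity) (by positivity)
        refine le_trans ?_ e4
        have e5 : (3 * (1 / (W : ℝ)) * n ^ ((2 : ℝ) / 3)) *
            (2 * (1 / 1024 * n ^ (-(832 : ℝ) / 1000)) * (n ^ ((124 : ℝ) / 1000) / 16)) *
            (n ^ ((54 : ℝ) / 1000) * E) =
            (6 / 16384) * (1 / W) * (n ^ ((2 : ℝ) / 3) * n ^ (-(832 : ℝ) / 1000) *
              n ^ ((124 : ℝ) / 1000) * n ^ ((54 : ℝ) / 1000) * n ^ (-(7 : ℝ) / 1000)) := by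
          rw [hE]
          ring
        rw [e5, P, P, P, P]
        have e6 : n ^ ((5 : ℝ) / 1000) ≤
            n ^ ((2 : ℝ) / 3 + -(832 : ℝ) / 1000 + (124 : ℝ) / 1000 + (54 : ℝ) / 1000 +
              -(7 : ℝ) / 1000) := Pmono _ _ (by norm_num)
        have e7 : 16384 * (W : ℝ) ≤ n ^ ((2 : ℝ) / 3 + -(832 : ℝ) / 1000 + (124 : ℝ) / 1000 +
            (54 : ℝ) / 1000 + -(7 : ℝ) / 1000) := m2.trans e6
        calc (1 : ℝ) ≤ (6 / 16384) * (1 / W) * (16384 * W) := by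
              field_simp
              norm_num
          _ ≤ _ := mul_le_mul_of_nonneg_left e7 (by positivity)
      · intro i hi
        have hiR : (i : ℝ) + q₁ + q₂ + q₃ + q₄ + 1 ≤ N := by
          exact_mod_cast (by omega : i + q₁ + q₂ + q₃ + q₄ + 1 ≤ N)
        have hb := wf_bounds5 (A := X / 4) (B := 4 * X) (x := (h₀ : ℝ) + (s : ℝ) * i)
          (u₁ := s * (1 : ℕ)) (u₂ := s * q₁) (u₃ := s * q₂) (u₄ := s * q₃) (u₅ := s * q₄)
          (by positivity) (by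
            have : (0 : ℝ) ≤ s * i := by positivity
            linarith) (by positivity) (by positivity) (by positivity) (by positivity)
          (by positivity) (by
            have h1 : (s : ℝ) * ((i : ℝ) + q₁ + q₂ + q₃ + q₄ + 1) ≤ s * N :=
              mul_le_mul_of_nonneg_left hiR (by linarith)
            push_cast
            linarith)
        rw [wf_five c h₀ s q₁ q₂ q₃ q₄ g hg]
        constructor
        · exact mul_le_mul_of_nonneg_left hb.1 hc0.le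
        · refine (mul_le_mul_of_nonneg_left hb.2 hc0.le).trans ?_
          have e1 : c ≤ 3 * n ^ ((3 : ℝ) / 10000) * n ^ ((2 : ℝ) / 3) := by
            rw [hc]
            gcongr
          have e2 : 560 / 243 * (X / 4) ^ (-(13 : ℝ) / 3) * Q ≤
              7 / 3 * (1024 * n ^ (-(247 : ℝ) / 300)) *
                ((10 * (W : ℝ)) ^ 5 * n ^ ((152 : ℝ) / 1000)) := by
            apply mul_le_mul _ hQup hQ0.le (by positivity)
            have : 0 < (X / 4) ^ (-(13 : ℝ) / 3) := by positivity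
            linarith
          calc c * (560 / 243 * (X / 4) ^ (-(13 : ℝ) / 3) * Q)
              ≤ (3 * n ^ ((3 : ℝ) / 10000) * n ^ ((2 : ℝ) / 3)) *
                (7 / 3 * (1024 * n ^ (-(247 : ℝ) / 300)) *
                ((10 * (W : ℝ)) ^ 5 * n ^ ((152 : ℝ) / 1000))) :=
                mul_le_mul e1 e2 (by positivity) (by positivity)
            _ = 7168 * (10 * (W : ℝ)) ^ 5 * (n ^ ((3 : ℝ) / 10000) * n ^ ((2 : ℝ) / 3) *
                n ^ (-(247 : ℝ) / 300) * n ^ ((152 : ℝ) / 1000)) := by ring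
            _ ≤ 7168 * (10 * (W : ℝ)) ^ 5 * n ^ (-(4 : ℝ) / 1000) := by
                apply mul_le_mul_of_nonneg_left _ (by positivity)
                rw [P, P, P]
                exact Pmono _ _ (by norm_num)
            _ = 14336 * (10 * (W : ℝ)) ^ 5 * n ^ (-(4 : ℝ) / 1000) / 2 := by ring
            _ ≤ n ^ ((4 : ℝ) / 1000) * n ^ (-(4 : ℝ) / 1000) / 2 := by
                have := mul_le_mul_of_nonneg_right m3 (Ppos (-(4 : ℝ) / 1000)).le
                linarith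
            _ = 1 / 2 := by
                rw [P]
                norm_num
      · intro i _
        exact wf_mono hc0.le (by positivity) (show 0 < X / 4 by positivity) q₁ q₂ q₃ q₄ g hg i (by
          have : (0 : ℝ) ≤ s * i := by positivity
          linarith))
  refine hv.trans ?_
  have e1 : E ^ ((1 : ℝ) / 16) = n ^ (-(7 : ℝ) / 16000) := by
    rw [hE, ← Real.rpow_mul hn0.le]
    norm_num
  rw [e1]
  have e2 : 6 * n ^ (-(7 : ℝ) / 16000) ≤ n ^ (-(1 : ℝ) / 2500) := by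
    have h1 : n ^ ((1 : ℝ) / 100000) * n ^ (-(7 : ℝ) / 16000) ≤ n ^ (-(1 : ℝ) / 2500) := by
      rw [P]
      exact Pmono _ _ (by norm_num)
    have h2 := mul_le_mul_of_nonneg_right m1 (Ppos (-(7 : ℝ) / 16000)).le
    linarith
  have e3 := mul_le_mul_of_nonneg_left e2 (Nat.cast_nonneg (α := ℝ) N)
  linarith

theorem weylF (W : ℕ) (hW : 1 ≤ W) : ∃ n0 : ℝ, ∀ n : ℝ, n0 ≤ n → ∀ X : ℝ,
    n ^ ((19 : ℝ) / 100) ≤ X → X ≤ n ^ ((192 : ℝ) / 1000) → ∀ N : ℕ, n ^ ((54 : ℝ) / 1000) ≤ N →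
    (N : ℝ) ≤ n ^ ((55 : ℝ) / 1000) → ∀ (h₀ : ℕ) (s : ℕ) (lam : ℝ), 1 ≤ s → s ≤ 10 * W →
    1 / W ≤ |lam| → |lam| ≤ n ^ ((3 : ℝ) / 10000) → X / 4 ≤ h₀ → (h₀ : ℝ) + s * N ≤ 4 * X →
    ‖∑ i ∈ range N, ee (lam * FF n ((h₀ + s * i : ℕ) : ℝ))‖ ≤ N * n ^ (-(1 : ℝ) / 2500) := by
  obtain ⟨n0, -, h⟩ := wf_pos W hW
  refine ⟨n0, fun n hn X hX1 hX2 N hN1 hN2 h₀ s lam hs1 hs2 hl1 hl2 hh1 hh2 => ?_⟩
  rcases le_or_gt 0 lam with h0 | h0
  · rw [abs_of_nonneg h0] at hl1 hl2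
    exact h n hn X hX1 hX2 N hN1 hN2 h₀ s lam hs1 hs2 hl1 hl2 hh1 hh2
  · rw [abs_of_neg h0] at hl1 hl2
    have h1 := h n hn X hX1 hX2 N hN1 hN2 h₀ s (-lam) hs1 hs2 hl1 hl2 hh1 hh2
    have h2 := wf_norm_neg (fun i => lam * FF n ((h₀ + s * i : ℕ) : ℝ)) N
    rw [← h2]
    refine le_trans (le_of_eq ?_) h1
    congr 1
    refine Finset.sum_congr rfl (fun i _ => ?_)
    rw [neg_mul]

end Pool.Agent.RPS
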