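import Pool.Agent.RPS.Defs

set_option autoImplicit false

/-!
# Three multipliers in arithmetic progression: the algebra
-/

namespace Pool.Agent.RPS

open Pool.Agent.SqrtParity Pool.Agent.SSQ Finset

/-- three multipliers in arithmetic progression, algebra -/
theorem ap_alg {f : ℕ → ℤ} (hf : CM f) {w h a : ℕ} {ε : (ZMod (3 * w))ˣ} (hε : Eps w ε)
    (ha : w ∣ a) (ha0 : 1 ≤ a) (hah : a < h)
    {κ₁ κ₂ κ₃ : ZMod (3 * w) → ℤ} (k1 : ∀ r, κ₁ r = 1 ∨ κ₁ r = -1)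
    (k2 : ∀ r, κ₂ r = 1 ∨ κ₂ r = -1) (k3 : ∀ r, κ₃ r = 1 ∨ κ₃ r = -1)
    (hu : IsUnit ((3 * h + a : ℕ) : ZMod (3 * w)))
    (A : ∀ τ : (ZMod (3 * w))ˣ, f (3 * h - a) * f (3 * h - 2 * a) =
      κ₁ (((3 * h - a : ℕ) : ZMod (3 * w)) * τ) * κ₂ (((3 * h - 2 * a : ℕ) : ZMod (3 * w)) * τ))
    (B : ∀ τ : (ZMod (3 * w))ˣ, f (3 * h + 2 * a) * f (3 * h + a) =
      κ₂ (((3 * h + 2 * a : ℕ) : ZMod (3 * w)) * τ) * κ₃ (((3 * h + a : ℕ) : ZMod (3 * w)) * τ))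
    (C : ∀ τ : (ZMod (3 * w))ˣ, f (3 * h + a) * f (3 * h - a) =
      κ₁ (((3 * h + a : ℕ) : ZMod (3 * w)) * τ) * κ₃ (((3 * h - a : ℕ) : ZMod (3 * w)) * τ))
    (r : (ZMod (3 * w))ˣ) :
    f (3 * h - 2 * a) * f (3 * h + 2 * a) = κ₂ r * κ₂ ((ε * r : (ZMod (3 * w))ˣ) : ZMod (3 * w)) := by
  obtain ⟨hε1, hε2⟩ := hε
  obtain ⟨g, hg⟩ := hu
  obtain ⟨c, hc⟩ := ha
  have c1 : ((3 * h - a : ℕ) : ℤ) = 3 * h - a := by omega
  have c2 : ((3 * h - 2 * a : ℕ) : ℤ) = 3 * h - 2 * a := by omega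
  have e1 : ((3 * h - 2 * a : ℕ) : ZMod (3 * w)) = g := by
    rw [hg, ← Int.cast_natCast (3 * h - 2 * a), ← Int.cast_natCast (3 * h + a),
      ZMod.intCast_eq_intCast_iff_dvd_sub]
    refine ⟨c, ?_⟩
    rw [c2, hc]
    push_cast
    ring
  have e2 : ((3 * h - a : ℕ) : ZMod (3 * w)) = ε * g := by
    have h1 := hε2 ((3 * h - a : ℕ) : ℤ) ((3 * h + a : ℕ) : ℤ)
      ⟨-2 * c, by rw [c1, hc]; push_cast; ring⟩
      ⟨2 * h, by rw [c1]; push_cast; ring⟩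
    rw [Int.cast_natCast, Int.cast_natCast] at h1
    rw [h1, hg]
  have e3 : ((3 * h + 2 * a : ℕ) : ZMod (3 * w)) = ε * g := by
    have h1 := hε2 ((3 * h + 2 * a : ℕ) : ℤ) ((3 * h + a : ℕ) : ℤ)
      ⟨c, by rw [hc]; push_cast; ring⟩
      ⟨2 * h + a, by push_cast; ring⟩
    rw [Int.cast_natCast, Int.cast_natCast] at h1
    rw [h1, hg]
  have A' := A (g⁻¹ * r)
  have B' := B (g⁻¹ * r)
  have C' := C (ε * (g⁻¹ * r))
  rw [e1, e2] at A'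
  rw [e3, ← hg] at B'
  rw [e2, ← hg] at C'
  have f1 : ((g : ZMod (3 * w)) * ((g⁻¹ * r : (ZMod (3 * w))ˣ) : ZMod (3 * w))) = r := by
    rw [← Units.val_mul, mul_inv_cancel_left]
  have f2 : ((ε : ZMod (3 * w)) * g * ((g⁻¹ * r : (ZMod (3 * w))ˣ) : ZMod (3 * w))) =
      ((ε * r : (ZMod (3 * w))ˣ) : ZMod (3 * w)) := by
    rw [mul_assoc, f1, Units.val_mul]
  have f3 : ((g : ZMod (3 * w)) * ((ε * (g⁻¹ * r) : (ZMod (3 * w))ˣ) : ZMod (3 * w))) =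
      ((ε * r : (ZMod (3 * w))ˣ) : ZMod (3 * w)) := by
    rw [Units.val_mul, ← mul_assoc, mul_comm (g : ZMod (3 * w)) (ε : ZMod (3 * w)), f2]
  have f4 : ((ε : ZMod (3 * w)) * g * ((ε * (g⁻¹ * r) : (ZMod (3 * w))ˣ) : ZMod (3 * w))) = r := by
    rw [mul_assoc, f3, ← Units.val_mul, ← mul_assoc, hε1, one_mul]
  rw [f1, f2] at A' B'
  rw [f3, f4] at C'
  have s1 := hf.sq (n := 3 * h - a) (by omega)
  have s2 := hf.sq (n := 3 * h + a) (by omega)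
  have q : ∀ {κ : ZMod (3 * w) → ℤ}, (∀ r, κ r = 1 ∨ κ r = -1) → ∀ r, κ r * κ r = 1 := by
    intro κ hκ r
    rcases hκ r with h | h <;> rw [h] <;> norm_num
  set u : ZMod (3 * w) := (r : ZMod (3 * w)) with hu'
  set v : ZMod (3 * w) := ((ε * r : (ZMod (3 * w))ˣ) : ZMod (3 * w)) with hv'
  calc f (3 * h - 2 * a) * f (3 * h + 2 * a)
      = (f (3 * h - a) * f (3 * h - a)) * (f (3 * h + a) * f (3 * h + a)) *
          (f (3 * h - 2 * a) * f (3 * h + 2 * a)) := by rw [s1, s2]; ring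
    _ = (f (3 * h - a) * f (3 * h - 2 * a)) * (f (3 * h + 2 * a) * f (3 * h + a)) *
          (f (3 * h + a) * f (3 * h - a)) := by ring
    _ = (κ₁ v * κ₂ u) * (κ₂ v * κ₃ u) * (κ₁ v * κ₃ u) := by rw [A', B', C']
    _ = (κ₁ v * κ₁ v) * (κ₃ u * κ₃ u) * (κ₂ u * κ₂ v) := by ring
    _ = κ₂ u * κ₂ v := by rw [q k1, q k3]; ring

end Pool.Agent.RPS
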