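import Mathlib

set_option autoImplicit false

/-!
# The real inequality behind the block lemma, wide version
-/

namespace Pool.Agent.RPS

theorem ring_aux {k t S κ u v V : ℝ} (hk : 0 < k) (ht0 : 0 < t) (ht1 : t ≤ 1 / 20000)
    (hV : 1 ≤ V) (hS : 40 * V ≤ S) (hSk : S ^ 2 = 3 * k * t) (hκ : κ = k + t)
    (hQ1 : S ^ 2 - 28 * (V * S) ≤ u ^ 2 + u * v + v ^ 2)
    (hQ2 : u ^ 2 + u * v + v ^ 2 ≤ S ^ 2 - 16 * (V * S))
    (hu : |u| ≤ 3 / 5 * S) (hv : |v| ≤ 13 / 10 * S) :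
    0 < κ ^ 3 - k ^ 3 - κ * (u ^ 2 + u * v + v ^ 2) - u * v * (u + v) ∧
    κ ^ 3 - k ^ 3 - κ * (u ^ 2 + u * v + v ^ 2) - u * v * (u + v) ≤ 44 * (V * S) * k := by
  have hV0 : 0 < V := by linarith
  have hS0 : 0 < S := by linarith
  have hVS : 0 < V * S := mul_pos hV0 hS0
  have hSVS : S ≤ V * S := by nlinarith
  have hkS : 1600 * S ^ 2 ≤ k := by
    rw [hSk]
    nlinarith
  have hE : κ ^ 3 - k ^ 3 - κ * (u ^ 2 + u * v + v ^ 2) - u * v * (u + v)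
      = κ * (S ^ 2 - (u ^ 2 + u * v + v ^ 2)) + t ^ 3 - u * v * (u + v) := by
    rw [hSk, hκ]; ring
  have huv : |u + v| ≤ 19 / 10 * S := by
    calc |u + v| ≤ |u| + |v| := abs_add_le _ _
      _ ≤ 3 / 5 * S + 13 / 10 * S := by gcongr
      _ = _ := by ring
  have hcub : |u * v * (u + v)| ≤ 1 / 1000 * (S * k) := by
    rw [abs_mul, abs_mul]
    calc |u| * |v| * |u + v| ≤ 3 / 5 * S * (13 / 10 * S) * (19 / 10 * S) := by gcongr
      _ ≤ 3 / 2 * (S * S ^ 2) := by nlinarith [pow_pos hS0 3]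
      _ ≤ 3 / 2 * (S * (k / 1600)) := by gcongr; linarith
      _ ≤ _ := by nlinarith [mul_pos hS0 hk]
  rw [hE]
  have hk1 : 1 ≤ k := by nlinarith
  have hκ0 : 0 < κ := by rw [hκ]; linarith
  have hκ1 : κ ≤ 1001 / 1000 * k := by rw [hκ]; linarith
  have hκk : k ≤ κ := by rw [hκ]; linarith
  rw [abs_le] at hcub
  have ht3 : 0 < t ^ 3 := by positivity
  have ht31 : t ^ 3 ≤ 1 := pow_le_one₀ ht0.le (by linarith)
  have hSk0 : 0 < S * k := mul_pos hS0 hk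
  have hVSk : S * k ≤ V * S * k := mul_le_mul_of_nonneg_right hSVS hk.le
  constructor
  · have h1 : κ * (16 * (V * S)) ≤ κ * (S ^ 2 - (u ^ 2 + u * v + v ^ 2)) :=
      mul_le_mul_of_nonneg_left (by linarith) hκ0.le
    have h2 : k * (16 * (V * S)) ≤ κ * (16 * (V * S)) := mul_le_mul_of_nonneg_right hκk (by positivity)
    nlinarith
  · have h1 : κ * (S ^ 2 - (u ^ 2 + u * v + v ^ 2)) ≤ κ * (28 * (V * S)) :=
      mul_le_mul_of_nonneg_left (by linarith) hκ0.le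
    have h2 : κ * (28 * (V * S)) ≤ 1001 / 1000 * k * (28 * (V * S)) :=
      mul_le_mul_of_nonneg_right hκ1 (by positivity)
    have h3 : 1 ≤ S * k := by nlinarith
    nlinarith

theorem ring_real {h k ρ c κ n u V : ℝ} (hh : 1 ≤ h) (hk : 0 < k) (hρ0 : 0 < ρ) (hV : 1 ≤ V)
    (hρ : ρ ≤ c ^ 2 / (2000 * V ^ 2)) (hc0 : 0 < c) (hc : c ≤ 1 / 2)
    (hbig : 1600 * V ^ 2 * h ≤ k * ρ) (hn : 0 < n)
    (hn2 : h * k ^ 3 = n ^ 2) (hκ : κ = k + ρ / (3 * h)) (hu : |u| ≤ √(k * ρ / h) / 2) :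
    ∃ v₀ : ℝ, 0 ≤ v₀ ∧ v₀ ≤ 2 * √(k * ρ / h) ∧ ∀ a b : ℝ, |a| ≤ V → |b| ≤ V →
      n ^ 2 < h * ((κ - (u + a) - (v₀ + b)) * (κ + (u + a)) * (κ + (v₀ + b))) ∧
      h * ((κ - (u + a) - (v₀ + b)) * (κ + (u + a)) * (κ + (v₀ + b))) ≤ n ^ 2 + c * n := by
  have hh0 : 0 < h := by linarith
  have hV0 : 0 < V := by linarith
  obtain ⟨S, hS⟩ : ∃ S : ℝ, S = √(k * ρ / h) := ⟨_, rfl⟩
  rw [← hS] at hu ⊢
  have hS2 : S ^ 2 = k * ρ / h := by rw [hS]; exact Real.sq_sqrt (by positivity)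
  have hSpos : 0 ≤ S := by rw [hS]; exact Real.sqrt_nonneg _
  have hS1600 : (40 * V) ^ 2 ≤ S ^ 2 := by
    rw [hS2, le_div_iff₀ hh0]
    calc (40 * V) ^ 2 * h = 1600 * V ^ 2 * h := by ring
      _ ≤ _ := hbig
  have hS40 : 40 * V ≤ S := le_of_sq_le_sq hS1600 hSpos
  have hS0 : 0 < S := by linarith
  have hVS : 0 < V * S := mul_pos hV0 hS0
  obtain ⟨t, ht⟩ : ∃ t : ℝ, t = ρ / (3 * h) := ⟨_, rfl⟩
  rw [← ht] at hκ
  have ht0 : 0 < t := by rw [ht]; positivity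
  have hρV : 2000 * V ^ 2 * ρ ≤ c ^ 2 := by
    rw [le_div_iff₀ (by positivity)] at hρ
    linarith
  have hV2 : 1 ≤ V ^ 2 := one_le_pow₀ hV
  have hρ1 : ρ ≤ 1 / 8000 := by
    have h1 : 2000 * ρ ≤ 2000 * V ^ 2 * ρ := by nlinarith
    have h2 : c ^ 2 ≤ 1 / 4 := by nlinarith
    linarith
  have ht1 : t ≤ 1 / 20000 := by
    rw [ht, div_le_iff₀ (by positivity)]
    nlinarith
  have hSk : S ^ 2 = 3 * k * t := by
    rw [hS2, ht]; field_simp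
  have hu1 := abs_le.1 hu
  -- the point `v₀`
  obtain ⟨D, hD⟩ : ∃ D : ℝ, D = S ^ 2 - 22 * (V * S) - 3 * u ^ 2 / 4 := ⟨_, rfl⟩
  have hu2 : u ^ 2 ≤ S ^ 2 / 4 := by
    have := sq_le_sq' (by linarith [hu1.1]) hu1.2
    linarith [this, (by ring : (S / 2) ^ 2 = S ^ 2 / 4)]
  have hVS2 : 40 * (V * S) ≤ S ^ 2 := by nlinarith
  have hD1 : (51 / 100 * S) ^ 2 ≤ D := by
    rw [hD]
    nlinarith
  have hD0 : 0 ≤ D := le_trans (by positivity) hD1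
  have hDS : √D ≤ S := by
    rw [← Real.sqrt_sq hSpos]
    apply Real.sqrt_le_sqrt
    rw [hD]; nlinarith [sq_nonneg u]
  have hDl : 51 / 100 * S ≤ √D := Real.le_sqrt_of_sq_le hD1
  have hDq : √D ^ 2 = D := Real.sq_sqrt hD0
  refine ⟨-u / 2 + √D, by linarith [hu1.2], by linarith [hu1.1], ?_⟩
  intro a b ha hb
  obtain ⟨v, hv⟩ : ∃ v : ℝ, v = -u / 2 + √D := ⟨_, rfl⟩
  rw [← hv]
  have hv3 : v ≤ 5 / 4 * S := by rw [hv]; linarith [hu1.1]
  have hv4 : 1 / 4 * S ≤ v := by rw [hv]; linarith [hu1.2]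
  have hQ : u ^ 2 + u * v + v ^ 2 = S ^ 2 - 22 * (V * S) := by
    have : u ^ 2 + u * (-u / 2 + √D) + (-u / 2 + √D) ^ 2 = 3 * u ^ 2 / 4 + √D ^ 2 := by ring
    rw [hv, this, hDq, hD]; ring
  have ha1 := abs_le.1 ha
  have hb1 := abs_le.1 hb
  have e1 : |a * (2 * u + v)| ≤ V * (9 / 4 * S) := by
    rw [abs_mul]
    have : |2 * u + v| ≤ 9 / 4 * S := by
      rw [abs_le]; constructor <;> linarith [hu1.1, hu1.2]
    exact mul_le_mul ha this (abs_nonneg _) hV0.le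
  have e2 : |b * (2 * v + u)| ≤ V * (2 * S) := by
    rw [abs_mul]
    have : |2 * v + u| ≤ 2 * S := by
      have : 2 * v + u = 2 * √D := by rw [hv]; ring
      rw [this, abs_of_nonneg (by positivity)]
      linarith
    exact mul_le_mul hb this (abs_nonneg _) hV0.le
  have e3 : |a ^ 2 + a * b + b ^ 2| ≤ 3 * V ^ 2 := by
    have h1 : a ^ 2 ≤ V ^ 2 := sq_le_sq' ha1.1 ha1.2
    have h2 : b ^ 2 ≤ V ^ 2 := sq_le_sq' hb1.1 hb1.2
    have h3 : |a * b| ≤ V ^ 2 := by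
      rw [abs_mul, sq]
      exact mul_le_mul ha hb (abs_nonneg _) hV0.le
    have h4 := abs_le.1 h3
    rw [abs_le]
    constructor <;> nlinarith [sq_nonneg a, sq_nonneg b]
  have hVV : V ^ 2 ≤ V * S / 40 := by nlinarith
  rw [abs_le] at e1 e2 e3
  have hQ' : (u + a) ^ 2 + (u + a) * (v + b) + (v + b) ^ 2
      = S ^ 2 - 22 * (V * S) + a * (2 * u + v) + b * (2 * v + u) + (a ^ 2 + a * b + b ^ 2) := by
    rw [← hQ]; ring
  have key := ring_aux (k := k) (t := t) (S := S) (κ := κ) (u := u + a) (v := v + b) (V := V) hk ht0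
    ht1 hV hS40 hSk hκ (by rw [hQ']; linarith [e1.1, e2.1, e3.1])
    (by rw [hQ']; linarith [e1.2, e2.2, e3.2])
    (by rw [abs_le]; constructor <;> linarith [hu1.1, hu1.2, ha1.1, ha1.2])
    (by rw [abs_le]; constructor <;> linarith [hb1.1, hb1.2])
  -- the window
  have hcn : 44 * (V * S) * k * h ≤ c * n := by
    apply le_of_sq_le_sq _ (by positivity)
    have e1 : (44 * (V * S) * k * h) ^ 2 = 1936 * V ^ 2 * ρ * (h * k ^ 3) := by
      have : (44 * (V * S) * k * h) ^ 2 = 1936 * V ^ 2 * S ^ 2 * k ^ 2 * h ^ 2 := by ring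
      rw [this, hS2]; field_simp
    rw [e1, hn2, mul_pow]
    have : 1936 * V ^ 2 * ρ ≤ c ^ 2 := by nlinarith [mul_pos (pow_pos hV0 2) hρ0]
    gcongr
  have hG : h * ((κ - (u + a) - (v + b)) * (κ + (u + a)) * (κ + (v + b)))
      = n ^ 2 + h * (κ ^ 3 - k ^ 3 - κ * ((u + a) ^ 2 + (u + a) * (v + b) + (v + b) ^ 2)
        - (u + a) * (v + b) * ((u + a) + (v + b))) := by
    rw [← hn2]; ring
  rw [hG]
  constructor
  · have := mul_pos hh0 key.1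
    linarith
  · have := mul_le_mul_of_nonneg_left key.2 hh0.le
    linarith [(by ring : h * (44 * (V * S) * k) = 44 * (V * S) * k * h)]

end Pool.Agent.RPS
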