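import Mathlib
import Pool.Agent.RPS.Defs
import Pool.Agent.H6.Hooley

set_option autoImplicit false

/-!
# The sieve for at most 13 linear forms
-/

namespace Pool.Agent.RPS

open Pool.Agent.SqrtParity Pool.Agent.SSQ Pool.Agent.H6.Hooley Finset

open scoped Classical in
theorem sieve_rho_le {bad : ℕ → ℕ → Prop} {q : ℕ} (A : Finset ℕ)
    (h : ∀ s : ℕ, s < q → bad q s → s ∈ A) : rho bad q ≤ A.card := by
  unfold rho
  apply card_le_card
  intro s hs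
  rw [mem_filter, mem_range] at hs
  exact h s hs.1 hs.2

theorem sieve_rho (F : Finset (ℤ × ℤ)) (T z q : ℕ) (hF : F.card ≤ 13) (hq : q.Prime)
    (hF2 : ∀ f ∈ F, ∀ q : ℕ, q.Prime → T < q → q ≤ z → ¬ (q : ℤ) ∣ f.1) :
    rho (fun q s => q.Prime ∧ T < q ∧ q ≤ z ∧ ∃ f ∈ F, (q : ℤ) ∣ f.1 * s + f.2) q ≤ 13 := by
  classical
  by_cases h : T < q ∧ q ≤ z
  · refine (sieve_rho_le
      (F.biUnion (fun f => (range q).filter (fun s : ℕ => (q : ℤ) ∣ f.1 * s + f.2))) ?_).trans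
      ((card_biUnion_le_card_mul _ _ 1 ?_).trans ?_)
    · rintro s h1 ⟨-, -, -, f, hf, hd⟩
      rw [mem_biUnion]
      exact ⟨f, hf, mem_filter.2 ⟨mem_range.2 h1, hd⟩⟩
    · intro f hf
      rw [card_le_one]
      intro s hs s' hs'
      rw [mem_filter, mem_range] at hs hs'
      have h1 := dvd_sub hs.2 hs'.2
      have h2 : f.1 * (s : ℤ) + f.2 - (f.1 * (s' : ℤ) + f.2) = f.1 * ((s : ℤ) - s') := by ring
      rw [h2] at h1
      have hqp : Prime (q : ℤ) := Nat.prime_iff_prime_int.1 hq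
      rcases hqp.dvd_or_dvd h1 with h3 | h3
      · exact absurd h3 (hF2 f hf q hq h.1 h.2)
      · have h5 : ((s : ℤ) - s') = 0 := by
          apply Int.eq_zero_of_abs_lt_dvd h3
          rw [abs_lt]
          constructor <;> omega
        omega
    · rw [mul_one]; exact hF
  · refine (sieve_rho_le ∅ ?_).trans (by simp)
    rintro s - ⟨-, h1, h2, -⟩
    exact absurd ⟨h1, h2⟩ h

/-- the sieve -/
theorem exists_sieve : ∃ C T S0 : ℕ, SieveC C T S0 := by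
  classical
  obtain ⟨C, T0, S00, hC1, H⟩ := hooley 13
  refine ⟨C, max T0 5, max S00 2, hC1, le_max_right _ _, le_max_right _ _, ?_⟩
  intro F z S hF hF2 hS hz
  have hper : Per (fun q s => q.Prime ∧ max T0 5 < q ∧ q ≤ z ∧
      ∃ f ∈ F, (q : ℤ) ∣ f.1 * s + f.2) := by
    intro q s
    have key : ∀ f : ℤ × ℤ, ((q : ℤ) ∣ f.1 * ((s % q : ℕ) : ℤ) + f.2) ↔
        ((q : ℤ) ∣ f.1 * (s : ℤ) + f.2) := by
      intro f
      have h1 : f.1 * (s : ℤ) + f.2 =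
          (q : ℤ) * (f.1 * ((s / q : ℕ) : ℤ)) + (f.1 * ((s % q : ℕ) : ℤ) + f.2) := by
        have h2 : (s : ℤ) = (q : ℤ) * ((s / q : ℕ) : ℤ) + ((s % q : ℕ) : ℤ) := by
          exact_mod_cast (Nat.div_add_mod s q).symm
        rw [show f.1 * (s : ℤ) = f.1 * ((q : ℤ) * ((s / q : ℕ) : ℤ) + ((s % q : ℕ) : ℤ)) by
          rw [← h2]]
        ring
      rw [h1]
      exact (dvd_add_right (dvd_mul_right _ _)).symm
    simp only [key]
  have hrho : ∀ q : ℕ, q.Prime → T0 < q → rho (fun q s => q.Prime ∧ max T0 5 < q ∧ q ≤ z ∧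
      ∃ f ∈ F, (q : ℤ) ∣ f.1 * s + f.2) q ≤ 13 := fun q hq _ => sieve_rho F _ z q hF hq hF2
  have h := H _ hper hrho S (le_trans (le_max_left _ _) hS)
  refine ⟨_, filter_subset _ _, h, ?_⟩
  intro s hs f hf q hq hT hqz hd
  have h1 := (mem_filter.1 hs).2 q hq (lt_of_le_of_lt (le_max_left _ _) hT)
    ((Nat.pow_le_pow_left hqz C).trans hz)
  exact h1 ⟨hq, hT, hqz, f, hf, hd⟩

/-- a rough integer in a short progression -/
theorem exists_rough {C T S0 : ℕ} (hS : SieveC C T S0) {z S : ℕ} (h1 : S0 ≤ S) (h2 : z ^ C ≤ S)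
    (F : Finset (ℤ × ℤ)) (hF : F.card ≤ 13)
    (hF2 : ∀ f ∈ F, ∀ q : ℕ, q.Prime → T < q → q ≤ z → ¬ (q : ℤ) ∣ f.1) :
    ∃ s : ℕ, s < S ∧ ∀ f ∈ F, ∀ q : ℕ, q.Prime → T < q → q ≤ z → ¬ (q : ℤ) ∣ f.1 * s + f.2 := by
  obtain ⟨-, -, hS2, H⟩ := hS
  obtain ⟨A, hA, hAc, hAf⟩ := H F z S hF hF2 h1 h2
  have hS2' : (2 : ℝ) ≤ S := by exact_mod_cast hS2.trans h1
  have hlog : 0 < Real.log S := Real.log_pos (by linarith)
  have hpos : 0 < (A.card : ℝ) := lt_of_lt_of_le (by positivity) hAc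
  have hne : A.Nonempty := by
    rw [← card_pos]; exact_mod_cast hpos
  obtain ⟨s, hs⟩ := hne
  exact ⟨s, mem_range.1 (hA hs), hAf s hs⟩

end Pool.Agent.RPS
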