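import Pool.Agent.RPS.Defs

set_option autoImplicit false

/-!
# Facts about the modulus; the Chinese remainder theorem
-/

namespace Pool.Agent.RPS

open Pool.Agent.SqrtParity Pool.Agent.SSQ Finset

/-- the product of the primes `5 ≤ p ≤ T` -/
def rest (T : ℕ) : ℕ := ∏ p ∈ (range (T + 1)).filter (fun p => p.Prime ∧ 5 ≤ p), p

theorem primorial_eq {T : ℕ} (hT : 5 ≤ T) : primorial T = 6 * rest T := by
  unfold primorial rest
  have h1 : (range (T + 1)).filter Nat.Prime
      = ({2, 3} : Finset ℕ) ∪ (range (T + 1)).filter (fun p => p.Prime ∧ 5 ≤ p) := by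
    ext p
    simp only [mem_filter, mem_union, mem_insert, mem_singleton, mem_range]
    constructor
    · rintro ⟨h1, h2⟩
      by_cases h5 : 5 ≤ p
      · exact Or.inr ⟨h1, h2, h5⟩
      · left
        have h3 := h2.two_le
        interval_cases p
        · exact Or.inl rfl
        · exact Or.inr rfl
        · exact absurd h2 (by norm_num)
    · rintro ((rfl | rfl) | ⟨h1, h2, h3⟩)
      · exact ⟨by omega, Nat.prime_two⟩
      · exact ⟨by omega, Nat.prime_three⟩
      · exact ⟨h1, h2⟩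
  rw [h1, prod_union]
  · congr 1
  · rw [disjoint_left]
    intro p hp hp'
    simp only [mem_filter, mem_insert, mem_singleton] at hp hp'
    omega

theorem prime_dvd_rest {T q : ℕ} (hq : q.Prime) : q ∣ rest T ↔ 5 ≤ q ∧ q ≤ T := by
  unfold rest
  rw [Prime.dvd_finsetProd_iff (Nat.prime_iff.1 hq)]
  constructor
  · rintro ⟨p, hp, hqp⟩
    simp only [mem_filter, mem_range] at hp
    rw [Nat.prime_dvd_prime_iff_eq hq hp.2.1] at hqp
    omega
  · rintro ⟨h1, h2⟩
    refine ⟨q, ?_, dvd_rfl⟩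
    simp only [mem_filter, mem_range]
    exact ⟨by omega, hq, h1⟩

theorem rest_pos (T : ℕ) : 0 < rest T := by
  unfold rest
  apply prod_pos
  intro p hp
  simp only [mem_filter] at hp
  omega

theorem W1_eq {T : ℕ} (hT : 5 ≤ T) : W1 T = 4 * rest T := by
  unfold W1
  rw [primorial_eq hT]
  omega

theorem prime_dvd_primorial {T q : ℕ} (hq : q.Prime) (hqT : q ≤ T) : q ∣ primorial T := by
  unfold primorial
  apply dvd_prod_of_mem
  simp only [mem_filter, mem_range]
  exact ⟨by omega, hq⟩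

theorem W1_facts {T : ℕ} (hT : 5 ≤ T) : 1 ≤ W1 T ∧ 3 * W1 T = 2 * primorial T ∧ ¬ 3 ∣ W1 T ∧
    4 ∣ W1 T ∧ (∀ q : ℕ, q.Prime → 5 ≤ q → q ≤ T → q ∣ W1 T) ∧
    (∀ q : ℕ, q.Prime → q ≤ T → q ∣ primorial T) ∧
    (∀ q : ℕ, q.Prime → q ∣ 12 * W1 T → q ≤ T) := by
  have h0 := rest_pos T
  rw [W1_eq hT, primorial_eq hT]
  refine ⟨by omega, by ring, ?_, dvd_mul_right _ _, ?_, ?_, ?_⟩
  · intro h
    rcases (Nat.Prime.dvd_mul Nat.prime_three).1 h with h | h
    · norm_num at h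
    · rw [prime_dvd_rest Nat.prime_three] at h
      omega
  · intro q hq h5 hqT
    exact Dvd.dvd.mul_left ((prime_dvd_rest hq).2 ⟨h5, hqT⟩) _
  · intro q hq hqT
    rw [← primorial_eq hT]
    exact prime_dvd_primorial hq hqT
  · intro q hq h
    rw [← mul_assoc] at h
    rcases (Nat.Prime.dvd_mul hq).1 h with h | h
    · have h2 : q ∣ 2 ^ 4 * 3 := by simpa using h
      rcases (Nat.Prime.dvd_mul hq).1 h2 with h | h
      · have := (Nat.prime_dvd_prime_iff_eq hq Nat.prime_two).1 (hq.dvd_of_dvd_pow h)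
        omega
      · have := (Nat.prime_dvd_prime_iff_eq hq Nat.prime_three).1 h
        omega
    · exact ((prime_dvd_rest hq).1 h).2

theorem exists_eps {w : ℕ} (_hw : 1 ≤ w) (h3 : ¬ 3 ∣ w) : ∃ ε : (ZMod (3 * w))ˣ, Eps w ε := by
  have hcop : IsCoprime (3 : ℤ) (w : ℤ) := by
    have h1 : Nat.Coprime 3 w := (Nat.Prime.coprime_iff_not_dvd Nat.prime_three).2 h3
    exact_mod_cast Nat.isCoprime_iff_coprime.2 h1
  obtain ⟨u, v, huv⟩ := hcop
  have huv' : u * 3 + v * w = 1 := huv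
  set e : ℤ := 1 - 2 * v * w with he
  have ew : (w : ℤ) ∣ e - 1 := ⟨-2 * v, by rw [he]; ring⟩
  have e3 : (3 : ℤ) ∣ e + 1 := ⟨2 * u, by rw [he]; linear_combination (-2) * huv'⟩
  have hdvd : ∀ x : ℤ, (w : ℤ) ∣ x → (3 : ℤ) ∣ x → ((3 * w : ℕ) : ℤ) ∣ x := by
    intro x h1 h2
    push_cast
    exact IsCoprime.mul_dvd ⟨u, v, huv⟩ h2 h1
  have hsq : ((e : ℤ) : ZMod (3 * w)) * e = 1 := by
    have h1 : ((3 * w : ℕ) : ℤ) ∣ e * e - 1 := by
      have h2 : e * e - 1 = (e - 1) * (e + 1) := by ring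
      rw [h2]
      exact hdvd _ (Dvd.dvd.mul_right ew _) (Dvd.dvd.mul_left e3 _)
    have h2 : ((e * e - 1 : ℤ) : ZMod (3 * w)) = 0 := (ZMod.intCast_zmod_eq_zero_iff_dvd _ _).2 h1
    push_cast at h2
    exact sub_eq_zero.1 h2
  refine ⟨⟨e, e, hsq, hsq⟩, ?_, ?_⟩
  · apply Units.ext
    simpa using hsq
  · intro x y h1 h2
    have h4 : ((3 * w : ℕ) : ℤ) ∣ x - e * y := by
      apply hdvd
      · have : x - e * y = (x - y) - (e - 1) * y := by ring
        rw [this]
        exact dvd_sub h1 (Dvd.dvd.mul_right ew _)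
      · have : x - e * y = (x + y) - (e + 1) * y := by ring
        rw [this]
        exact dvd_sub h2 (Dvd.dvd.mul_right e3 _)
    have h5 : ((x - e * y : ℤ) : ZMod (3 * w)) = 0 := (ZMod.intCast_zmod_eq_zero_iff_dvd _ _).2 h4
    push_cast at h5
    exact sub_eq_zero.1 h5

/-- the class of `z` modulo `W` in the block lemma -/
theorem exists_class {T : ℕ} (P : ℤ) (hP : (primorial T : ℤ) ∣ P - 1) (h y : ℕ)
    (hy : ∀ q : ℕ, q.Prime → q ≤ T → ¬ q ∣ y) :
    ∃ z₀ : ℕ, z₀ < primorial T ∧ ∀ q : ℕ, q.Prime → q ≤ T →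
      ¬ q ∣ z₀ ∧ ¬ (q : ℤ) ∣ P - h * (y + z₀) := by
  classical
  have hr : ∀ q : ℕ, ∃ r : ℕ, q.Prime → q ≤ T → ¬ q ∣ r ∧ ¬ (q : ℤ) ∣ P - h * (y + r) := by
    intro q
    by_cases hq : q.Prime ∧ q ≤ T
    swap
    · exact ⟨0, fun h1 h2 => absurd ⟨h1, h2⟩ hq⟩
    obtain ⟨hq, hqT⟩ := hq
    have hqP : (q : ℤ) ∣ P - 1 :=
      dvd_trans (by exact_mod_cast prime_dvd_primorial hq hqT) hP
    have hqp : Prime (q : ℤ) := Nat.prime_iff_prime_int.1 hq
    have hnP : ¬ (q : ℤ) ∣ P := by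
      intro h1
      have h2 := dvd_sub h1 hqP
      have h3 : P - (P - 1) = 1 := by ring
      rw [h3] at h2
      exact hqp.not_isUnit (isUnit_of_dvd_one h2)
    have h1q : ¬ q ∣ 1 := by
      intro h1
      have := hq.two_le
      have := Nat.le_of_dvd one_pos h1
      omega
    rcases eq_or_ne q 2 with rfl | hq2
    · refine ⟨1, fun _ _ => ⟨h1q, ?_⟩⟩
      intro h1
      have hyo : ¬ 2 ∣ y := hy 2 hq hqT
      have h2 : ((2 : ℕ) : ℤ) ∣ (h : ℤ) * ((y : ℤ) + ((1 : ℕ) : ℤ)) := by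
        apply Dvd.dvd.mul_left
        have : 2 ∣ y + 1 := by omega
        exact_mod_cast this
      have h3 := dvd_add h1 h2
      rw [sub_add_cancel] at h3
      exact hnP h3
    · have hq3 : 3 ≤ q := by
        have := hq.two_le
        omega
      by_cases hc : (q : ℤ) ∣ P - h * (y + 1)
      · by_cases hh : (q : ℤ) ∣ (h : ℤ)
        · exfalso
          have h2 : (q : ℤ) ∣ (h : ℤ) * ((y : ℤ) + 1) := Dvd.dvd.mul_right hh _
          have h3 := dvd_add hc h2
          rw [sub_add_cancel] at h3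
          exact hnP h3
        · refine ⟨2, fun _ _ => ⟨?_, ?_⟩⟩
          · intro h1
            have := Nat.le_of_dvd two_pos h1
            omega
          · intro h1
            apply hh
            have h2 := dvd_sub hc h1
            have h3 : (P - h * (y + 1)) - (P - h * (y + ((2 : ℕ) : ℤ))) = (h : ℤ) := by
              push_cast
              ring
            rw [h3] at h2
            exact h2
      · refine ⟨1, fun _ _ => ⟨h1q, ?_⟩⟩
        exact_mod_cast hc
  choose r hr using hr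
  set t := (range (T + 1)).filter Nat.Prime with ht
  have hs : ∀ i ∈ t, (fun p : ℕ => p) i ≠ 0 := by
    intro i hi
    simp only [ht, mem_filter] at hi
    exact hi.2.ne_zero
  have hpw : Set.Pairwise (t : Set ℕ) (Function.onFun Nat.Coprime (fun p : ℕ => p)) := by
    intro a ha b hb hab
    simp only [ht, coe_filter, Set.mem_ofPred_eq] at ha hb
    exact (Nat.coprime_primes ha.2 hb.2).2 hab
  have hlt := Nat.chineseRemainderOfFinset_lt_prod r (fun p : ℕ => p) hs hpw
  obtain ⟨z₀, hz⟩ := Nat.chineseRemainderOfFinset r (fun p : ℕ => p) t hs hpw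
  refine ⟨(Nat.chineseRemainderOfFinset r (fun p : ℕ => p) t hs hpw : ℕ), hlt, ?_⟩
  intro q hq hqT
  have hmem : q ∈ t := by
    simp only [ht, mem_filter, mem_range]
    exact ⟨by omega, hq⟩
  have h1 := (Nat.chineseRemainderOfFinset r (fun p : ℕ => p) t hs hpw).2 q hmem
  obtain ⟨h2, h3⟩ := hr q hq hqT
  set Z := (Nat.chineseRemainderOfFinset r (fun p : ℕ => p) t hs hpw : ℕ) with hZ
  constructor
  · rw [Nat.ModEq.dvd_iff h1 dvd_rfl]
    exact h2
  · intro h4
    apply h3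
    have h5 : (q : ℤ) ∣ (Z : ℤ) - (r q : ℤ) := by
      have := (Nat.modEq_iff_dvd.1 h1.symm)
      exact this
    have h6 : P - h * (y + (r q : ℤ)) = (P - h * (y + (Z : ℤ))) + h * ((Z : ℤ) - (r q : ℤ)) := by
      ring
    rw [h6]
    exact dvd_add h4 (Dvd.dvd.mul_left h5 _)

end Pool.Agent.RPS
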