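import Mathlib
import Pool.Agent.RPS.Defs
import Pool.Agent.RPS.RingReal
import Pool.Agent.RPS.Sieve
import Pool.Agent.RPS.Wfacts

set_option autoImplicit false

/-!
# Four products in the window
-/

namespace Pool.Agent.RPS

open Pool.Agent.SqrtParity Pool.Agent.SSQ Finset

theorem four_alg {p r a a' b b' x x' e : ℤ} (hp : p * p = 1) (hr : r * r = 1) (hx : x * x = 1)
    (hb : b * b = 1) (ha' : a' * a' = 1)
    (h1 : p * a * x = e) (h2 : p * a' * x' = e) (h3 : r * b * x = e) (h4 : r * b' * x' = e) :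
    a * a' = b * b' := by
  have e1 : a * x = a' * x' := by
    calc a * x = p * (p * a * x) := by linear_combination (-(a * x)) * hp
      _ = p * (p * a' * x') := by rw [h1, h2]
      _ = a' * x' := by linear_combination (a' * x') * hp
  have e2 : b * x = b' * x' := by
    calc b * x = r * (r * b * x) := by linear_combination (-(b * x)) * hr
      _ = r * (r * b' * x') := by rw [h3, h4]
      _ = b' * x' := by linear_combination (b' * x') * hr
  calc a * a' = (a * x) * a' * x := by linear_combination (-(a * a')) * hx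
    _ = (a' * x') * a' * x := by rw [e1]
    _ = x' * x := by linear_combination (x' * x) * ha'
    _ = b * (b * x) * x' := by linear_combination (-(x' * x)) * hb
    _ = b * (b' * x') * x' := by rw [e2]
    _ = b * b' * (x' * x') := by ring
    _ = b * b' := by
        have : x' * x' = 1 := by
          calc x' * x' = (a' * x') * (a' * x') := by linear_combination (-(x' * x')) * ha'
            _ = (a * x) * (a * x) := by rw [e1]
            _ = (a * a) * (x * x) := by ring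
            _ = (p * a * x) * (p * a * x) := by
              rw [hx]; linear_combination (-(a * a)) * hp * 1 + (-(p * p * a * a)) * hx
            _ = (r * b * x) * (r * b * x) := by rw [h1, h3]
            _ = (r * r) * (b * b) * (x * x) := by ring
            _ = 1 := by rw [hr, hb, hx]; norm_num
        rw [this, mul_one]

/-- the value of `f` at a product in the window -/
theorem prod_val {f : ℕ → ℤ} {n V : ℝ} {z : ℕ} {e : ℤ} (H : HypR f n V z e) (hn : 0 < n)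
    {h : ℕ} {P : ℤ} {Y Z : ℕ}
    (h1 : n ^ 2 < ((P - h * (Y + Z) : ℤ) : ℝ) * Y * Z)
    (h2 : ((P - h * (Y + Z) : ℤ) : ℝ) * Y * Z ≤ n ^ 2 + n / V)
    (rY : Rough z Y) (rZ : Rough z Z)
    (rP : ∀ q : ℕ, q.Prime → q ≤ z → ¬ (q : ℤ) ∣ P - h * (Y + Z)) :
    1 ≤ Y ∧ 1 ≤ Z ∧ 1 ≤ (P - h * (Y + Z)).toNat ∧
      f (P - h * (Y + Z)).toNat * f Y * f Z = e := by
  have hn2 : 0 < n ^ 2 := by positivity
  have hY : 1 ≤ Y := by
    rcases Nat.eq_zero_or_pos Y with h | h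
    · exfalso; rw [h] at h1; simp at h1; linarith
    · exact h
  have hZ : 1 ≤ Z := by
    rcases Nat.eq_zero_or_pos Z with h | h
    · exfalso; rw [h] at h1; simp at h1; linarith
    · exact h
  have hY0 : (0 : ℝ) < Y := by exact_mod_cast hY
  have hZ0 : (0 : ℝ) < Z := by exact_mod_cast hZ
  have hX0 : (0 : ℝ) < ((P - h * (Y + Z) : ℤ) : ℝ) := by
    by_contra hc
    push Not at hc
    have : ((P - h * (Y + Z) : ℤ) : ℝ) * Y * Z ≤ 0 := by
      apply mul_nonpos_of_nonpos_of_nonneg _ hZ0.le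
      exact mul_nonpos_of_nonpos_of_nonneg hc hY0.le
    linarith
  have hXi : 0 < P - h * (Y + Z) := by exact_mod_cast hX0
  obtain ⟨X, hX⟩ : ∃ X : ℕ, X = (P - h * (Y + Z)).toNat := ⟨_, rfl⟩
  have hXc : (X : ℤ) = P - h * (Y + Z) := by
    rw [hX]; exact Int.toNat_of_nonneg hXi.le
  have hX1 : 1 ≤ X := by omega
  have hXr : (X : ℝ) = ((P - h * (Y + Z) : ℤ) : ℝ) := by
    rw [← hXc]; push_cast; rfl
  rw [← hX]
  refine ⟨hY, hZ, hX1, ?_⟩
  have hval : f (X * Y * Z) = e := by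
    apply H.win
    · push_cast; rw [hXr]; exact h1
    · push_cast; rw [hXr]; exact h2
    · intro q hq hqz hd
      rcases (Nat.Prime.dvd_mul hq).1 hd with hd | hd
      · rcases (Nat.Prime.dvd_mul hq).1 hd with hd | hd
        · apply rP q hq hqz
          rw [← hXc]; exact_mod_cast hd
        · exact rY q hq hqz hd
      · exact rZ q hq hqz hd
  rw [← hval, H.cm.mul _ _ (Nat.mul_pos hX1 hY) hZ, H.cm.mul _ _ hX1 hY]

theorem four {C T S0 : ℕ} (hS : SieveC C T S0) {f : ℕ → ℤ} {n V : ℝ} {z S : ℕ} {e : ℤ}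
    (H : HypR f n V z e) (hn : 0 < n) (hS0 : S0 ≤ S) (hSz : z ^ C ≤ S) (hTz : T ≤ z)
    (hV : V = 16 * primorial T * S) {h : ℕ} {k ρ : ℝ} {P : ℤ} (hh : 1 ≤ h) (hk0 : 0 < k)
    (hk : (h : ℝ) * k ^ 3 = n ^ 2) (hρ : (P : ℝ) - 3 * h * k = ρ) (hρ0 : 0 < ρ)
    (hρ1 : ρ ≤ 1 / (2000 * V ^ 4)) (hbig : 1600 * V ^ 2 * h ≤ k * ρ)
    (hP : (primorial T : ℤ) ∣ P - 1) (hcop : RoughT T z h)
    {y A B d : ℕ} (hy : |(y : ℝ) - k| ≤ √(k * ρ / h) / 2 - 1)
    (hA : |(A : ℝ) - y| ≤ V) (hA' : |((A + d : ℕ) : ℝ) - y| ≤ V)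
    (hB : |(B : ℝ) - y| ≤ V) (hB' : |((B + d : ℕ) : ℝ) - y| ≤ V) (hd : (d : ℝ) ≤ V / 2)
    (hAB : A ≡ B [MOD primorial T]) (hdW : primorial T ∣ d)
    (rA : Rough z A) (rA' : Rough z (A + d)) (rB : Rough z B) (rB' : Rough z (B + d)) :
    f A * f (A + d) = f B * f (B + d) := by
  obtain ⟨W, hW⟩ : ∃ W : ℕ, W = primorial T := ⟨_, rfl⟩
  rw [← hW] at hV hP hAB hdW
  have hWpos : 1 ≤ W := by rw [hW]; exact primorial_pos T
  have hS2 : 2 ≤ S := hS.2.2.1.trans hS0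
  have hWr : (1 : ℝ) ≤ W := by exact_mod_cast hWpos
  have hSr : (2 : ℝ) ≤ S := by exact_mod_cast hS2
  have hWS : (W : ℝ) * 2 ≤ W * S := mul_le_mul_of_nonneg_left hSr (by linarith)
  have hV32 : 32 ≤ V := by rw [hV]; linarith
  have hV0 : 0 < V := by linarith
  have hhr : (1 : ℝ) ≤ h := by exact_mod_cast hh
  have hh0 : (0 : ℝ) < h := by linarith
  obtain ⟨κ, hκ⟩ : ∃ κ : ℝ, κ = k + ρ / (3 * h) := ⟨_, rfl⟩
  have hρ2 : ρ ≤ 1 / 2000 := by
    refine hρ1.trans ?_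
    apply one_div_le_one_div_of_le (by norm_num)
    have : 1 ≤ V ^ 4 := one_le_pow₀ (by linarith)
    linarith
  have hκ1 : 0 ≤ κ - k ∧ κ - k ≤ 1 := by
    rw [hκ]
    constructor
    · have : 0 < ρ / (3 * h) := by positivity
      linarith
    · have : ρ / (3 * h) ≤ 1 := by
        rw [div_le_one (by positivity)]
        nlinarith
      linarith
  have hPr : (P : ℝ) = 3 * h * κ := by
    have e1 : (P : ℝ) = 3 * h * k + ρ := by linarith
    rw [e1, hκ]; field_simp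
  have hu : |(y : ℝ) - κ| ≤ √(k * ρ / h) / 2 := by
    have h1 := abs_le.1 hy
    rw [abs_le]; constructor <;> linarith [hκ1.1, hκ1.2]
  have hc : 1 / V ≤ 1 / 2 := one_div_le_one_div_of_le (by norm_num) (by linarith)
  have hρc : ρ ≤ (1 / V) ^ 2 / (2000 * V ^ 2) := by
    refine hρ1.trans (le_of_eq ?_)
    field_simp
  obtain ⟨v₀, hv0, hv1, hwin⟩ := ring_real (u := (y : ℝ) - κ) (V := V) hhr hk0 hρ0 (by linarith)
    hρc (by positivity) hc hbig hn hk hκ hu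
  have hwin' : ∀ Y Z : ℕ, |(Y : ℝ) - y| ≤ V → |(Z : ℝ) - (κ + v₀)| ≤ V →
      n ^ 2 < ((P - h * (Y + Z) : ℤ) : ℝ) * Y * Z ∧
      ((P - h * (Y + Z) : ℤ) : ℝ) * Y * Z ≤ n ^ 2 + n / V := by
    intro Y Z hY hZ
    have h1 := hwin ((Y : ℝ) - y) ((Z : ℝ) - (κ + v₀)) hY hZ
    have e1 : (h : ℝ) * ((κ - ((y : ℝ) - κ + ((Y : ℝ) - y)) - (v₀ + ((Z : ℝ) - (κ + v₀)))) *
        (κ + ((y : ℝ) - κ + ((Y : ℝ) - y))) * (κ + (v₀ + ((Z : ℝ) - (κ + v₀)))))
        = ((P - h * (Y + Z) : ℤ) : ℝ) * Y * Z := by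
      push_cast; rw [hPr]; ring
    rw [e1] at h1
    refine ⟨h1.1, h1.2.trans (le_of_eq ?_)⟩
    ring
  -- the class of `Z`
  obtain ⟨z₀, hz0, hz0'⟩ := exists_class (T := T) P (by rw [← hW]; exact hP) h A
    (fun q hq hqT => rA q hq (hqT.trans hTz))
  rw [← hW] at hz0
  obtain ⟨zb, hzb⟩ : ∃ zb : ℕ, zb = ⌈κ + v₀⌉₊ := ⟨_, rfl⟩
  have hκ0 : 0 < κ := by linarith [hκ1.1]
  have hzb1 : κ + v₀ ≤ zb := by rw [hzb]; exact Nat.le_ceil _
  have hzb2 : (zb : ℝ) < κ + v₀ + 1 := by rw [hzb]; exact Nat.ceil_lt_add_one (by linarith)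
  obtain ⟨r, hr⟩ : ∃ r : ℕ, r = (z₀ + (W - 1) * zb) % W := ⟨_, rfl⟩
  have hrW : r < W := by rw [hr]; exact Nat.mod_lt _ hWpos
  obtain ⟨Z₀, hZ₀⟩ : ∃ Z₀ : ℕ, Z₀ = zb + r := ⟨_, rfl⟩
  have hZmod : Z₀ ≡ z₀ [MOD W] := by
    rw [hZ₀, hr]
    have h1 : zb + (z₀ + (W - 1) * zb) % W ≡ zb + (z₀ + (W - 1) * zb) [MOD W] :=
      Nat.ModEq.add_left _ (Nat.mod_modEq _ _)
    refine h1.trans ?_
    have h2 : zb + (z₀ + (W - 1) * zb) = z₀ + W * zb := by
      obtain ⟨w, rfl⟩ : ∃ w, W = w + 1 := ⟨W - 1, by omega⟩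
      simp only [Nat.add_sub_cancel]
      ring
    rw [h2]
    simp [Nat.ModEq]
  -- the sieve
  obtain ⟨F, hF⟩ : ∃ F : Finset (ℤ × ℤ), F = {((W : ℤ), (Z₀ : ℤ)), ((W : ℤ), (Z₀ : ℤ) - d),
    (-(h * W : ℤ), P - h * (A + Z₀)), (-(h * W : ℤ), P - h * (B + Z₀))} := ⟨_, rfl⟩
  have hFc : F.card ≤ 13 := by
    rw [hF]
    exact (Finset.card_le_four).trans (by norm_num)
  have hqW : ∀ q : ℕ, q.Prime → T < q → ¬ q ∣ W := by
    intro q hq hqT hd
    rw [hW] at hd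
    rw [primorial] at hd
    obtain ⟨p, hp, hpd⟩ := (Prime.dvd_finsetProd_iff hq.prime _).1 hd
    rw [mem_filter, mem_range] at hp
    have := (Nat.prime_dvd_prime_iff_eq hq hp.2).1 hpd
    omega
  have hF1 : ∀ g ∈ F, ∀ q : ℕ, q.Prime → T < q → q ≤ z → ¬ (q : ℤ) ∣ g.1 := by
    intro g hg q hq hqT hqz hd
    have hhW : ¬ (q : ℤ) ∣ (h * W : ℤ) := by
      intro hd'
      have : q ∣ h * W := by exact_mod_cast hd'
      rcases (Nat.Prime.dvd_mul hq).1 this with h1 | h1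
      · exact hcop q hq hqT hqz h1
      · exact hqW q hq hqT h1
    have hW' : ¬ (q : ℤ) ∣ (W : ℤ) := by
      intro hd'
      exact hqW q hq hqT (by exact_mod_cast hd')
    rw [hF] at hg
    simp only [mem_insert, mem_singleton] at hg
    rcases hg with rfl | rfl | rfl | rfl
    · exact hW' hd
    · exact hW' hd
    · exact hhW ((dvd_neg).1 hd)
    · exact hhW ((dvd_neg).1 hd)
  obtain ⟨s, hs, hsF⟩ := exists_rough hS hS0 hSz F hFc hF1
  obtain ⟨Z, hZ⟩ : ∃ Z : ℕ, Z = Z₀ + W * s := ⟨_, rfl⟩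
  have hZm : Z ≡ z₀ [MOD W] := by
    rw [hZ]
    exact (by simp [Nat.ModEq] : Z₀ + W * s ≡ Z₀ [MOD W]).trans hZmod
  -- position of `Z`
  have hZ1 : κ + v₀ ≤ Z := by
    rw [hZ, hZ₀]; push_cast
    have : (0 : ℝ) ≤ r := Nat.cast_nonneg _
    have : (0 : ℝ) ≤ W * s := by positivity
    linarith
  have hZ2 : (Z : ℝ) ≤ κ + v₀ + V / 8 := by
    have h1 : (r : ℝ) ≤ W := by exact_mod_cast hrW.le
    have h2 : (W : ℝ) * s ≤ W * (S - 1) := by
      apply mul_le_mul_of_nonneg_left _ (by linarith)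
      have : s + 1 ≤ S := hs
      have : (s : ℝ) + 1 ≤ S := by exact_mod_cast this
      linarith
    rw [hZ, hZ₀]; push_cast
    rw [hV]
    nlinarith
  have hkV : V ≤ k := by
    have h1 : 1600 * V ^ 2 * h ≤ k * 1 := hbig.trans (by
      apply mul_le_mul_of_nonneg_left _ hk0.le
      linarith)
    have h2 : V * 1 ≤ 1600 * V ^ 2 * h := by
      have : V * 1 ≤ V ^ 2 * 1 := by nlinarith
      have h3 : V ^ 2 * 1 ≤ V ^ 2 * h := mul_le_mul_of_nonneg_left hhr (by positivity)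
      nlinarith
    linarith
  have hdZ : d ≤ Z := by
    have : (d : ℝ) ≤ Z := by linarith [hκ1.1]
    exact_mod_cast this
  have hZd : ((Z - d : ℕ) : ℝ) = (Z : ℝ) - d := by push_cast [Nat.cast_sub hdZ]; ring
  have hd0 : (0 : ℝ) ≤ d := Nat.cast_nonneg _
  have bZ : |(Z : ℝ) - (κ + v₀)| ≤ V := by rw [abs_le]; constructor <;> linarith
  have bZ' : |((Z - d : ℕ) : ℝ) - (κ + v₀)| ≤ V := by
    rw [hZd, abs_le]; constructor <;> linarith
  -- roughness
  have hqd : ∀ q : ℕ, q.Prime → q ≤ T → (q : ℤ) ∣ (W : ℤ) := by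
    intro q hq hqT
    have : q ∣ W := by
      rw [hW, primorial]
      exact Finset.dvd_prod_of_mem _ (by rw [mem_filter, mem_range]; exact ⟨by omega, hq⟩)
    exact_mod_cast this
  have hZz : (W : ℤ) ∣ (Z : ℤ) - z₀ := by
    have := (Nat.modEq_iff_dvd.1 hZm.symm)
    exact this
  have hABd : (W : ℤ) ∣ (B : ℤ) - A := Nat.modEq_iff_dvd.1 hAB
  have hdd : (W : ℤ) ∣ (d : ℤ) := by exact_mod_cast hdW
  have rZ : Rough z Z := by
    intro q hq hqz hdv
    rcases le_or_gt q T with hqT | hqT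
    · apply (hz0' q hq hqT).1
      have h1 : (q : ℤ) ∣ (Z : ℤ) - z₀ := (hqd q hq hqT).trans hZz
      have h2 : (q : ℤ) ∣ (Z : ℤ) := by exact_mod_cast hdv
      have h3 : (q : ℤ) ∣ (z₀ : ℤ) := by
        have := dvd_sub h2 h1
        simpa using this
      exact_mod_cast h3
    · apply hsF ((W : ℤ), (Z₀ : ℤ)) (by rw [hF]; simp) q hq hqT hqz
      have h2 : (q : ℤ) ∣ (Z : ℤ) := by exact_mod_cast hdv
      rw [hZ] at h2
      push_cast at h2
      rwa [add_comm] at h2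
  have rZ' : Rough z (Z - d) := by
    intro q hq hqz hdv
    have h2 : (q : ℤ) ∣ (Z : ℤ) - d := by
      have : (q : ℤ) ∣ ((Z - d : ℕ) : ℤ) := by exact_mod_cast hdv
      rwa [Nat.cast_sub hdZ] at this
    rcases le_or_gt q T with hqT | hqT
    · apply rZ q hq hqz
      have h3 : (q : ℤ) ∣ (Z : ℤ) := by
        have := dvd_add h2 ((hqd q hq hqT).trans hdd)
        simpa using this
      exact_mod_cast h3
    · apply hsF ((W : ℤ), (Z₀ : ℤ) - d) (by rw [hF]; simp) q hq hqT hqz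
      have e1 : ((Z : ℤ)) - d = (W : ℤ) * s + ((Z₀ : ℤ) - d) := by rw [hZ]; push_cast; ring
      rwa [e1] at h2
  have rPA : ∀ q : ℕ, q.Prime → q ≤ z → ¬ (q : ℤ) ∣ P - h * (A + Z) := by
    intro q hq hqz hdv
    rcases le_or_gt q T with hqT | hqT
    · apply (hz0' q hq hqT).2
      have h1 : (q : ℤ) ∣ (h : ℤ) * ((Z : ℤ) - z₀) := ((hqd q hq hqT).trans hZz).mul_left _
      have e1 : P - h * (A + z₀) = (P - h * (A + Z)) + (h : ℤ) * ((Z : ℤ) - z₀) := by ring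
      rw [e1]
      exact dvd_add hdv h1
    · apply hsF (-(h * W : ℤ), P - h * (A + Z₀)) (by rw [hF]; simp) q hq hqT hqz
      have e1 : P - (h : ℤ) * (A + Z) = -(h * W : ℤ) * s + (P - h * (A + Z₀)) := by
        rw [hZ]; push_cast; ring
      rwa [e1] at hdv
  have rPB : ∀ q : ℕ, q.Prime → q ≤ z → ¬ (q : ℤ) ∣ P - h * (B + Z) := by
    intro q hq hqz hdv
    rcases le_or_gt q T with hqT | hqT
    · apply rPA q hq hqz
      have h1 : (q : ℤ) ∣ (h : ℤ) * ((B : ℤ) - A) := ((hqd q hq hqT).trans hABd).mul_left _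
      have e1 : P - (h : ℤ) * (A + Z) = (P - h * (B + Z)) + (h : ℤ) * ((B : ℤ) - A) := by ring
      rw [e1]
      exact dvd_add hdv h1
    · apply hsF (-(h * W : ℤ), P - h * (B + Z₀)) (by rw [hF]; simp) q hq hqT hqz
      have e1 : P - (h : ℤ) * (B + Z) = -(h * W : ℤ) * s + (P - h * (B + Z₀)) := by
        rw [hZ]; push_cast; ring
      rwa [e1] at hdv
  have esum : ∀ X : ℕ, ((X + d : ℕ) : ℤ) + ((Z - d : ℕ) : ℤ) = (X : ℤ) + Z := by
    intro X; rw [Nat.cast_sub hdZ]; push_cast; ring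
  -- the four values
  have w1 := hwin' A Z hA bZ
  have w2 := hwin' (A + d) (Z - d) hA' bZ'
  have w3 := hwin' B Z hB bZ
  have w4 := hwin' (B + d) (Z - d) hB' bZ'
  obtain ⟨pA, pZ, pX, v1⟩ := prod_val H hn w1.1 w1.2 rA rZ rPA
  obtain ⟨pA', pZ', -, v2⟩ := prod_val H hn w2.1 w2.2 rA' rZ' (by rw [esum]; exact rPA)
  obtain ⟨pB, -, pX', v3⟩ := prod_val H hn w3.1 w3.2 rB rZ rPB
  obtain ⟨pB', -, -, v4⟩ := prod_val H hn w4.1 w4.2 rB' rZ' (by rw [esum]; exact rPB)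
  rw [esum] at v2 v4
  exact four_alg (H.cm.sq pX) (H.cm.sq pX') (H.cm.sq pZ) (H.cm.sq pB) (H.cm.sq pA') v1 v2 v3 v4

end Pool.Agent.RPS
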