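import Mathlib
import Pool.Agent.RPS.Defs
import Pool.Agent.RPS.Sieve
import Pool.Agent.RPS.Four

set_option autoImplicit false

/-!
# The block lemma: `f` is constant on the rough integers of a class modulo `2 W`
-/

namespace Pool.Agent.RPS

open Pool.Agent.SqrtParity Pool.Agent.SSQ Finset

theorem Rough.pos {z m : ℕ} (hz : 2 ≤ z) (h : Rough z m) : 1 ≤ m := by
  rcases Nat.eq_zero_or_pos m with h0 | h0
  · exact absurd (h0 ▸ dvd_zero 2) (h 2 Nat.prime_two hz)
  · exact h0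

/-- roughness in a residue class modulo the primorial -/
theorem rough_of {T z m y : ℕ} (hy : Rough z y) (hmy : ∀ q : ℕ, q.Prime → q ≤ T → q ∣ m → q ∣ y)
    (hm : ∀ q : ℕ, q.Prime → T < q → q ≤ z → ¬ q ∣ m) (hTz : T ≤ z) : Rough z m := by
  intro q hq hqz hd
  rcases Nat.lt_or_ge T q with h | h
  · exact hm q hq h hqz hd
  · exact hy q hq (h.trans hTz) (hmy q hq h hd)

theorem not_dvd_primorial {T q : ℕ} (hq : q.Prime) (hT : T < q) : ¬ q ∣ primorial T := by
  intro h
  have := (Nat.Prime.dvd_primorial_iff hq).1 h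
  omega

theorem dvd_primorial' {T q : ℕ} (hq : q.Prime) (hT : q ≤ T) : q ∣ primorial T :=
  (Nat.Prime.dvd_primorial_iff hq).2 hT

/-- step 2: neighbours -/
theorem block_near {C T S0 : ℕ} (hS : SieveC C T S0) {f : ℕ → ℤ} {n V : ℝ} {z S : ℕ} {e : ℤ}
    (H : HypR f n V z e) (hn : 0 < n) (hS0 : S0 ≤ S) (hSz : z ^ C ≤ S) (hTz : T ≤ z)
    (hV : V = 16 * primorial T * S) {h : ℕ} {k ρ : ℝ} {P : ℤ} (hh : 1 ≤ h) (hk0 : 0 < k)
    (hk : (h : ℝ) * k ^ 3 = n ^ 2) (hρ : (P : ℝ) - 3 * h * k = ρ) (hρ0 : 0 < ρ)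
    (hρ1 : ρ ≤ 1 / (2000 * V ^ 4)) (hbig : 1600 * V ^ 2 * h ≤ k * ρ)
    (hP : (primorial T : ℤ) ∣ P - 1) (hcop : RoughT T z h) {y t : ℕ}
    (hy : |(y : ℝ) - k| ≤ √(k * ρ / h) / 2 - 1) (ht : t ≤ 2 * S)
    (ry : Rough z y) (ry' : Rough z (y + 2 * (primorial T * t))) :
    f y = f (y + 2 * (primorial T * t)) := by
  obtain ⟨W, hW⟩ : ∃ W, W = primorial T := ⟨_, rfl⟩
  have hT5 : 5 ≤ T := hS.2.1
  have hW1 : 1 ≤ W := by rw [hW]; exact primorial_pos T
  obtain ⟨d, hd⟩ : ∃ d, d = primorial T * t := ⟨_, rfl⟩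
  rw [← hd] at ry' ⊢
  have hWd : W ∣ d := by rw [hd, ← hW]; exact dvd_mul_right _ _
  have hdS : d ≤ 2 * (W * S) := by
    rw [hd, ← hW]
    calc W * t ≤ W * (2 * S) := Nat.mul_le_mul_left _ ht
      _ = _ := by ring
  have hdSr : (d : ℝ) ≤ 2 * (W * S) := by exact_mod_cast hdS
  have hVr : V = 16 * ((W : ℝ) * S) := by rw [hV, hW]; ring
  -- the sieve
  obtain ⟨s, hs, hs'⟩ := exists_rough hS hS0 hSz
    {((W : ℤ), (y : ℤ)), ((W : ℤ), (y : ℤ) + d), ((W : ℤ), (y : ℤ) + 2 * d)}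
    ((card_le_three).trans (by norm_num)) (by
      intro g hg q hq hTq _ hdv
      have : g.1 = W := by
        simp only [mem_insert, mem_singleton] at hg
        rcases hg with rfl | rfl | rfl <;> rfl
      rw [this] at hdv
      have h2 : q ∣ W := by exact_mod_cast hdv
      rw [hW] at h2
      exact not_dvd_primorial hq hTq h2)
  obtain ⟨y₁, hy₁⟩ : ∃ y₁, y₁ = y + W * s := ⟨_, rfl⟩
  have hWs : W * s ≤ W * S := Nat.mul_le_mul_left _ hs.le
  have hWsr : (W : ℝ) * s ≤ W * S := by exact_mod_cast hWs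
  have hWs0 : (0 : ℝ) ≤ (W : ℝ) * s := by positivity
  have hWS0 : (0 : ℝ) ≤ (W : ℝ) * S := by positivity
  have hd0 : (0 : ℝ) ≤ d := by positivity
  have hz2 : 2 ≤ z := by omega
  have rr : ∀ c : ℕ, (∀ q : ℕ, q.Prime → T < q → q ≤ z → ¬ (q : ℤ) ∣ (W : ℤ) * s + (y + c * d)) →
      Rough z (y₁ + c * d) := by
    intro c hc
    apply rough_of ry _ _ hTz
    · intro q hq hqT hdv
      have h1 : q ∣ W := by rw [hW]; exact dvd_primorial' hq hqT
      have h2 : q ∣ c * d := dvd_mul_of_dvd_right (h1.trans hWd) c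
      have h3 := (Nat.dvd_add_left h2).1 hdv
      rw [hy₁] at h3
      exact (Nat.dvd_add_left (dvd_mul_of_dvd_left h1 s)).1 h3
    · intro q hq hTq hqz hdv
      apply hc q hq hTq hqz
      have h1 : (q : ℤ) ∣ ((y₁ + c * d : ℕ) : ℤ) := by exact_mod_cast hdv
      rw [hy₁] at h1
      push_cast at h1
      convert h1 using 1
      ring
  have r0 : Rough z (y₁ + 0 * d) := rr 0 (by
    intro q hq hTq hqz
    have := hs' ((W : ℤ), (y : ℤ)) (by simp) q hq hTq hqz
    simpa using this)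
  have r1 : Rough z (y₁ + 1 * d) := rr 1 (by
    intro q hq hTq hqz
    have := hs' ((W : ℤ), (y : ℤ) + d) (by simp) q hq hTq hqz
    simpa using this)
  have r2 : Rough z (y₁ + 2 * d) := rr 2 (by
    intro q hq hTq hqz
    have := hs' ((W : ℤ), (y : ℤ) + 2 * d) (by simp) q hq hTq hqz
    simpa using this)
  rw [zero_mul, add_zero] at r0
  rw [one_mul] at r1
  have r2' : Rough z (y₁ + d + d) := by rw [add_assoc, ← two_mul]; exact r2
  have hy1r : (y₁ : ℝ) - y = W * s := by rw [hy₁]; push_cast; ring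
  have F1 := four hS H hn hS0 hSz hTz hV hh hk0 hk hρ hρ0 hρ1 hbig hP hcop
    (y := y) (A := y₁) (B := y₁ + d) (d := d) hy
    (by rw [abs_le, hy1r, hVr]; constructor <;> linarith)
    (by push_cast; rw [show (y₁ : ℝ) + d - y = (y₁ - y) + d by ring, hy1r, abs_le, hVr]
        constructor <;> linarith)
    (by push_cast; rw [show (y₁ : ℝ) + d - y = (y₁ - y) + d by ring, hy1r, abs_le, hVr]
        constructor <;> linarith)
    (by push_cast; rw [show (y₁ : ℝ) + d + d - y = (y₁ - y) + d + d by ring, hy1r, abs_le, hVr]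
        constructor <;> linarith)
    (by rw [hVr]; linarith)
    (by
      rw [← hW]
      obtain ⟨x, hx⟩ := hWd
      rw [hx]
      exact (Nat.ModEq.symm (by simp [Nat.ModEq])))
    (by rw [← hW]; exact hWd) r0 r1 r1 r2'
  have F2 := four hS H hn hS0 hSz hTz hV hh hk0 hk hρ hρ0 hρ1 hbig hP hcop
    (y := y) (A := y) (B := y₁) (d := 2 * d) hy
    (by rw [sub_self, abs_zero, hVr]; linarith)
    (by push_cast; rw [show (y : ℝ) + 2 * d - y = 2 * d by ring, abs_le, hVr]
        constructor <;> linarith)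
    (by rw [abs_le, hy1r, hVr]; constructor <;> linarith)
    (by push_cast; rw [show (y₁ : ℝ) + 2 * d - y = (y₁ - y) + 2 * d by ring, hy1r, abs_le, hVr]
        constructor <;> linarith)
    (by push_cast; rw [hVr]; linarith)
    (by
      rw [hy₁, ← hW]
      exact (Nat.ModEq.symm (by simp [Nat.ModEq])))
    (by rw [← hW]; exact dvd_mul_of_dvd_right hWd 2) ry ry' r0 r2
  have hf := H.cm
  have s1 := hf.sq (r1.pos hz2)
  have s2 := hf.sq (r0.pos hz2)
  have s3 := hf.sq (ry'.pos hz2)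
  have e1 : f y₁ = f (y₁ + 2 * d) := by
    have e0 : y₁ + d + d = y₁ + 2 * d := by ring
    rw [e0] at F1
    calc f y₁ = f y₁ * (f (y₁ + d) * f (y₁ + d)) := by rw [s1, mul_one]
      _ = (f y₁ * f (y₁ + d)) * f (y₁ + d) := by ring
      _ = (f (y₁ + d) * f (y₁ + 2 * d)) * f (y₁ + d) := by rw [F1]
      _ = (f (y₁ + d) * f (y₁ + d)) * f (y₁ + 2 * d) := by ring
      _ = _ := by rw [s1, one_mul]
  rw [← e1, s2] at F2
  calc f y = f y * (f (y + 2 * d) * f (y + 2 * d)) := by rw [s3, mul_one]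
    _ = (f y * f (y + 2 * d)) * f (y + 2 * d) := by ring
    _ = _ := by rw [F2, one_mul]

theorem block_rough {C T S0 : ℕ} (hS : SieveC C T S0) {f : ℕ → ℤ} {n V : ℝ} {z S : ℕ} {e : ℤ}
    (H : HypR f n V z e) (hn : 0 < n) (hS0 : S0 ≤ S) (hSz : z ^ C ≤ S) (hTz : T ≤ z)
    (hV : V = 16 * primorial T * S) {h : ℕ} {k ρ : ℝ} {P : ℤ} (hh : 1 ≤ h) (hk0 : 0 < k)
    (hk : (h : ℝ) * k ^ 3 = n ^ 2) (hρ : (P : ℝ) - 3 * h * k = ρ) (hρ0 : 0 < ρ)
    (hρ1 : ρ ≤ 1 / (2000 * V ^ 4)) (hbig : 1600 * V ^ 2 * h ≤ k * ρ)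
    (hP : (primorial T : ℤ) ∣ P - 1) (hcop : RoughT T z h) {y y' : ℕ}
    (hy : |(y : ℝ) - k| ≤ √(k * ρ / h) / 2 - 1) (hy' : |(y' : ℝ) - k| ≤ √(k * ρ / h) / 2 - 1)
    (hyy : y ≡ y' [MOD 2 * primorial T]) (ry : Rough z y) (ry' : Rough z y') :
    f y = f y' := by
  obtain ⟨W, hW⟩ : ∃ W, W = primorial T := ⟨_, rfl⟩
  have hT5 : 5 ≤ T := hS.2.1
  have hW1 : 1 ≤ W := by rw [hW]; exact primorial_pos T
  -- the increasing version
  have key : ∀ t : ℕ, ∀ y : ℕ, |(y : ℝ) - k| ≤ √(k * ρ / h) / 2 - 1 →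
      |((y + 2 * (W * t) : ℕ) : ℝ) - k| ≤ √(k * ρ / h) / 2 - 1 → Rough z y →
      Rough z (y + 2 * (W * t)) → f y = f (y + 2 * (W * t)) := by
    intro t
    induction t using Nat.strong_induction_on with
    | _ t ih =>
      intro y hy hy' ry ry'
      rcases Nat.lt_or_ge (2 * S) t with htS | htS
      · obtain ⟨s, hs, hs'⟩ := exists_rough hS hS0 hSz
          {((2 * W : ℤ), (y : ℤ) + 2 * W)} (by rw [card_singleton]; norm_num) (by
            intro g hg q hq hTq _ hdv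
            rw [mem_singleton] at hg
            rw [hg] at hdv
            have h2' : (q : ℤ) ∣ 2 * (W : ℤ) := hdv
            have h2 : q ∣ 2 * W := by exact_mod_cast h2'
            rcases (Nat.Prime.dvd_mul hq).1 h2 with h3 | h3
            · have := Nat.le_of_dvd (by norm_num) h3
              omega
            · rw [hW] at h3
              exact not_dvd_primorial hq hTq h3)
        obtain ⟨y₂, hy₂⟩ : ∃ y₂, y₂ = y + 2 * (W * (1 + s)) := ⟨_, rfl⟩
        have ry₂ : Rough z y₂ := by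
          apply rough_of ry _ _ hTz
          · intro q hq hqT hdv
            have h1 : q ∣ W := by rw [hW]; exact dvd_primorial' hq hqT
            rw [hy₂] at hdv
            exact (Nat.dvd_add_left (dvd_mul_of_dvd_right (dvd_mul_of_dvd_left h1 _) 2)).1 hdv
          · intro q hq hTq hqz hdv
            apply hs' _ (mem_singleton_self _) q hq hTq hqz
            have h1 : (q : ℤ) ∣ ((y₂ : ℕ) : ℤ) := by exact_mod_cast hdv
            rw [hy₂] at h1
            push_cast at h1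
            convert h1 using 1
            ring
        have hst : 1 + s ≤ t := by omega
        have hyy2 : y₂ + 2 * (W * (t - (1 + s))) = y + 2 * (W * t) := by
          rw [hy₂]
          obtain ⟨u, rfl⟩ := Nat.exists_eq_add_of_le hst
          rw [Nat.add_sub_cancel_left]
          ring
        have hle : y₂ ≤ y + 2 * (W * t) := by rw [← hyy2]; exact Nat.le_add_right _ _
        have hle2 : y ≤ y₂ := by rw [hy₂]; exact Nat.le_add_right _ _
        have hler : (y₂ : ℝ) ≤ ((y + 2 * (W * t) : ℕ) : ℝ) := by exact_mod_cast hle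
        have hle2r : (y : ℝ) ≤ y₂ := by exact_mod_cast hle2
        have hy2 : |(y₂ : ℝ) - k| ≤ √(k * ρ / h) / 2 - 1 := by
          rw [abs_le] at hy hy' ⊢
          constructor <;> linarith
        have g1 : f y = f y₂ := by
          rw [hy₂, hW]
          apply block_near hS H hn hS0 hSz hTz hV hh hk0 hk hρ hρ0 hρ1 hbig hP hcop hy (by omega) ry
          rw [← hW, ← hy₂]; exact ry₂
        have g2 : f y₂ = f (y + 2 * (W * t)) := by
          rw [← hyy2]
          apply ih (t - (1 + s)) (by omega) y₂ hy2 _ ry₂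
          · rw [hyy2]; exact ry'
          · rw [hyy2]; exact hy'
        rw [g1, g2]
      · rw [hW]
        rw [hW] at ry'
        exact block_near hS H hn hS0 hSz hTz hV hh hk0 hk hρ hρ0 hρ1 hbig hP hcop hy htS ry ry'
  have main : ∀ y y' : ℕ, y ≤ y' → |(y : ℝ) - k| ≤ √(k * ρ / h) / 2 - 1 →
      |(y' : ℝ) - k| ≤ √(k * ρ / h) / 2 - 1 → y ≡ y' [MOD 2 * primorial T] → Rough z y →
      Rough z y' → f y = f y' := by
    intro y y' hle hy hy' hyy ry ry'
    obtain ⟨t, ht⟩ := (Nat.modEq_iff_dvd' hle).1 hyy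
    have e1 : y' = y + 2 * (W * t) := by
      rw [hW]
      have : y' = y + (y' - y) := by omega
      rw [this, ht]; ring
    subst e1
    exact key t y hy hy' ry ry'
  rcases le_total y y' with h1 | h1
  · exact main y y' h1 hy hy' hyy ry ry'
  · exact (main y' y h1 hy' hy hyy.symm ry' ry).symm

end Pool.Agent.RPS
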