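import Mathlib
import Pool.Agent.H33.Exp.KL

set_option autoImplicit false

/-!
# A trigonometric minorant
-/

namespace Pool.Agent.RPS

open Pool.Agent.H33 Finset

/-- number of pairs with difference `m` -/
noncomputable def fejN (L : ℕ) (m : ℤ) : ℕ :=
  ((range L ×ˢ range L).filter (fun p : ℕ × ℕ => (p.1 : ℤ) - p.2 = m)).card

lemma fejN_le (L : ℕ) (m : ℤ) : fejN L m ≤ L := by
  unfold fejN
  calc ((range L ×ˢ range L).filter (fun p : ℕ × ℕ => (p.1 : ℤ) - p.2 = m)).card
      ≤ (range L).card := by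
        apply card_le_card_of_injOn (fun p : ℕ × ℕ => p.1)
        · intro p hp
          have hp' := Finset.mem_coe.1 hp
          rw [mem_filter, mem_product] at hp'
          exact hp'.1.1
        · intro p hp p' hp' h
          have h1 := Finset.mem_coe.1 hp
          have h2 := Finset.mem_coe.1 hp'
          rw [mem_filter] at h1 h2
          have h3 : p.1 = p'.1 := h
          have h4 := h1.2
          have h5 := h2.2
          ext
          · exact h3
          · omega
    _ = L := card_range L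

lemma fejN_zero_of {L : ℕ} {m : ℤ} (h : (L : ℤ) ≤ |m|) : fejN L m = 0 := by
  unfold fejN
  rw [card_eq_zero, filter_eq_empty_iff]
  intro p hp h1
  rw [mem_product, mem_range, mem_range] at hp
  rcases abs_cases m with h2 | h2 <;> omega

lemma fejN_ge {L : ℕ} {m : ℤ} (k : ℕ) (hm : m = k ∨ m = -(k : ℤ)) (hk : k ≤ L) :
    L - k ≤ fejN L m := by
  unfold fejN
  rcases hm with hm | hm
  · calc L - k = (range (L - k)).card := (card_range _).symm
      _ ≤ _ := by
        apply card_le_card_of_injOn (fun r : ℕ => ((r + k, r) : ℕ × ℕ))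
        · intro r hr
          have hr' := Finset.mem_coe.1 hr
          rw [mem_range] at hr'
          apply Finset.mem_coe.2
          rw [mem_filter, mem_product, mem_range, mem_range]
          refine ⟨⟨?_, ?_⟩, ?_⟩
          · show r + k < L
            omega
          · show r < L
            omega
          · show ((r + k : ℕ) : ℤ) - (r : ℤ) = m
            push_cast
            omega
        · intro r _ r' _ h
          have := congrArg Prod.snd h
          exact this
  · calc L - k = (range (L - k)).card := (card_range _).symm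
      _ ≤ _ := by
        apply card_le_card_of_injOn (fun r : ℕ => ((r, r + k) : ℕ × ℕ))
        · intro r hr
          have hr' := Finset.mem_coe.1 hr
          rw [mem_range] at hr'
          apply Finset.mem_coe.2
          rw [mem_filter, mem_product, mem_range, mem_range]
          refine ⟨⟨?_, ?_⟩, ?_⟩
          · show r < L
            omega
          · show r + k < L
            omega
          · show (r : ℤ) - ((r + k : ℕ) : ℤ) = m
            push_cast
            omega
        · intro r _ r' _ h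
          have := congrArg Prod.fst h
          exact this

lemma fejN_sum (L : ℕ) (s : ℤ) (hs : |s| ≤ 1) (x : ℝ) :
    ∑ l ∈ Icc (-(L : ℤ)) L, ((fejN L (l + s) : ℝ) : ℂ) * ee (l * x) =
      ee (-(s * x)) * ∑ p ∈ range L ×ˢ range L, ee (((p.1 : ℝ) - p.2) * x) := by
  have hs' := abs_le.1 hs
  have h1 : ∀ l ∈ Icc (-(L : ℤ)) L, ((fejN L (l + s) : ℝ) : ℂ) * ee (l * x) =
      ∑ p ∈ range L ×ˢ range L, if (p.1 : ℤ) - p.2 = l + s then ee (l * x) else 0 := by
    intro l _
    unfold fejN
    rw [← sum_filter, sum_const, nsmul_eq_mul]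
    push_cast
    rfl
  rw [sum_congr rfl h1, sum_comm, mul_sum]
  apply sum_congr rfl
  intro p hp
  rw [mem_product, mem_range, mem_range] at hp
  rw [sum_eq_single ((p.1 : ℤ) - p.2 - s)]
  · rw [if_pos (by ring), ← ee_add]
    congr 1
    push_cast
    ring
  · intro l _ hl
    rw [if_neg]
    intro h
    exact hl (by omega)
  · intro h
    exfalso
    apply h
    rw [mem_Icc]
    constructor <;> omega

lemma fej_sq (L : ℕ) (x : ℝ) :
    ∑ p ∈ range L ×ˢ range L, ee (((p.1 : ℝ) - p.2) * x) =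
      ((Complex.normSq (∑ r ∈ range L, ee (r * x)) : ℝ) : ℂ) := by
  rw [Complex.normSq_eq_conj_mul_self, mul_comm, map_sum, sum_mul_sum, sum_product]
  apply sum_congr rfl
  intro r _
  apply sum_congr rfl
  intro s _
  show ee (((r : ℝ) - s) * x) = _
  rw [← ee_sub]
  congr 1
  ring

theorem minorant {τ : ℝ} (h0 : 0 < τ) (h1 : τ ≤ 1 / 8) {L : ℕ} (hL : 1 ≤ 4 * τ ^ 2 * L) :
    ∃ a : ℤ → ℂ, (∀ l, ‖a l‖ ≤ 2 * L) ∧ (∀ l, (L : ℤ) < |l| → a l = 0) ∧ 1 ≤ (a 0).re ∧
      (a 0).im = 0 ∧ ∀ x : ℝ, (∑ l ∈ Icc (-(L : ℤ)) L, a l * ee (l * x)).im = 0 ∧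
        ((∀ m : ℤ, τ < |x - m|) → (∑ l ∈ Icc (-(L : ℤ)) L, a l * ee (l * x)).re ≤ 0) := by
  have hL1 : 1 ≤ L := by
    rcases Nat.eq_zero_or_pos L with h | h
    · rw [h] at hL
      norm_num at hL
    · exact h
  obtain ⟨c, hc⟩ : ∃ c, c = Real.cos (2 * Real.pi * τ) := ⟨_, rfl⟩
  have hc1 : |c| ≤ 1 := by rw [hc]; exact Real.abs_cos_le_one _
  refine ⟨fun l => (((fejN L (l + (-1)) + fejN L (l + 1)) / 2 - c * fejN L (l + 0) : ℝ) : ℂ),
    ?_, ?_, ?_, ?_, ?_⟩
  · intro l
    show ‖(((fejN L (l + (-1)) + fejN L (l + 1)) / 2 - c * fejN L (l + 0) : ℝ) : ℂ)‖ ≤ 2 * L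
    rw [Complex.norm_real, Real.norm_eq_abs]
    have e1 : (fejN L (l + (-1)) : ℝ) ≤ L := by exact_mod_cast fejN_le L _
    have e2 : (fejN L (l + 1) : ℝ) ≤ L := by exact_mod_cast fejN_le L _
    have e3 : (fejN L (l + 0) : ℝ) ≤ L := by exact_mod_cast fejN_le L _
    have e4 : |c * fejN L (l + 0)| ≤ L := by
      rw [abs_mul, Nat.abs_cast]
      calc |c| * (fejN L (l + 0) : ℝ) ≤ 1 * L := by
            apply mul_le_mul hc1 e3 (Nat.cast_nonneg _) (by norm_num)
        _ = L := one_mul _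
    have e5 : (0 : ℝ) ≤ fejN L (l + (-1)) := Nat.cast_nonneg _
    have e6 : (0 : ℝ) ≤ fejN L (l + 1) := Nat.cast_nonneg _
    rw [abs_le] at e4 ⊢
    constructor <;> linarith [e4.1, e4.2]
  · intro l hl
    show (((fejN L (l + (-1)) + fejN L (l + 1)) / 2 - c * fejN L (l + 0) : ℝ) : ℂ) = 0
    have z1 : (L : ℤ) ≤ |l + (-1)| := by
      rcases abs_cases l with h | h <;> rcases abs_cases (l + (-1)) with h' | h' <;> omega
    have z2 : (L : ℤ) ≤ |l + 1| := by
      rcases abs_cases l with h | h <;> rcases abs_cases (l + 1) with h' | h' <;> omega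
    have z3 : (L : ℤ) ≤ |l + 0| := by rw [add_zero]; exact hl.le
    rw [fejN_zero_of z1, fejN_zero_of z2, fejN_zero_of z3]
    simp
  · show 1 ≤ (((fejN L (0 + (-1)) + fejN L (0 + 1)) / 2 - c * fejN L (0 + 0) : ℝ) : ℂ).re
    rw [Complex.ofReal_re]
    have e1 : L - 1 ≤ fejN L (0 + (-1)) := fejN_ge 1 (Or.inr (by norm_num)) hL1
    have e2 : L - 1 ≤ fejN L (0 + 1) := fejN_ge 1 (Or.inl (by norm_num)) hL1
    have e3 : L ≤ fejN L (0 + 0) := by
      have := fejN_ge (L := L) (m := 0 + 0) 0 (Or.inl (by norm_num)) (by omega)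
      simpa using this
    have e4 := fejN_le L (0 + 0)
    have e5 : fejN L (0 + 0) = L := by omega
    have e1' : (L : ℝ) - 1 ≤ fejN L (0 + (-1)) := by
      have : ((L - 1 : ℕ) : ℝ) ≤ fejN L (0 + (-1)) := by exact_mod_cast e1
      rw [Nat.cast_sub hL1] at this
      simpa using this
    have e2' : (L : ℝ) - 1 ≤ fejN L (0 + 1) := by
      have : ((L - 1 : ℕ) : ℝ) ≤ fejN L (0 + 1) := by exact_mod_cast e2
      rw [Nat.cast_sub hL1] at this
      simpa using this
    rw [e5]
    -- `1 - c ≥ 8 τ ^ 2`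
    have h3 : 8 * τ ^ 2 ≤ 1 - c := by
      have hs : 2 * τ ≤ Real.sin (Real.pi * τ) := by
        have := Real.mul_le_sin (x := Real.pi * τ) (by positivity) (by
          have := Real.pi_pos
          nlinarith)
        have e : 2 / Real.pi * (Real.pi * τ) = 2 * τ := by
          have := Real.pi_pos
          field_simp
        rw [e] at this
        exact this
      have h4 : c = 1 - 2 * Real.sin (Real.pi * τ) ^ 2 := by
        rw [hc]
        have e : 2 * Real.pi * τ = 2 * (Real.pi * τ) := by ring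
        rw [e, Real.cos_two_mul, Real.cos_sq']
        ring
      rw [h4]
      nlinarith
    have hLr : (1 : ℝ) ≤ L := by exact_mod_cast hL1
    have h5 : 8 * τ ^ 2 * L ≤ (1 - c) * L := mul_le_mul_of_nonneg_right h3 (by linarith)
    have h6 : (1 - c) * (L : ℝ) = L - c * L := by ring
    have h7 : 8 * τ ^ 2 * (L : ℝ) = 2 * (4 * τ ^ 2 * L) := by ring
    have h8 : 2 ≤ (1 - c) * (L : ℝ) := by linarith
    rw [h6] at h8
    obtain ⟨u, hu⟩ : ∃ u : ℝ, u = fejN L (0 + (-1)) := ⟨_, rfl⟩
    obtain ⟨v, hv⟩ : ∃ v : ℝ, v = fejN L (0 + 1) := ⟨_, rfl⟩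
    rw [← hu] at e1' ⊢
    rw [← hv] at e2' ⊢
    linarith
  · show (((fejN L (0 + (-1)) + fejN L (0 + 1)) / 2 - c * fejN L (0 + 0) : ℝ) : ℂ).im = 0
    rw [Complex.ofReal_im]
  · intro x
    obtain ⟨G, hG⟩ : ∃ G : ℝ, G = Complex.normSq (∑ r ∈ range L, ee (r * x)) := ⟨_, rfl⟩
    have hG0 : 0 ≤ G := by rw [hG]; exact Complex.normSq_nonneg _
    have key : ∑ l ∈ Icc (-(L : ℤ)) L,
        (((fejN L (l + (-1)) + fejN L (l + 1)) / 2 - c * fejN L (l + 0) : ℝ) : ℂ) * ee (l * x) =
        (((Real.cos (2 * Real.pi * x) - c) * G : ℝ) : ℂ) := by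
      have k1 := fejN_sum L (-1) (by norm_num) x
      have k2 := fejN_sum L 1 (by norm_num) x
      have k3 := fejN_sum L 0 (by norm_num) x
      rw [fej_sq, ← hG] at k1 k2 k3
      have k4 : ∑ l ∈ Icc (-(L : ℤ)) L,
          (((fejN L (l + (-1)) + fejN L (l + 1)) / 2 - c * fejN L (l + 0) : ℝ) : ℂ) * ee (l * x) =
          (1 / 2) * ∑ l ∈ Icc (-(L : ℤ)) L, ((fejN L (l + (-1)) : ℝ) : ℂ) * ee (l * x) +
          (1 / 2) * ∑ l ∈ Icc (-(L : ℤ)) L, ((fejN L (l + 1) : ℝ) : ℂ) * ee (l * x) -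
          c * ∑ l ∈ Icc (-(L : ℤ)) L, ((fejN L (l + 0) : ℝ) : ℂ) * ee (l * x) := by
        rw [mul_sum, mul_sum, mul_sum, ← sum_add_distrib, ← sum_sub_distrib]
        apply sum_congr rfl
        intro l _
        push_cast
        ring
      rw [k4, k1, k2, k3]
      have e1 : ee (-(((-1 : ℤ) : ℝ) * x)) + ee (-(((1 : ℤ) : ℝ) * x)) =
          2 * (Real.cos (2 * Real.pi * x) : ℂ) := by
        have f1 : -(((-1 : ℤ) : ℝ) * x) = x := by push_cast; ring
        have f2 : -(((1 : ℤ) : ℝ) * x) = -x := by push_cast; ring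
        rw [f1, f2, ee_neg]
        have f3 : ee x = (Real.cos (2 * Real.pi * x) : ℂ) + Complex.I * Real.sin (2 * Real.pi * x) := by
          unfold ee
          rw [mul_comm Complex.I, Complex.exp_mul_I, ← Complex.ofReal_cos, ← Complex.ofReal_sin]
          ring
        rw [f3]
        simp only [map_add, map_mul, Complex.conj_ofReal, Complex.conj_I]
        ring
      have e2 : ee (-(((0 : ℤ) : ℝ) * x)) = 1 := by
        have f1 : -(((0 : ℤ) : ℝ) * x) = 0 := by push_cast; ring
        rw [f1, ee_zero]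
      rw [e2]
      have e3 : (1 / 2 : ℂ) * (ee (-(((-1 : ℤ) : ℝ) * x)) * (G : ℂ)) +
          (1 / 2) * (ee (-(((1 : ℤ) : ℝ) * x)) * (G : ℂ)) =
          (1 / 2) * ((ee (-(((-1 : ℤ) : ℝ) * x)) + ee (-(((1 : ℤ) : ℝ) * x))) * (G : ℂ)) := by
        ring
      rw [e3, e1]
      push_cast
      ring
    constructor
    · show (∑ l ∈ Icc (-(L : ℤ)) L,
        (((fejN L (l + (-1)) + fejN L (l + 1)) / 2 - c * fejN L (l + 0) : ℝ) : ℂ) *
          ee (l * x)).im = 0
      rw [key, Complex.ofReal_im]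
    · intro hx
      show (∑ l ∈ Icc (-(L : ℤ)) L,
        (((fejN L (l + (-1)) + fejN L (l + 1)) / 2 - c * fejN L (l + 0) : ℝ) : ℂ) *
          ee (l * x)).re ≤ 0
      rw [key, Complex.ofReal_re]
      apply mul_nonpos_of_nonpos_of_nonneg _ hG0
      rw [sub_nonpos, hc]
      have hr := hx (round x)
      have hr2 := abs_sub_round x
      have e : Real.cos (2 * Real.pi * x) = Real.cos (2 * Real.pi * |x - round x|) := by
        have e1 : 2 * Real.pi * x = 2 * Real.pi * (x - round x) + (round x) * (2 * Real.pi) := by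
          ring
        rw [e1, Real.cos_add_int_mul_two_pi]
        rcases abs_cases (x - round x) with h | h
        · rw [h.1]
        · rw [h.1, mul_neg, Real.cos_neg]
      rw [e]
      have hpi := Real.pi_pos
      apply Real.cos_le_cos_of_nonneg_of_le_pi
      · positivity
      · nlinarith
      · nlinarith

end Pool.Agent.RPS
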