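import Mathlib
import Pool.Agent.RPS.Defs
import Pool.Agent.RPS.WeylF
import Pool.Agent.RPS.Fejer
import Pool.Agent.H33.Exp.PrimeSum

set_option autoImplicit false

/-!
# Bad multipliers are rare in progressions, power saving
-/

namespace Pool.Agent.RPS

open Pool.Agent.SqrtParity Pool.Agent.SSQ Pool.Agent.H33 Finset Filter

/-- second moment of a sum of exponentials -/
theorem few_second_moment {ι : Type} [DecidableEq ι] (A : Finset ι) (c : ι → ℂ) (φ : ι → ℕ → ℝ)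
    (N : ℕ) {B δ : ℝ} (hB : 0 ≤ B) (hδ : 0 ≤ δ) (hc : ∀ a ∈ A, ‖c a‖ ≤ B)
    (hoff : ∀ a ∈ A, ∀ b ∈ A, a ≠ b → ‖∑ i ∈ range N, ee (φ a i - φ b i)‖ ≤ δ * N) :
    ∑ i ∈ range N, ‖∑ a ∈ A, c a * ee (φ a i)‖ ^ 2 ≤
      A.card * (B ^ 2 * N) + A.card * (A.card * (B ^ 2 * (δ * N))) := by
  have h1 : ((∑ i ∈ range N, ‖∑ a ∈ A, c a * ee (φ a i)‖ ^ 2 : ℝ) : ℂ) =
      ∑ a ∈ A, ∑ b ∈ A, c a * (starRingEnd ℂ) (c b) * ∑ i ∈ range N, ee (φ a i - φ b i) := by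
    push_cast
    have h2 : ∀ i, ((‖∑ a ∈ A, c a * ee (φ a i)‖ : ℝ) : ℂ) ^ 2 =
        ∑ a ∈ A, ∑ b ∈ A, c a * (starRingEnd ℂ) (c b) * ee (φ a i - φ b i) := by
      intro i
      rw [← Complex.mul_conj', map_sum, sum_mul_sum]
      refine sum_congr rfl fun a _ => sum_congr rfl fun b _ => ?_
      rw [map_mul, ee_sub]; ring
    simp_rw [h2]
    rw [sum_comm]
    refine sum_congr rfl fun a _ => ?_
    rw [sum_comm]
    refine sum_congr rfl fun b _ => ?_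
    rw [mul_sum]
  have h3 : ∑ i ∈ range N, ‖∑ a ∈ A, c a * ee (φ a i)‖ ^ 2 ≤
      ∑ a ∈ A, ∑ b ∈ A, ‖c a‖ * ‖c b‖ * ‖∑ i ∈ range N, ee (φ a i - φ b i)‖ := by
    have h4 := congrArg norm h1
    rw [Complex.norm_real, Real.norm_of_nonneg (sum_nonneg fun i _ => by positivity)] at h4
    rw [h4]
    refine (norm_sum_le _ _).trans (sum_le_sum fun a _ =>
      (norm_sum_le _ _).trans (sum_le_sum fun b _ => ?_))
    rw [norm_mul, norm_mul, RCLike.norm_conj]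
  refine h3.trans ?_
  have h5 : ∀ a ∈ A, ∑ b ∈ A, ‖c a‖ * ‖c b‖ * ‖∑ i ∈ range N, ee (φ a i - φ b i)‖ ≤
      B ^ 2 * N + A.card * (B ^ 2 * (δ * N)) := by
    intro a ha
    have h6 : ∀ b ∈ A, ‖c a‖ * ‖c b‖ * ‖∑ i ∈ range N, ee (φ a i - φ b i)‖ ≤
        (if a = b then B ^ 2 * N else 0) + B ^ 2 * (δ * N) := by
      intro b hb
      have h7 : ‖c a‖ * ‖c b‖ ≤ B ^ 2 := by
        rw [sq]
        exact mul_le_mul (hc a ha) (hc b hb) (norm_nonneg _) hB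
      have h8 : (0 : ℝ) ≤ B ^ 2 * (δ * N) := by positivity
      by_cases hab : a = b
      · rw [if_pos hab]
        have h9 : ‖∑ i ∈ range N, ee (φ a i - φ b i)‖ ≤ N := by
          refine (norm_sum_le _ _).trans ?_
          simp [norm_ee]
        have h10 : ‖c a‖ * ‖c b‖ * ‖∑ i ∈ range N, ee (φ a i - φ b i)‖ ≤ B ^ 2 * N :=
          mul_le_mul h7 h9 (norm_nonneg _) (by positivity)
        linarith
      · rw [if_neg hab, zero_add]
        exact mul_le_mul h7 (hoff a ha b hb hab) (norm_nonneg _) (by positivity)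
    refine (sum_le_sum h6).trans ?_
    rw [sum_add_distrib, sum_ite_eq, if_pos ha, sum_const, nsmul_eq_mul]
  refine (sum_le_sum h5).trans (le_of_eq ?_)
  rw [sum_const, nsmul_eq_mul]; ring

/-- equal frequencies are equal indices -/
theorem few_index {J L : ℕ} (hL : L < J ^ 2) {j j' : ℕ} {l l' : ℤ} (hj : j.Prime) (hj' : j'.Prime)
    (hJ' : J < j') (hl : |l| ≤ L) (hl0 : l ≠ 0)
    (h : l * (j : ℤ) ^ 2 = l' * (j' : ℤ) ^ 2) : j = j' ∧ l = l' := by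
  have hjj : j = j' := by
    by_contra hne
    have hcop : Nat.Coprime (j' ^ 2) (j ^ 2) :=
      Nat.Coprime.pow 2 2 ((Nat.coprime_primes hj' hj).2 (Ne.symm hne))
    have hcop' : IsCoprime ((j' : ℤ) ^ 2) ((j : ℤ) ^ 2) := by
      have := Nat.isCoprime_iff_coprime.2 hcop
      push_cast at this
      exact this
    have hdvd : ((j' : ℤ) ^ 2) ∣ l * (j : ℤ) ^ 2 := by rw [h]; exact Dvd.intro_left _ rfl
    have hdvd2 : ((j' : ℤ) ^ 2) ∣ l := hcop'.dvd_of_dvd_mul_right hdvd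
    have h1 : ((j' : ℤ) ^ 2) ≤ |l| := Int.le_of_dvd (abs_pos.2 hl0) ((dvd_abs _ _).2 hdvd2)
    have h2 : ((J : ℤ) ^ 2) < ((j' : ℤ) ^ 2) := by
      have : (J : ℤ) < j' := by exact_mod_cast hJ'
      nlinarith
    have h3 : (L : ℤ) < (J : ℤ) ^ 2 := by exact_mod_cast hL
    linarith
  refine ⟨hjj, ?_⟩
  rw [hjj] at h
  have : ((j' : ℤ) ^ 2) ≠ 0 := pow_ne_zero 2 (by exact_mod_cast hj'.ne_zero)
  exact mul_right_cancel₀ this h

/-- the numerical part -/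
theorem few_numR (W : ℕ) (hW : 1 ≤ W) : ∃ n0 : ℝ, ∀ n : ℝ, n0 ≤ n → 1 ≤ n ∧ ∀ V : ℝ, 1 ≤ V →
    V ≤ n ^ ((2 : ℝ) / 10 ^ 7) → ∀ J : ℕ, n ^ ((1 : ℝ) / 10 ^ 5) ≤ J →
    (J : ℝ) ≤ 2 * n ^ ((1 : ℝ) / 10 ^ 5) →
    ∃ L : ℕ, 1 ≤ 4 * (1 / (8000 * V ^ 4 * W)) ^ 2 * L ∧ L < J ^ 2 ∧
      128 * (L : ℝ) * J ^ 2 ≤ n ^ ((3 : ℝ) / 10000) ∧
      0 < ((prS J).card : ℝ) ∧
      8 * (L : ℝ) ^ 3 / (prS J).card + 16 * (L : ℝ) ^ 4 * n ^ (-(1 : ℝ) / 2500) ≤
        n ^ (-(1 : ℝ) / 10 ^ 6) := by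
  obtain ⟨P0, hP0⟩ := eventually_atTop.1 Theta_ge
  obtain ⟨C, hC⟩ : ∃ C : ℝ, C = 16 * 10 ^ 6 * (W : ℝ) ^ 2 + 1 := ⟨_, rfl⟩
  have hC1 : 1 ≤ C := by rw [hC]; nlinarith [sq_nonneg (W : ℝ)]
  obtain ⟨U, hU⟩ : ∃ U : ℝ, U = max (1648 * C ^ 4) (P0 : ℝ) := ⟨_, rfl⟩
  have hUC : 1648 * C ^ 4 ≤ U := by rw [hU]; exact le_max_left _ _
  have hUP : (P0 : ℝ) ≤ U := by rw [hU]; exact le_max_right _ _
  have hU1 : 1 ≤ U := by
    have : 1 ≤ C ^ 4 := one_le_pow₀ hC1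
    linarith
  refine ⟨U ^ (10 ^ 7 : ℕ), fun n hn => ?_⟩
  have hn1 : 1 ≤ n := (one_le_pow₀ hU1).trans hn
  have hn0 : 0 < n := by linarith
  refine ⟨hn1, ?_⟩
  intro V hV1 hV J hJ1 hJ2
  obtain ⟨u, hu⟩ : ∃ u : ℝ, u = n ^ ((1 : ℝ) / 10 ^ 7) := ⟨_, rfl⟩
  have hun : ∀ k : ℕ, n ^ ((k : ℝ) / 10 ^ 7) = u ^ k := by
    intro k
    rw [hu, ← Real.rpow_natCast (n ^ ((1 : ℝ) / 10 ^ 7)) k, ← Real.rpow_mul hn0.le]
    congr 1; ring
  have huU : U ≤ u := by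
    have h1 : (U ^ (10 ^ 7 : ℕ)) ^ ((1 : ℝ) / 10 ^ 7) = U := by
      rw [← Real.rpow_natCast U (10 ^ 7), ← Real.rpow_mul (by linarith)]
      norm_num
    rw [hu, ← h1]
    exact Real.rpow_le_rpow (by positivity) hn (by norm_num)
  have hu1 : 1 ≤ u := hU1.trans huU
  have hu0 : 0 < u := by linarith
  have e2 : n ^ ((2 : ℝ) / 10 ^ 7) = u ^ 2 := by
    have := hun 2; push_cast at this; exact this
  have e100 : n ^ ((1 : ℝ) / 10 ^ 5) = u ^ 100 := by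
    rw [← hun 100]; congr 1; norm_num
  have e3000 : n ^ ((3 : ℝ) / 10000) = u ^ 3000 := by
    rw [← hun 3000]; congr 1; norm_num
  have e4000 : n ^ (-(1 : ℝ) / 2500) = (u ^ 4000)⁻¹ := by
    rw [← hun 4000, ← Real.rpow_neg hn0.le]; congr 1; norm_num
  have e10 : n ^ (-(1 : ℝ) / 10 ^ 6) = (u ^ 10)⁻¹ := by
    rw [← hun 10, ← Real.rpow_neg hn0.le]; congr 1; norm_num
  rw [e2] at hV
  rw [e100] at hJ1 hJ2
  have hW1 : (1 : ℝ) ≤ W := by exact_mod_cast hW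
  have hV0 : 0 < V := by linarith
  have hW0 : (0 : ℝ) < W := by linarith
  have hV8 : V ^ 8 ≤ u ^ 16 := by
    calc V ^ 8 ≤ (u ^ 2) ^ 8 := pow_le_pow_left₀ hV0.le hV 8
      _ = u ^ 16 := by rw [← pow_mul]
  obtain ⟨L, hL⟩ : ∃ L : ℕ, L = ⌈16 * 10 ^ 6 * (W : ℝ) ^ 2 * V ^ 8⌉₊ := ⟨_, rfl⟩
  have hL1 : 16 * 10 ^ 6 * (W : ℝ) ^ 2 * V ^ 8 ≤ L := by rw [hL]; exact Nat.le_ceil _
  have hL2 : (L : ℝ) ≤ C * u ^ 16 := by
    have h1 : (L : ℝ) < 16 * 10 ^ 6 * (W : ℝ) ^ 2 * V ^ 8 + 1 := by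
      rw [hL]; exact Nat.ceil_lt_add_one (by positivity)
    have h2 : (1 : ℝ) ≤ V ^ 8 := one_le_pow₀ hV1
    rw [hC]
    have h3 : 16 * 10 ^ 6 * (W : ℝ) ^ 2 * V ^ 8 ≤ 16 * 10 ^ 6 * (W : ℝ) ^ 2 * u ^ 16 :=
      mul_le_mul_of_nonneg_left hV8 (by positivity)
    linarith
  have hL0 : (0 : ℝ) ≤ L := Nat.cast_nonneg L
  have hCu : 1648 * C ^ 4 ≤ u := hUC.trans huU
  have hC4 : ∀ k ≤ 4, C ^ k ≤ C ^ 4 := fun k hk => pow_le_pow_right₀ hC1 hk
  have hC0 : 0 < C := by linarith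
  have hCC : C ≤ u := by
    have h1 := hC4 1 (by norm_num)
    rw [pow_one] at h1
    have h2 : 0 < C ^ 4 := by positivity
    linarith
  have hupow : ∀ a b : ℕ, a ≤ b → u ^ a ≤ u ^ b := fun a b h => pow_le_pow_right₀ hu1 h
  refine ⟨L, ?_, ?_, ?_, ?_⟩
  · have h1 : 4 * (1 / (8000 * V ^ 4 * W)) ^ 2 * (L : ℝ) =
        (L : ℝ) / (16 * 10 ^ 6 * (W : ℝ) ^ 2 * V ^ 8) := by
      field_simp; ring
    rw [h1, le_div_iff₀ (by positivity), one_mul]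
    exact hL1
  · have h1 : (L : ℝ) < (J : ℝ) ^ 2 := by
      have h2 : (u ^ 100) ^ 2 ≤ (J : ℝ) ^ 2 := pow_le_pow_left₀ (by positivity) hJ1 2
      have h3 : (L : ℝ) ≤ u ^ 17 := by
        calc (L : ℝ) ≤ C * u ^ 16 := hL2
          _ ≤ u * u ^ 16 := mul_le_mul_of_nonneg_right hCC (by positivity)
          _ = u ^ 17 := by ring
      have h4 : u ^ 17 < u ^ 200 := by
        have h5 : 1 < u := by
          have : (1 : ℝ) ≤ C ^ 4 := one_le_pow₀ hC1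
          linarith
        exact pow_lt_pow_right₀ h5 (by norm_num)
      have h6 : (u ^ 100) ^ 2 = u ^ 200 := by rw [← pow_mul]
      linarith
    exact_mod_cast h1
  · rw [e3000]
    have h2 : (J : ℝ) ^ 2 ≤ (2 * u ^ 100) ^ 2 := pow_le_pow_left₀ (by positivity) hJ2 2
    calc 128 * (L : ℝ) * J ^ 2 ≤ 128 * (C * u ^ 16) * (2 * u ^ 100) ^ 2 :=
          mul_le_mul (by linarith) h2 (by positivity) (by positivity)
      _ = (512 * C) * u ^ 216 := by ring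
      _ ≤ u * u ^ 216 := by
          apply mul_le_mul_of_nonneg_right _ (by positivity)
          have h1 := hC4 1 (by norm_num)
          rw [pow_one] at h1
          linarith
      _ = u ^ 217 := by ring
      _ ≤ u ^ 3000 := hupow _ _ (by norm_num)
  · have hJP : P0 ≤ J := by
      have h1 : (P0 : ℝ) ≤ J := by
        calc (P0 : ℝ) ≤ u := hUP.trans huU
          _ = u ^ 1 := (pow_one u).symm
          _ ≤ u ^ 100 := hupow _ _ (by norm_num)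
          _ ≤ J := hJ1
      exact_mod_cast h1
    have hth := hP0 J hJP
    have hJ0 : (0 : ℝ) < J := lt_of_lt_of_le (by positivity) hJ1
    have hlog : ∀ p ∈ prS J, Real.log p ≤ 103 * u := by
      intro p hp
      have h1 := (mem_filter.1 hp).1
      have h2 := (mem_Ioc.1 h1).2
      have h3 := (mem_Ioc.1 h1).1
      have hp0 : (0 : ℝ) < p := by
        have : 0 < p := by omega
        exact_mod_cast this
      have h4 : (p : ℝ) ≤ 16 * u ^ 100 := by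
        have : (p : ℝ) ≤ 8 * J := by exact_mod_cast h2
        linarith
      have h5 : Real.log p ≤ Real.log (16 * u ^ 100) := Real.log_le_log hp0 h4
      have h6 : Real.log (16 * u ^ 100) = Real.log 16 + 100 * Real.log u := by
        rw [Real.log_mul (by norm_num) (by positivity), Real.log_pow]; norm_num
      have h7 : Real.log u ≤ u := (Real.log_le_sub_one_of_pos hu0).trans (by linarith)
      have h8 : Real.log 16 ≤ 3 := by
        rw [show (16 : ℝ) = 2 ^ 4 by norm_num, Real.log_pow]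
        have := Real.log_two_lt_d9
        push_cast
        linarith
      nlinarith
    have hcard : (J : ℝ) ≤ (prS J).card * (103 * u) := by
      refine hth.trans ?_
      have := sum_le_sum hlog
      rw [sum_const, nsmul_eq_mul] at this
      exact this
    have hcard0 : 0 < ((prS J).card : ℝ) := by
      by_contra h
      push Not at h
      have h1 : ((prS J).card : ℝ) = 0 := le_antisymm h (Nat.cast_nonneg _)
      rw [h1, zero_mul] at hcard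
      linarith
    refine ⟨hcard0, ?_⟩
    rw [e4000, e10]
    have hmain1 : 8 * (L : ℝ) ^ 3 / (prS J).card ≤ (u ^ 10)⁻¹ / 2 := by
      rw [div_le_iff₀ hcard0]
      have h1 : u ^ 100 ≤ (prS J).card * (103 * u) := hJ1.trans hcard
      have h2 : (L : ℝ) ^ 3 ≤ (C * u ^ 16) ^ 3 := pow_le_pow_left₀ hL0 hL2 3
      have h3 : 16 * (L : ℝ) ^ 3 * u ^ 10 ≤ (prS J).card := by
        have h4 : 16 * (L : ℝ) ^ 3 * u ^ 10 * (103 * u) ≤ (prS J).card * (103 * u) := by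
          calc 16 * (L : ℝ) ^ 3 * u ^ 10 * (103 * u) ≤
                16 * (C * u ^ 16) ^ 3 * u ^ 10 * (103 * u) := by
                apply mul_le_mul_of_nonneg_right _ (by positivity)
                apply mul_le_mul_of_nonneg_right _ (by positivity)
                linarith
            _ = (1648 * C ^ 3) * u ^ 59 := by ring
            _ ≤ u * u ^ 59 := by
                apply mul_le_mul_of_nonneg_right _ (by positivity)
                have := hC4 3 (by norm_num)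
                linarith
            _ = u ^ 60 := by ring
            _ ≤ u ^ 100 := hupow _ _ (by norm_num)
            _ ≤ _ := h1
        exact le_of_mul_le_mul_right h4 (by positivity)
      have h5 : (u ^ 10)⁻¹ / 2 * ((prS J).card : ℝ) ≥ (u ^ 10)⁻¹ / 2 * (16 * (L : ℝ) ^ 3 * u ^ 10) :=
        mul_le_mul_of_nonneg_left h3 (by positivity)
      have h6 : (u ^ 10)⁻¹ / 2 * (16 * (L : ℝ) ^ 3 * u ^ 10) = 8 * (L : ℝ) ^ 3 := by
        field_simp; ring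
      linarith
    have hmain2 : 16 * (L : ℝ) ^ 4 * (u ^ 4000)⁻¹ ≤ (u ^ 10)⁻¹ / 2 := by
      have h2 : (L : ℝ) ^ 4 ≤ (C * u ^ 16) ^ 4 := pow_le_pow_left₀ hL0 hL2 4
      rw [← div_eq_mul_inv, div_le_iff₀ (by positivity)]
      have h3 : 32 * (L : ℝ) ^ 4 * u ^ 10 ≤ u ^ 4000 := by
        calc 32 * (L : ℝ) ^ 4 * u ^ 10 ≤ 32 * (C * u ^ 16) ^ 4 * u ^ 10 := by
              apply mul_le_mul_of_nonneg_right _ (by positivity)
              linarith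
          _ = (32 * C ^ 4) * u ^ 74 := by ring
          _ ≤ u * u ^ 74 := by
              apply mul_le_mul_of_nonneg_right _ (by positivity)
              have : 0 < C ^ 4 := by positivity
              linarith
          _ = u ^ 75 := by ring
          _ ≤ u ^ 4000 := hupow _ _ (by norm_num)
      have h4 : (u ^ 10)⁻¹ / 2 * (u ^ 4000) ≥ (u ^ 10)⁻¹ / 2 * (32 * (L : ℝ) ^ 4 * u ^ 10) :=
        mul_le_mul_of_nonneg_left h3 (by positivity)
      have h6 : (u ^ 10)⁻¹ / 2 * (32 * (L : ℝ) ^ 4 * u ^ 10) = 16 * (L : ℝ) ^ 4 := by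
        field_simp; ring
      linarith
    linarith

/-- Bad multipliers are rare in progressions. -/
theorem few_badR (W : ℕ) (hW : 1 ≤ W) : ∃ n0 : ℝ, ∀ n : ℝ, n0 ≤ n → ∀ X V : ℝ,
    n ^ ((19 : ℝ) / 100) ≤ X → X ≤ n ^ ((192 : ℝ) / 1000) → 1 ≤ V →
    V ≤ n ^ ((2 : ℝ) / 10 ^ 7) → ∀ J : ℕ, n ^ ((1 : ℝ) / 10 ^ 5) ≤ J → (J : ℝ) ≤ 2 * n ^ ((1 : ℝ) / 10 ^ 5) →
    ∀ N : ℕ, n ^ ((54 : ℝ) / 1000) ≤ N → (N : ℝ) ≤ n ^ ((55 : ℝ) / 1000) →
    ∀ (h₀ s : ℕ), 1 ≤ s → s ≤ 10 * W → X / 4 ≤ h₀ → (h₀ : ℝ) + s * N ≤ 4 * X →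
    ∀ T : Finset ℕ, (∀ i ∈ T, i < N) → (∀ i ∈ T, ¬ GoodR n V W J ((h₀ + s * i : ℕ) : ℝ)) →
      (T.card : ℝ) ≤ N * n ^ (-(1 : ℝ) / 10 ^ 6) := by
  obtain ⟨n1, hn1⟩ := few_numR W hW
  obtain ⟨n2, hn2⟩ := weylF W hW
  refine ⟨max n1 n2, fun n hn X V hX1 hX2 hV1 hV2 J hJ1 hJ2 N hN1 hN2 h₀ s hs1 hs2 hh1 hh2 T hT1
    hT2 => ?_⟩
  obtain ⟨hn1', hnum⟩ := hn1 n ((le_max_left _ _).trans hn)
  obtain ⟨L, hLτ, hLJ, hLJ2, hP0, hfin⟩ := hnum V hV1 hV2 J hJ1 hJ2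
  have hweyl := hn2 n ((le_max_right _ _).trans hn) X hX1 hX2 N hN1 hN2 h₀ s
  have hn0 : 0 < n := by linarith
  have hW1 : (1 : ℝ) ≤ W := by exact_mod_cast hW
  have hW0 : (0 : ℝ) < W := by linarith
  have hV0 : 0 < V := by linarith
  have hV4 : 1 ≤ V ^ 4 := one_le_pow₀ hV1
  obtain ⟨τ, hτ⟩ : ∃ τ : ℝ, τ = 1 / (8000 * V ^ 4 * W) := ⟨_, rfl⟩
  have hτ0 : 0 < τ := by rw [hτ]; positivity
  have hτ1 : τ ≤ 1 / 8 := by
    rw [hτ]
    apply one_div_le_one_div_of_le (by norm_num)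
    nlinarith
  rw [← hτ] at hLτ
  obtain ⟨a, ha1, -, ha3, ha4, ha5⟩ := minorant hτ0 hτ1 hLτ
  obtain ⟨mid, hmid⟩ : ∃ mid : ℝ, mid = 3 / (8000 * V ^ 4 * W) := ⟨_, rfl⟩
  obtain ⟨F, hF⟩ : ∃ F : ℕ → ℝ, ∀ i, F i = FF n ((h₀ + s * i : ℕ) : ℝ) := ⟨_, fun _ => rfl⟩
  obtain ⟨θ, hθ⟩ : ∃ θ : ℕ → ℕ → ℝ, ∀ j i, θ j i = (1 - (j : ℝ) ^ 2 * F i) / W := ⟨_, fun _ _ => rfl⟩
  -- the index set
  obtain ⟨A, hA⟩ : ∃ A : Finset (ℕ × ℤ), A = prS J ×ˢ ((Icc (-(L : ℤ)) L).erase 0) := ⟨_, rfl⟩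
  let c : ℕ × ℤ → ℂ := fun x => a x.2 * ee ((x.2 : ℝ) / W - x.2 * mid)
  let φ : ℕ × ℤ → ℕ → ℝ := fun x i => -((x.2 : ℝ) * (x.1 : ℝ) ^ 2 / W) * F i
  obtain ⟨δ, hδ⟩ : ∃ δ : ℝ, δ = n ^ (-(1 : ℝ) / 2500) := ⟨_, rfl⟩
  have hδ0 : 0 ≤ δ := by rw [hδ]; positivity
  have hmemA : ∀ x ∈ A, x.1.Prime ∧ J < x.1 ∧ x.1 ≤ 8 * J ∧ x.2 ≠ 0 ∧ |x.2| ≤ L := by
    intro x hx
    rw [hA, mem_product] at hx
    obtain ⟨h1, h2⟩ := hx
    obtain ⟨h3, h4⟩ := mem_filter.1 h1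
    obtain ⟨h5, h6⟩ := mem_Ioc.1 h3
    obtain ⟨h7, h8⟩ := mem_erase.1 h2
    exact ⟨h4, h5, h6, h7, abs_le.2 (mem_Icc.1 h8)⟩
  have hsm := few_second_moment A c φ N (B := 2 * L) (δ := δ) (by positivity) hδ0
    (by
      intro x _
      simp only [c]
      rw [norm_mul, norm_ee, mul_one]
      exact ha1 _)
    (by
      intro x hx y hy hxy
      obtain ⟨x1, x2, x3, x4, x5⟩ := hmemA x hx
      obtain ⟨y1, y2, y3, y4, y5⟩ := hmemA y hy
      have hne : x.2 * (x.1 : ℤ) ^ 2 - y.2 * (y.1 : ℤ) ^ 2 ≠ 0 := by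
        intro h
        obtain ⟨h1, h2⟩ := few_index hLJ x1 y1 y2 x5 x4 (sub_eq_zero.1 h)
        exact hxy (Prod.ext h1 h2)
      have hlam : ∀ i, φ x i - φ y i =
          (-((x.2 * (x.1 : ℤ) ^ 2 - y.2 * (y.1 : ℤ) ^ 2 : ℤ) : ℝ) / W) *
            FF n ((h₀ + s * i : ℕ) : ℝ) := by
        intro i
        simp only [φ]
        rw [← hF i]
        push_cast
        ring
      simp_rw [hlam]
      rw [hδ, mul_comm (n ^ (-(1 : ℝ) / 2500))]
      refine hweyl _ hs1 hs2 ?_ ?_ hh1 hh2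
      · rw [abs_div, abs_neg, abs_of_pos hW0]
        apply div_le_div_of_nonneg_right _ hW0.le
        have h1 : 1 ≤ |x.2 * (x.1 : ℤ) ^ 2 - y.2 * (y.1 : ℤ) ^ 2| := Int.one_le_abs hne
        have h2 : ((1 : ℤ) : ℝ) ≤ ((|x.2 * (x.1 : ℤ) ^ 2 - y.2 * (y.1 : ℤ) ^ 2| : ℤ) : ℝ) := by
          exact_mod_cast h1
        rw [Int.cast_abs] at h2
        simpa using h2
      · refine le_trans ?_ hLJ2
        rw [abs_div, abs_neg, abs_of_pos hW0]
        have h1 : |((x.2 * (x.1 : ℤ) ^ 2 - y.2 * (y.1 : ℤ) ^ 2 : ℤ) : ℝ)| ≤ 128 * L * J ^ 2 := by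
          push_cast
          have h2 := abs_sub ((x.2 : ℝ) * (x.1 : ℝ) ^ 2) ((y.2 : ℝ) * (y.1 : ℝ) ^ 2)
          have h3 : ∀ z : ℕ × ℤ, z.1 ≤ 8 * J → |z.2| ≤ (L : ℤ) →
              |(z.2 : ℝ) * (z.1 : ℝ) ^ 2| ≤ L * (64 * J ^ 2) := by
            intro z hz1 hz2
            rw [abs_mul]
            have h4 : |(z.2 : ℝ)| ≤ L := by
              have : ((|z.2| : ℤ) : ℝ) ≤ ((L : ℤ) : ℝ) := by exact_mod_cast hz2
              rw [Int.cast_abs] at this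
              simpa using this
            have h5 : |(z.1 : ℝ) ^ 2| ≤ 64 * J ^ 2 := by
              rw [abs_of_nonneg (by positivity)]
              have h6 : (z.1 : ℝ) ≤ 8 * J := by exact_mod_cast hz1
              have h7 : (z.1 : ℝ) ^ 2 ≤ (8 * (J : ℝ)) ^ 2 := pow_le_pow_left₀ (by positivity) h6 2
              nlinarith
            exact mul_le_mul h4 h5 (abs_nonneg _) (by positivity)
          have h4 := h3 x x3 x5
          have h5 := h3 y y3 y5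
          linarith
        refine (div_le_self (abs_nonneg _) hW1).trans ?_
        exact h1)
  -- the sum at a bad index
  have hbad : ∀ i ∈ T, ((prS J).card : ℝ) ^ 2 ≤ ‖∑ x ∈ A, c x * ee (φ x i)‖ ^ 2 := by
    intro i hi
    have hng := hT2 i hi
    have hdecomp : ∑ j ∈ prS J, ∑ l ∈ Icc (-(L : ℤ)) L, a l * ee (l * (θ j i - mid)) =
        (prS J).card * a 0 + ∑ x ∈ A, c x * ee (φ x i) := by
      rw [hA, sum_product]
      have h1 : ∀ j ∈ prS J, ∑ l ∈ Icc (-(L : ℤ)) L, a l * ee (l * (θ j i - mid)) =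
          a 0 + ∑ l ∈ (Icc (-(L : ℤ)) L).erase 0, c (j, l) * ee (φ (j, l) i) := by
        intro j _
        have h0 : (0 : ℤ) ∈ Icc (-(L : ℤ)) L := mem_Icc.2 ⟨by simp, by simp⟩
        rw [← add_sum_erase _ _ h0]
        congr 1
        · simp [ee_zero]
        · refine sum_congr rfl fun l _ => ?_
          simp only [c, φ]
          rw [mul_assoc, ← ee_add]
          congr 2
          rw [hθ]
          field_simp
          ring
      rw [sum_congr rfl h1, sum_add_distrib, sum_const, nsmul_eq_mul]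
    have hre : (∑ j ∈ prS J, ∑ l ∈ Icc (-(L : ℤ)) L, a l * ee (l * (θ j i - mid))).re ≤ 0 := by
      rw [Complex.re_sum]
      refine sum_nonpos fun j hj => ?_
      obtain ⟨h3, h4⟩ := mem_filter.1 hj
      obtain ⟨h5, h6⟩ := mem_Ioc.1 h3
      refine (ha5 (θ j i - mid)).2 fun m => ?_
      by_contra hcon
      push Not at hcon
      apply hng
      refine ⟨j, h4, h5, h6, 1 - W * m, ⟨-m, by ring⟩, ?_, ?_⟩
      · have h7 := (abs_le.1 hcon).1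
        have h8 : ((1 - W * m : ℤ) : ℝ) - (j : ℝ) ^ 2 * FF n ((h₀ + s * i : ℕ) : ℝ) =
            W * (θ j i - m) := by
          rw [hθ, hF]; push_cast; field_simp; ring
        rw [h8]
        have h9 : (1 : ℝ) / (4000 * V ^ 4) = W * (mid - τ) := by
          rw [hmid, hτ]; field_simp; norm_num
        rw [h9]
        exact mul_le_mul_of_nonneg_left (by linarith) hW0.le
      · have h7 := (abs_le.1 hcon).2
        have h8 : ((1 - W * m : ℤ) : ℝ) - (j : ℝ) ^ 2 * FF n ((h₀ + s * i : ℕ) : ℝ) =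
            W * (θ j i - m) := by
          rw [hθ, hF]; push_cast; field_simp; ring
        rw [h8]
        have h9 : (1 : ℝ) / (2000 * V ^ 4) = W * (mid + τ) := by
          rw [hmid, hτ]; field_simp; norm_num
        rw [h9]
        exact mul_le_mul_of_nonneg_left (by linarith) hW0.le
    rw [hdecomp, Complex.add_re, Complex.mul_re] at hre
    simp only [Complex.natCast_re, Complex.natCast_im, zero_mul, sub_zero] at hre
    have h10 : ((prS J).card : ℝ) ≤ ‖∑ x ∈ A, c x * ee (φ x i)‖ := by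
      have h11 := Complex.abs_re_le_norm (∑ x ∈ A, c x * ee (φ x i))
      have h12 := neg_abs_le (∑ x ∈ A, c x * ee (φ x i)).re
      have h13 : ((prS J).card : ℝ) ≤ (prS J).card * (a 0).re := by nlinarith
      linarith
    exact pow_le_pow_left₀ hP0.le h10 2
  have hsum : (T.card : ℝ) * ((prS J).card : ℝ) ^ 2 ≤
      ∑ i ∈ range N, ‖∑ x ∈ A, c x * ee (φ x i)‖ ^ 2 := by
    calc (T.card : ℝ) * ((prS J).card : ℝ) ^ 2 = ∑ i ∈ T, ((prS J).card : ℝ) ^ 2 := by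
          rw [sum_const, nsmul_eq_mul]
      _ ≤ ∑ i ∈ T, ‖∑ x ∈ A, c x * ee (φ x i)‖ ^ 2 := sum_le_sum hbad
      _ ≤ _ := sum_le_sum_of_subset_of_nonneg (fun i hi => mem_range.2 (hT1 i hi))
          fun i _ _ => by positivity
  have hAcard : (A.card : ℝ) = (prS J).card * (2 * L) := by
    rw [hA, card_product]
    have h0 : (0 : ℤ) ∈ Icc (-(L : ℤ)) L := mem_Icc.2 ⟨by simp, by simp⟩
    rw [card_erase_of_mem h0, Int.card_Icc]
    have : ((L : ℤ) + 1 - -(L : ℤ)).toNat - 1 = 2 * L := by omega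
    rw [this]; push_cast; ring
  rw [hAcard] at hsm
  have hP2 : 0 < ((prS J).card : ℝ) ^ 2 := by positivity
  have hfinal : (T.card : ℝ) * ((prS J).card : ℝ) ^ 2 ≤
      (N * (8 * (L : ℝ) ^ 3 / (prS J).card + 16 * (L : ℝ) ^ 4 * δ)) * ((prS J).card : ℝ) ^ 2 := by
    refine (hsum.trans hsm).trans (le_of_eq ?_)
    field_simp
    ring
  have h1 := le_of_mul_le_mul_right hfinal hP2
  rw [← hδ] at hfin
  exact h1.trans (mul_le_mul_of_nonneg_left hfin (Nat.cast_nonneg _))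

end Pool.Agent.RPS
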