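import Mathlib
import Pool.Agent.RPS.Defs
import Pool.Agent.RPS.Wfacts
import Pool.Agent.RPS.Block
import Pool.Agent.SSQ.GoodBlk

set_option autoImplicit false

/-!
# A good multiplier has a block
-/

namespace Pool.Agent.RPS

open Pool.Agent.SqrtParity Pool.Agent.SSQ Finset

theorem good_blkR {C T S0 : ℕ} (hS : SieveC C T S0) {f : ℕ → ℤ} {n V : ℝ} {z S J : ℕ} {e : ℤ}
    (H : HypR f n V z e) (hn : 0 < n) (hS0 : S0 ≤ S) (hSz : z ^ C ≤ S) (hTz : T ≤ z) (hzJ : z ≤ J)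
    (hV : V = 16 * primorial T * S) {h : ℕ} (hh : 1 ≤ h) (hcop : RoughT T z h)
    (hg : GoodR n V (primorial T) J h) (hbig : 10 ^ 11 * V ^ 6 * (J : ℝ) ^ 4 * h ≤ kk n h) :
    ∃ (j : ℕ) (κ : ZMod (3 * W1 T) → ℤ), BlkR f n z (3 * W1 T) J (IR n V J h) h j κ := by
  classical
  obtain ⟨j, hj, hJj, hj8, P, hPW, hρ1, hρ2⟩ := hg
  obtain ⟨hW1, hW2, -, -, -, -, hW6⟩ := W1_facts hS.2.1
  have hT5 := hS.2.1
  have hhr : (1 : ℝ) ≤ h := by exact_mod_cast hh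
  have hh0 : (0 : ℝ) < h := by linarith
  obtain ⟨k, hkdef⟩ : ∃ k : ℝ, k = kk n h := ⟨_, rfl⟩
  have hk0 : 0 < k := by rw [hkdef]; exact kk_pos hn hh0
  have hkc : (h : ℝ) * k ^ 3 = n ^ 2 := by rw [hkdef]; exact kk_cube hn hh0
  have hFF : FF n h = 3 * h * k := by rw [hkdef]; exact FF_eq hn hh0
  rw [← hkdef] at hbig
  have hS2 : 2 ≤ S := hS.2.2.1.trans hS0
  have hV1 : 1 ≤ V := by
    have h1 : (1 : ℝ) ≤ primorial T := by exact_mod_cast primorial_pos T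
    have h2 : (2 : ℝ) ≤ S := by exact_mod_cast hS2
    rw [hV]; nlinarith
  have hV0 : 0 < V := by linarith
  have hj0 : 0 < j := hj.pos
  have hjr : (1 : ℝ) ≤ j := by exact_mod_cast hj0
  have hjr0 : (0 : ℝ) < j := by linarith
  have hJ1 : 1 ≤ J := by omega
  have hJr : (1 : ℝ) ≤ J := by exact_mod_cast hJ1
  have hJ0 : (0 : ℝ) < J := by linarith
  have hj8r : (j : ℝ) ≤ 8 * J := by exact_mod_cast hj8
  obtain ⟨ρ, hρ⟩ : ∃ ρ : ℝ, ρ = P - j ^ 2 * FF n h := ⟨_, rfl⟩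
  rw [← hρ] at hρ1 hρ2
  have hρ0 : 0 < ρ := lt_of_lt_of_le (by positivity) hρ1
  have hkh : ((j ^ 3 * h : ℕ) : ℝ) * (k / j) ^ 3 = n ^ 2 := by
    rw [← hkc]; push_cast; field_simp
  have hρ' : (P : ℝ) - 3 * ((j ^ 3 * h : ℕ) : ℝ) * (k / j) = ρ := by
    rw [hρ, hFF]; push_cast; field_simp
  have hbig' : 1600 * V ^ 2 * ((j ^ 3 * h : ℕ) : ℝ) ≤ k / j * ρ := by
    rw [div_mul_eq_mul_div, le_div_iff₀ hjr0]
    push_cast
    have h1 : (j : ℝ) ^ 4 ≤ (8 * J) ^ 4 := pow_le_pow_left₀ hjr0.le hj8r 4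
    have h2 : k * (1 / (4000 * V ^ 4)) ≤ k * ρ := mul_le_mul_of_nonneg_left hρ1 hk0.le
    refine le_trans ?_ h2
    rw [mul_one_div, le_div_iff₀ (by positivity)]
    calc 1600 * V ^ 2 * ((j : ℝ) ^ 3 * h) * j * (4000 * V ^ 4)
        = 6400000 * V ^ 6 * (j : ℝ) ^ 4 * h := by ring
      _ ≤ 6400000 * V ^ 6 * (8 * J) ^ 4 * h := by gcongr
      _ = 26214400000 * (V ^ 6 * (J : ℝ) ^ 4 * h) := by ring
      _ ≤ 10 ^ 11 * (V ^ 6 * (J : ℝ) ^ 4 * h) := by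
          apply mul_le_mul_of_nonneg_right (by norm_num) (by positivity)
      _ = 10 ^ 11 * V ^ 6 * (J : ℝ) ^ 4 * h := by ring
      _ ≤ k := hbig
  have hcop' : RoughT T z (j ^ 3 * h) := by
    intro q hq hqT hqz hd
    rcases (Nat.Prime.dvd_mul hq).1 hd with hd | hd
    · have := (Nat.prime_dvd_prime_iff_eq hq hj).1 (hq.dvd_of_dvd_pow hd)
      omega
    · exact hcop q hq hqT hqz hd
  have hblock := fun (y y' : ℕ) hy hy' hyy ry ry' =>
    block_rough hS H hn hS0 hSz hTz hV (h := j ^ 3 * h) (k := k / j) (ρ := ρ) (P := P)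
      (y := y) (y' := y') (Nat.mul_pos (pow_pos hj0 3) hh) (by positivity) hkh hρ' hρ0 hρ2 hbig' hPW
      hcop' hy hy' hyy ry ry'
  -- the radius
  have hrad : ∀ y : ℕ, |((j * y : ℕ) : ℝ) - k| ≤ IR n V J h →
      |(y : ℝ) - k / j| ≤ √(k / j * ρ / ((j ^ 3 * h : ℕ) : ℝ)) / 2 - 1 := by
    intro y hy
    have e1 : |(y : ℝ) - k / j| = |((j * y : ℕ) : ℝ) - k| / j := by
      have : (y : ℝ) - k / j = (((j * y : ℕ) : ℝ) - k) / j := by
        push_cast; field_simp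
      rw [this, abs_div, abs_of_pos hjr0]
    rw [e1, div_le_iff₀ hjr0]
    refine hy.trans ?_
    obtain ⟨s, hs⟩ : ∃ s : ℝ, s = √(k / (4000 * V ^ 4 * h)) := ⟨_, rfl⟩
    have hs0 : 0 ≤ s := by rw [hs]; exact Real.sqrt_nonneg _
    have hs2 : s ^ 2 = k / (4000 * V ^ 4 * h) := by rw [hs]; exact Real.sq_sqrt (by positivity)
    have h1 : s / (j : ℝ) ^ 2 ≤ √(k / j * ρ / ((j ^ 3 * h : ℕ) : ℝ)) := by
      apply Real.le_sqrt_of_sq_le
      rw [div_pow, hs2]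
      push_cast
      have e2 : k / j * ρ / ((j : ℝ) ^ 3 * h) = k / h / (j ^ 4) * ρ := by field_simp
      have e3 : k / (4000 * V ^ 4 * h) / ((j : ℝ) ^ 2) ^ 2 = k / h / (j ^ 4) * (1 / (4000 * V ^ 4)) := by
        field_simp
      rw [e2, e3]
      exact mul_le_mul_of_nonneg_left hρ1 (by positivity)
    have h2 : IR n V J h = s / (16 * J) - 8 * J := by rw [IR, hs, hkdef]
    rw [h2]
    have h3 : s / (16 * J) ≤ s / (2 * j) := by
      apply div_le_div_of_nonneg_left hs0 (by positivity)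
      linarith
    have h4 : s / (2 * j) = s / (j : ℝ) ^ 2 / 2 * j := by field_simp
    have h5 : s / (j : ℝ) ^ 2 / 2 * j ≤ √(k / j * ρ / ((j ^ 3 * h : ℕ) : ℝ)) / 2 * j := by
      gcongr
    nlinarith
  -- the function `κ`
  obtain ⟨Q, hQ⟩ : ∃ Q : ZMod (3 * W1 T) → ℕ → Prop, Q = fun r y =>
    Rough z y ∧ |((j * y : ℕ) : ℝ) - k| ≤ IR n V J h ∧ ((j * y : ℕ) : ZMod (3 * W1 T)) = r :=
    ⟨_, rfl⟩
  refine ⟨j, fun r => if hr : ∃ y, Q r y then f (j * hr.choose) else 1, hj, hJj, hj8, ?_, ?_⟩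
  · intro r
    dsimp only
    split_ifs with hr
    · have hall : ∀ r y, Q r y → Rough z y := by
        intro r y h'
        rw [hQ] at h'
        exact h'.1
      exact H.cm.one_or _ (Nat.mul_pos hj0 (Rough.pos (by omega) (hall _ _ hr.choose_spec)))
    · left; rfl
  · intro y ry hy
    rw [← hkdef] at hy
    have hex : ∃ y', Q ((j * y : ℕ) : ZMod (3 * W1 T)) y' := ⟨y, by rw [hQ]; exact ⟨ry, hy, rfl⟩⟩
    dsimp only
    rw [dif_pos hex]
    obtain ⟨y', hy'⟩ : ∃ y', y' = hex.choose := ⟨_, rfl⟩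
    have hsp : Q ((j * y : ℕ) : ZMod (3 * W1 T)) y' := by rw [hy']; exact hex.choose_spec
    rw [← hy']
    rw [hQ] at hsp
    obtain ⟨ry', hy1, hy2⟩ := hsp
    have hmod : y ≡ y' [MOD 2 * primorial T] := by
      rw [← hW2]
      have h1 : j * y' ≡ j * y [MOD 3 * W1 T] := (ZMod.natCast_eq_natCast_iff _ _ _).1 hy2
      have h2 : Nat.gcd (3 * W1 T) j = 1 := by
        have : Nat.Coprime j (3 * W1 T) := by
          rw [Nat.Prime.coprime_iff_not_dvd hj]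
          intro hd
          have : j ≤ T := hW6 j hj (hd.trans ⟨4, by ring⟩)
          omega
        exact this.symm
      exact (Nat.ModEq.cancel_left_of_coprime h2 h1).symm
    have := hblock y y' (hrad y hy) (hrad y' hy1) hmod ry ry'
    have hyp := Rough.pos (by omega) ry
    have hyp' := Rough.pos (by omega) ry'
    rw [H.cm.mul _ _ hj0 hyp, H.cm.mul _ _ hj0 hyp', this]

end Pool.Agent.RPS
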