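import Mathlib
import Pool.Agent.RPS.Defs
import Pool.Agent.RPS.Sieve
import Pool.Agent.RPS.Wfacts

set_option autoImplicit false

/-!
# The pair relation, in residue classes
-/

namespace Pool.Agent.RPS

open Pool.Agent.SqrtParity Pool.Agent.SSQ Finset

namespace PrR

theorem kk_cube {n h : ℝ} (hh : 0 < h) : kk n h ^ 3 = n ^ 2 / h := by
  have h0 : 0 ≤ n ^ 2 / h := by positivity
  unfold kk
  rw [← Real.rpow_natCast, ← Real.rpow_mul h0]
  norm_num

theorem kk_pos {n h : ℝ} (hn : 0 < n) (hh : 0 < h) : 0 < kk n h := by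
  unfold kk
  positivity

theorem kk_anti {n h h' : ℝ} (hh : 0 < h) (hle : h ≤ h') : kk n h' ≤ kk n h := by
  unfold kk
  have h0 : 0 < h' := by linarith
  apply Real.rpow_le_rpow (by positivity) _ (by norm_num)
  gcongr

/-- the main inequality: the ray through the first block meets the second block -/
theorem ray {n h h' : ℝ} (hn : 0 < n) (hh : 0 < h) (hlt : h < h') :
    kk n h' ≤ (2 * h + h') / (h + 2 * h') * kk n h ∧
    (2 * h + h') / (h + 2 * h') * kk n h ≤ kk n h' + kk n h * ((h' - h) / h) ^ 3 / 2 := by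
  have hh' : 0 < h' := by linarith
  set k := kk n h with hk
  set k' := kk n h' with hk'
  have hk0 : 0 < k := kk_pos hn hh
  have hk0' : 0 < k' := kk_pos hn hh'
  have hk3 : k ^ 3 = n ^ 2 / h := kk_cube hh
  have hk3' : k' ^ 3 = n ^ 2 / h' := kk_cube hh'
  have hkk : k' ≤ k := kk_anti hh hlt.le
  have hl : 0 < h + 2 * h' := by linarith
  have hd : 0 < h' - h := by linarith
  set δ : ℝ := (h' - h) ^ 3 * (h + h') / (3 * h * (h + 2 * h') ^ 3) with hδ
  have hδ0 : 0 < δ := by positivity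
  have hcube : ((2 * h + h') / (h + 2 * h') * k) ^ 3 = k' ^ 3 * (1 + 3 * δ) := by
    rw [mul_pow, hk3, hk3', hδ]
    field_simp
    ring
  have hδle : δ ≤ ((h' - h) / h) ^ 3 / 2 := by
    rw [hδ, div_pow, div_div, div_le_div_iff₀ (by positivity) (by positivity)]
    have e1 : (h + h') * (h ^ 3 * 2) ≤ 3 * h * (h + 2 * h') ^ 3 := by
      have e2 : 0 < h * h' := by positivity
      have e3 : 0 ≤ h ^ 4 := by positivity
      have e4 : 0 ≤ h ^ 3 * h' := by positivity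
      have e5 : 0 ≤ h ^ 2 * h' ^ 2 := by positivity
      have e6 : 0 ≤ h * h' ^ 3 := by positivity
      nlinarith
    calc (h' - h) ^ 3 * (h + h') * (h ^ 3 * 2) = (h' - h) ^ 3 * ((h + h') * (h ^ 3 * 2)) := by ring
      _ ≤ (h' - h) ^ 3 * (3 * h * (h + 2 * h') ^ 3) := by gcongr
  have hy0 : 0 ≤ (2 * h + h') / (h + 2 * h') * k := by positivity
  constructor
  · have h1 : k' ^ 3 ≤ ((2 * h + h') / (h + 2 * h') * k) ^ 3 := by
      rw [hcube]
      have : 0 < k' ^ 3 := by positivity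
      nlinarith
    exact (pow_le_pow_iff_left₀ hk0'.le hy0 (by norm_num)).mp h1
  · have h1 : ((2 * h + h') / (h + 2 * h') * k) ^ 3 ≤ (k' * (1 + δ)) ^ 3 := by
      rw [hcube, mul_pow]
      have e1 : 1 + 3 * δ ≤ (1 + δ) ^ 3 := by nlinarith [sq_nonneg δ, pow_pos hδ0 3]
      gcongr
    have h2 := (pow_le_pow_iff_left₀ hy0 (by positivity) (by norm_num)).mp h1
    have h3 : k' * δ ≤ k * (((h' - h) / h) ^ 3 / 2) := by gcongr
    calc (2 * h + h') / (h + 2 * h') * k ≤ k' * (1 + δ) := h2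
      _ = k' + k' * δ := by ring
      _ ≤ k' + k * (((h' - h) / h) ^ 3 / 2) := by linarith
      _ = _ := by ring

theorem rough_mul {z a b : ℕ} (ha : Rough z a) (hb : Rough z b) : Rough z (a * b) := by
  intro q hq hqz hd
  rcases (Nat.Prime.dvd_mul hq).1 hd with h | h
  · exact ha q hq hqz h
  · exact hb q hq hqz h

theorem rough_prime {z j : ℕ} (hj : j.Prime) (hz : z < j) : Rough z j := by
  intro q hq hqz hd
  rcases (Nat.dvd_prime hj).1 hd with h | h
  · exact hq.one_lt.ne' h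
  · omega

end PrR

open PrR in
theorem pair_mod {C T S0 : ℕ} (hS : SieveC C T S0) {f : ℕ → ℤ} (hf : CM f) {n I : ℝ} (hn : 0 < n)
    {z S J M : ℕ} (hM1 : 1 ≤ M) (hMq : ∀ q : ℕ, q.Prime → q ∣ M → q ≤ T)
    (hMd : ∀ q : ℕ, q.Prime → q ≤ T → q ∣ M)
    (hS0 : S0 ≤ S) (hSz : z ^ C ≤ S) (hTz : T ≤ z) (hzJ : z ≤ J) {h h' j j' : ℕ}
    {κ κ' : ZMod M → ℤ} (B : BlkR f n z M J I h j κ)
    (B' : BlkR f n z M J I h' j' κ') (hh : 1 ≤ h) (hlt : h < h')
    (hl : Rough z (h + 2 * h')) (hl' : Rough z (2 * h + h'))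
    (c1 : 128 * (J : ℝ) ^ 2 * (h + 2 * h') * M * (S + 1) ≤ I)
    (c2 : 2 * (kk n h * (((h' : ℝ) - h) / h) ^ 3) ≤ I) (τ : (ZMod M)ˣ) :
    f (h + 2 * h') * f (2 * h + h') = κ (((h + 2 * h' : ℕ) : ZMod M) * τ) *
      κ' (((2 * h + h' : ℕ) : ZMod M) * τ) := by
  obtain ⟨hjp, hj1, hj8, -, hB⟩ := B
  obtain ⟨hjp', hj1', hj8', -, hB'⟩ := B'
  have hT5 : 5 ≤ T := hS.2.1
  have hHr : (1 : ℝ) ≤ h := by exact_mod_cast hh
  have hh0 : (0 : ℝ) < h := by linarith
  have hltr : (h : ℝ) < h' := by exact_mod_cast hlt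
  obtain ⟨ry1, ry2⟩ := ray hn hh0 hltr
  have hk0 : 0 < kk n h := kk_pos hn hh0
  have : NeZero M := ⟨by omega⟩
  have hcop : Nat.Coprime (j * j') M := by
    apply Nat.Coprime.mul_left
    · rw [Nat.Prime.coprime_iff_not_dvd hjp]
      intro hd
      have := hMq j hjp hd
      omega
    · rw [Nat.Prime.coprime_iff_not_dvd hjp']
      intro hd
      have := hMq j' hjp' hd
      omega
  obtain ⟨u, hu⟩ : ∃ u : (ZMod M)ˣ, u = (ZMod.unitOfCoprime (j * j') hcop)⁻¹ * τ := ⟨_, rfl⟩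
  have huτ : ((j * j' : ℕ) : ZMod M) * (u : ZMod M) = τ := by
    have h1 : ((j * j' : ℕ) : ZMod M) = (ZMod.unitOfCoprime (j * j') hcop : ZMod M) :=
      (ZMod.coe_unitOfCoprime (j * j') hcop).symm
    rw [h1, ← Units.val_mul, hu]
    congr 1
    rw [mul_inv_cancel_left]
  obtain ⟨c, hc⟩ : ∃ c : ℕ, c = (u : ZMod M).val := ⟨_, rfl⟩
  have hcM : c < M := by rw [hc]; exact ZMod.val_lt _
  have hcc : Nat.Coprime c M := by rw [hc]; exact ZMod.val_coe_unit_coprime u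
  have hcu : ((c : ℕ) : ZMod M) = (u : ZMod M) := by rw [hc, ZMod.natCast_val, ZMod.cast_id]
  -- `t₁`
  have hl0 : (0 : ℝ) < (h : ℝ) + 2 * h' := by linarith
  have hj0 : (0 : ℝ) < j := by exact_mod_cast hjp.pos
  have hj0' : (0 : ℝ) < j' := by exact_mod_cast hjp'.pos
  have hM0 : (0 : ℝ) < M := by exact_mod_cast hM1
  obtain ⟨D, hD⟩ : ∃ D : ℝ, D = ((h : ℝ) + 2 * h') * (j * j') := ⟨_, rfl⟩
  have hD0 : 0 < D := by rw [hD]; positivity
  obtain ⟨t₁, ht₁⟩ : ∃ t₁ : ℕ, t₁ = ⌈kk n h / (D * M)⌉₊ := ⟨_, rfl⟩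
  have ht2 : kk n h / (D * M) ≤ t₁ := by rw [ht₁]; exact Nat.le_ceil _
  have ht3 : (t₁ : ℝ) < kk n h / (D * M) + 1 := by rw [ht₁]; exact Nat.ceil_lt_add_one (by positivity)
  rw [div_le_iff₀ (by positivity)] at ht2
  have ht3' : (t₁ : ℝ) * (D * M) < kk n h + D * M := by
    have := mul_lt_mul_of_pos_right ht3 (show 0 < D * M by positivity)
    rwa [add_mul, div_mul_cancel₀ _ (by positivity), one_mul] at this
  obtain ⟨s, hs, hs'⟩ := exists_rough hS hS0 hSz {((M : ℤ), (c : ℤ) + M * t₁)}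
    (by rw [card_singleton]; norm_num) (by
      intro g hg q hq hTq _ hdv
      rw [mem_singleton] at hg
      rw [hg] at hdv
      have h2' : (q : ℤ) ∣ (M : ℤ) := hdv
      have h2 : q ∣ M := by exact_mod_cast h2'
      have := hMq q hq h2
      omega)
  obtain ⟨t, ht⟩ : ∃ t : ℕ, t = c + M * (t₁ + s) := ⟨_, rfl⟩
  have hrt : Rough z t := by
    intro q hq hqz hd
    rcases Nat.lt_or_ge T q with hTq | hTq
    · apply hs' _ (mem_singleton_self _) q hq hTq hqz
      have h1 : (q : ℤ) ∣ ((t : ℕ) : ℤ) := by exact_mod_cast hd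
      rw [ht] at h1
      push_cast at h1
      convert h1 using 1
      ring
    · have hqM : q ∣ M := hMd q hq hTq
      rw [ht] at hd
      have h1 : q ∣ c := (Nat.dvd_add_left (dvd_mul_of_dvd_left hqM _)).1 hd
      have h2 : q ∣ Nat.gcd c M := Nat.dvd_gcd h1 hqM
      rw [hcc] at h2
      exact hq.one_lt.ne' (Nat.dvd_one.1 h2)
  have htM : ((t : ℕ) : ZMod M) = (u : ZMod M) := by
    rw [ht]; push_cast; rw [hcu, ZMod.natCast_self, zero_mul, add_zero]
  have hz2 : 2 ≤ z := by omega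
  have htpos : 1 ≤ t := by
    rcases Nat.eq_zero_or_pos t with h0 | h0
    · exact absurd (h0 ▸ dvd_zero 2) (hrt 2 Nat.prime_two hz2)
    · exact h0
  -- size of `t`
  have hsr : (s : ℝ) + 1 ≤ S := by exact_mod_cast hs
  have hcr : (c : ℝ) ≤ M := by exact_mod_cast hcM.le
  have hc0 : (0 : ℝ) ≤ c := by positivity
  have hs0 : (0 : ℝ) ≤ s := by positivity
  have htr : (t : ℝ) = c + M * (t₁ + s) := by rw [ht]; push_cast; ring
  have hlow : kk n h ≤ D * t := by
    rw [htr]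
    have e1 : 0 ≤ D * (c + M * s) := by positivity
    nlinarith
  have hup : D * t ≤ kk n h + D * (M * (S + 1)) := by
    rw [htr]
    have e1 : D * (c + M * (t₁ + s)) = t₁ * (D * M) + D * (c + M * s) := by ring
    rw [e1]
    have e2 : (c : ℝ) + M * s ≤ M + M * (S - 1) := by
      have : (M : ℝ) * s ≤ M * (S - 1) := by
        apply mul_le_mul_of_nonneg_left _ hM0.le
        linarith
      linarith
    have e3 : D * (c + M * s) ≤ D * (M + M * (S - 1)) := mul_le_mul_of_nonneg_left e2 hD0.le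
    nlinarith
  have hDI : D * (M * (S + 1)) ≤ I / 2 := by
    have e1 : (j : ℝ) * j' ≤ 64 * J ^ 2 := by
      have a1 : (j : ℝ) ≤ 8 * J := by exact_mod_cast hj8
      have a2 : (j' : ℝ) ≤ 8 * J := by exact_mod_cast hj8'
      calc (j : ℝ) * j' ≤ (8 * J) * (8 * J) := by gcongr
        _ = _ := by ring
    have e2 : D * (M * (S + 1)) ≤ ((h : ℝ) + 2 * h') * (64 * J ^ 2) * (M * (S + 1)) := by
      rw [hD]; gcongr
    have e3 : ((h : ℝ) + 2 * h') * (64 * J ^ 2) * (M * (S + 1)) =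
      (128 * (J : ℝ) ^ 2 * (h + 2 * h') * M * (S + 1)) / 2 := by ring
    linarith
  have hI0 : 0 ≤ I := by
    have : 0 ≤ D * (M * (S + 1)) := by positivity
    linarith
  -- the two values
  have hrj : Rough z j := rough_prime hjp (by omega)
  have hrj' : Rough z j' := rough_prime hjp' (by omega)
  have V1 := hB ((h + 2 * h') * j' * t) (rough_mul (rough_mul hl hrj') hrt) (by
    have e1 : ((j * ((h + 2 * h') * j' * t) : ℕ) : ℝ) = D * t := by
      rw [hD]; push_cast; ring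
    rw [e1, abs_le]
    constructor <;> linarith)
  have V2 := hB' ((2 * h + h') * j * t) (rough_mul (rough_mul hl' hrj) hrt) (by
    have e1 : ((j' * ((2 * h + h') * j * t) : ℕ) : ℝ) =
        (2 * (h : ℝ) + h') / (h + 2 * h') * (D * t) := by
      rw [hD]; push_cast; field_simp
    have hr0 : 0 ≤ (2 * (h : ℝ) + h') / (h + 2 * h') := by positivity
    have hr1 : (2 * (h : ℝ) + h') / (h + 2 * h') ≤ 1 := by
      rw [div_le_one hl0]; linarith
    have e2 : (2 * (h : ℝ) + h') / (h + 2 * h') * kk n h ≤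
        (2 * (h : ℝ) + h') / (h + 2 * h') * (D * t) := by gcongr
    have e3 : (2 * (h : ℝ) + h') / (h + 2 * h') * (D * t) ≤
        (2 * (h : ℝ) + h') / (h + 2 * h') * kk n h + 1 * (I / 2) := by
      have e4 : (2 * (h : ℝ) + h') / (h + 2 * h') * (D * t) ≤
          (2 * (h : ℝ) + h') / (h + 2 * h') * (kk n h + I / 2) := by
        apply mul_le_mul_of_nonneg_left _ hr0
        linarith
      have e5 : (2 * (h : ℝ) + h') / (h + 2 * h') * (I / 2) ≤ 1 * (I / 2) := by gcongr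
      linarith
    rw [e1, abs_le]
    constructor <;> linarith)
  have g1 : j * ((h + 2 * h') * j' * t) = (h + 2 * h') * (j * j' * t) := by ring
  have g2 : j' * ((2 * h + h') * j * t) = (2 * h + h') * (j * j' * t) := by ring
  have gt : ((j * j' * t : ℕ) : ZMod M) = τ := by
    rw [Nat.cast_mul, htM, huτ]
  have hpos : 1 ≤ j * j' * t := Nat.mul_pos (Nat.mul_pos hjp.pos hjp'.pos) htpos
  rw [g1, hf.mul _ _ (by omega) hpos, Nat.cast_mul (h + 2 * h') (j * j' * t), gt] at V1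
  rw [g2, hf.mul _ _ (by omega) hpos, Nat.cast_mul (2 * h + h') (j * j' * t), gt] at V2
  rw [← V1, ← V2]
  have hs := hf.sq hpos
  calc f (h + 2 * h') * f (2 * h + h')
      = f (h + 2 * h') * f (2 * h + h') * (f (j * j' * t) * f (j * j' * t)) := by rw [hs, mul_one]
    _ = _ := by ring

theorem pairR {C T S0 : ℕ} (hS : SieveC C T S0) {f : ℕ → ℤ} (hf : CM f) {n I : ℝ} (hn : 0 < n)
    {z S J : ℕ} (hS0 : S0 ≤ S) (hSz : z ^ C ≤ S) (hTz : T ≤ z) (hzJ : z ≤ J) {h h' j j' : ℕ}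
    {κ κ' : ZMod (3 * W1 T) → ℤ} (B : BlkR f n z (3 * W1 T) J I h j κ)
    (B' : BlkR f n z (3 * W1 T) J I h' j' κ') (hh : 1 ≤ h) (hlt : h < h')
    (hl : Rough z (h + 2 * h')) (hl' : Rough z (2 * h + h'))
    (c1 : 128 * (J : ℝ) ^ 2 * (h + 2 * h') * (3 * W1 T) * (S + 1) ≤ I)
    (c2 : 2 * (kk n h * (((h' : ℝ) - h) / h) ^ 3) ≤ I) (τ : (ZMod (3 * W1 T))ˣ) :
    f (h + 2 * h') * f (2 * h + h') = κ (((h + 2 * h' : ℕ) : ZMod (3 * W1 T)) * τ) *
      κ' (((2 * h + h' : ℕ) : ZMod (3 * W1 T)) * τ) := by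
  obtain ⟨hW1, hW3, -, -, -, hWd, hWq⟩ := W1_facts hS.2.1
  apply pair_mod hS hf hn (by omega) _ _ hS0 hSz hTz hzJ B B' hh hlt hl hl' _ c2
  · intro q hq hd
    apply hWq q hq
    have : 12 * W1 T = 4 * (3 * W1 T) := by ring
    rw [this]
    exact dvd_mul_of_dvd_right hd 4
  · intro q hq hqT
    rw [hW3]
    exact dvd_mul_of_dvd_right (hWd q hq hqT) 2
  · push_cast
    exact c1

end Pool.Agent.RPS
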