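import Mathlib
import Pool.Agent.RPS.Defs

set_option autoImplicit false

/-!
# Size conditions
-/

namespace Pool.Agent.RPS

open Pool.Agent.SqrtParity Pool.Agent.SSQ Finset

theorem sd_le_root {x y : ℝ} (hx : 0 ≤ x) (h : x ^ 3 ≤ y) : x ≤ y ^ ((1 : ℝ) / 3) := by
  have h1 : (x ^ 3) ^ ((1 : ℝ) / 3) ≤ y ^ ((1 : ℝ) / 3) :=
    Real.rpow_le_rpow (by positivity) h (by norm_num)
  have h2 : (x ^ 3) ^ ((1 : ℝ) / 3) = x := by
    rw [← Real.rpow_natCast, ← Real.rpow_mul hx]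
    norm_num
  rwa [h2] at h1

theorem sd_root_le {x y : ℝ} (hx : 0 ≤ x) (hy : 0 ≤ y) (h : y ≤ x ^ 3) :
    y ^ ((1 : ℝ) / 3) ≤ x := by
  have h1 : y ^ ((1 : ℝ) / 3) ≤ (x ^ 3) ^ ((1 : ℝ) / 3) :=
    Real.rpow_le_rpow hy h (by norm_num)
  have h2 : (x ^ 3) ^ ((1 : ℝ) / 3) = x := by
    rw [← Real.rpow_natCast, ← Real.rpow_mul hx]
    norm_num
  rwa [h2] at h1

theorem side (c : ℝ) (hc : 1 ≤ c) : ∃ n0 : ℝ, ∀ n : ℝ, n0 ≤ n → ∀ X V : ℝ, ∀ J S : ℕ,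
    n ^ ((19 : ℝ) / 100) ≤ X → X ≤ n ^ ((192 : ℝ) / 1000) → 1 ≤ V →
    V ≤ n ^ ((2 : ℝ) / 10 ^ 7) → (S : ℝ) ≤ V → 1 ≤ J → (J : ℝ) ≤ 2 * n ^ ((1 : ℝ) / 10 ^ 5) →
    ∀ h : ℝ, X / 4 ≤ h → h ≤ 4 * X →
      10 ^ 11 * V ^ 6 * (J : ℝ) ^ 4 * h ≤ kk n h ∧ n ^ ((1 : ℝ) / 5) ≤ IR n V J h ∧
      128 * (J : ℝ) ^ 2 * (12 * X) * c * (S + 1) ≤ n ^ ((1 : ℝ) / 5) ∧
      ∀ D : ℝ, 0 ≤ D → D ≤ c * n ^ ((55 : ℝ) / 1000) →
        2 * (kk n h * (D / h) ^ 3) ≤ n ^ ((1 : ℝ) / 5) ∧ D ≤ X / 100 := by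
  have h1 := (tendsto_rpow_atTop (show (0 : ℝ) < 1 / 1000 by norm_num)).eventually
    (Filter.eventually_ge_atTop (10 ^ 14 * c ^ 3 : ℝ))
  obtain ⟨n0, hn0⟩ := Filter.eventually_atTop.mp h1
  refine ⟨max 1 n0, fun n hn X V J S hX1 hX2 hV1 hV2 hSV hJ1 hJ2 h hh1 hh2 => ?_⟩
  have hK := hn0 n (le_trans (le_max_right _ _) hn)
  have hn1 : 1 ≤ n := le_trans (le_max_left _ _) hn
  have hn0' : 0 < n := by linarith
  have P : ∀ a b : ℝ, n ^ a * n ^ b = n ^ (a + b) := fun a b => (Real.rpow_add hn0' a b).symm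
  have PP : ∀ (a : ℝ) (k : ℕ), (n ^ a) ^ k = n ^ (a * k) := fun a k => by
    rw [← Real.rpow_natCast, ← Real.rpow_mul hn0'.le]
  have Pmono : ∀ a b : ℝ, a ≤ b → n ^ a ≤ n ^ b := fun a b h =>
    Real.rpow_le_rpow_of_exponent_le hn1 h
  have Ppos : ∀ a : ℝ, 0 < n ^ a := fun a => Real.rpow_pos_of_pos hn0' a
  have hc3 : 1 ≤ c ^ 3 := one_le_pow₀ hc
  have hcc : c ≤ c ^ 3 := le_self_pow₀ hc (by norm_num)
  have hK1 : (10 : ℝ) ^ 14 ≤ n ^ ((1 : ℝ) / 1000) := by linarith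
  have hX0 : 0 < X := lt_of_lt_of_le (Ppos _) hX1
  have hh0 : 0 < h := by linarith
  have hh3 : n ^ ((19 : ℝ) / 100) / 4 ≤ h := by linarith
  have hh4 : h ≤ 4 * n ^ ((192 : ℝ) / 1000) := by linarith
  have hJ1' : (1 : ℝ) ≤ J := by exact_mod_cast hJ1
  have hn2 : n ^ 2 = n ^ (2 : ℝ) := (Real.rpow_two n).symm
  have hk1 : n ^ ((6026 : ℝ) / 10000) / 2 ≤ kk n h := by
    unfold kk
    apply sd_le_root (by positivity)
    rw [div_pow, PP, le_div_iff₀ hh0]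
    have e1 : n ^ ((6026 : ℝ) / 10000 * ((3 : ℕ) : ℝ)) / 2 ^ 3 * h ≤
        n ^ ((6026 : ℝ) / 10000 * ((3 : ℕ) : ℝ)) / 2 ^ 3 * (4 * n ^ ((192 : ℝ) / 1000)) :=
      mul_le_mul_of_nonneg_left hh4 (by positivity)
    refine e1.trans ?_
    have e2 : n ^ ((6026 : ℝ) / 10000 * ((3 : ℕ) : ℝ)) / 2 ^ 3 * (4 * n ^ ((192 : ℝ) / 1000)) =
        1 / 2 * (n ^ ((6026 : ℝ) / 10000 * ((3 : ℕ) : ℝ)) * n ^ ((192 : ℝ) / 1000)) := by ring
    rw [e2, P, hn2]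
    have e3 : n ^ ((6026 : ℝ) / 10000 * ((3 : ℕ) : ℝ) + (192 : ℝ) / 1000) ≤ n ^ (2 : ℝ) :=
      Pmono _ _ (by norm_num)
    have := Ppos 2
    linarith
  have hk2 : kk n h ≤ 2 * n ^ ((6034 : ℝ) / 10000) := by
    unfold kk
    apply sd_root_le (by positivity) (by positivity)
    rw [mul_pow, PP, div_le_iff₀ hh0, hn2]
    have e1 : (2 : ℝ) ^ 3 * n ^ ((6034 : ℝ) / 10000 * ((3 : ℕ) : ℝ)) * (n ^ ((19 : ℝ) / 100) / 4) ≤
        (2 : ℝ) ^ 3 * n ^ ((6034 : ℝ) / 10000 * ((3 : ℕ) : ℝ)) * h :=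
      mul_le_mul_of_nonneg_left hh3 (by positivity)
    refine le_trans ?_ e1
    have e2 : (2 : ℝ) ^ 3 * n ^ ((6034 : ℝ) / 10000 * ((3 : ℕ) : ℝ)) * (n ^ ((19 : ℝ) / 100) / 4) =
        2 * (n ^ ((6034 : ℝ) / 10000 * ((3 : ℕ) : ℝ)) * n ^ ((19 : ℝ) / 100)) := by ring
    rw [e2, P]
    have e3 : n ^ (2 : ℝ) ≤ n ^ ((6034 : ℝ) / 10000 * ((3 : ℕ) : ℝ) + (19 : ℝ) / 100) :=
      Pmono _ _ (by norm_num)
    have := Ppos ((6034 : ℝ) / 10000 * ((3 : ℕ) : ℝ) + (19 : ℝ) / 100)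
    linarith
  have hk0 : 0 < kk n h := lt_of_lt_of_le (by positivity) hk1
  refine ⟨?_, ?_, ?_, ?_⟩
  · -- (1)
    calc 10 ^ 11 * V ^ 6 * (J : ℝ) ^ 4 * h
        ≤ 10 ^ 11 * (n ^ ((2 : ℝ) / 10 ^ 7)) ^ 6 * (2 * n ^ ((1 : ℝ) / 10 ^ 5)) ^ 4 *
          (4 * n ^ ((192 : ℝ) / 1000)) := by gcongr
      _ = 64 * 10 ^ 11 * (n ^ ((2 : ℝ) / 10 ^ 7 * ((6 : ℕ) : ℝ)) *
          n ^ ((1 : ℝ) / 10 ^ 5 * ((4 : ℕ) : ℝ)) * n ^ ((192 : ℝ) / 1000)) := by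
          rw [mul_pow 2, PP, PP]
          ring
      _ ≤ 64 * 10 ^ 11 * n ^ ((193 : ℝ) / 1000) := by
          apply mul_le_mul_of_nonneg_left _ (by norm_num)
          rw [P, P]
          exact Pmono _ _ (by norm_num)
      _ ≤ n ^ ((1 : ℝ) / 1000) / 2 * n ^ ((193 : ℝ) / 1000) := by
          apply mul_le_mul_of_nonneg_right _ (Ppos _).le
          linarith
      _ = n ^ ((194 : ℝ) / 1000) / 2 := by
          rw [div_mul_eq_mul_div, P]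
          norm_num
      _ ≤ n ^ ((6026 : ℝ) / 10000) / 2 := by
          have := Pmono ((194 : ℝ) / 1000) ((6026 : ℝ) / 10000) (by norm_num)
          linarith
      _ ≤ kk n h := hk1
  · -- (2)
    unfold IR
    have e1 : (n ^ ((2052 : ℝ) / 10000) / 200) ^ 2 ≤ kk n h / (4000 * V ^ 4 * h) := by
      rw [le_div_iff₀ (by positivity)]
      refine le_trans ?_ hk1
      calc (n ^ ((2052 : ℝ) / 10000) / 200) ^ 2 * (4000 * V ^ 4 * h)
          ≤ (n ^ ((2052 : ℝ) / 10000) / 200) ^ 2 * (4000 * (n ^ ((2 : ℝ) / 10 ^ 7)) ^ 4 *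
            (4 * n ^ ((192 : ℝ) / 1000))) := by gcongr
        _ = 2 / 5 * (n ^ ((2052 : ℝ) / 10000 * ((2 : ℕ) : ℝ)) *
            n ^ ((2 : ℝ) / 10 ^ 7 * ((4 : ℕ) : ℝ)) * n ^ ((192 : ℝ) / 1000)) := by
            rw [div_pow, PP, PP]
            ring
        _ ≤ 2 / 5 * n ^ ((6026 : ℝ) / 10000) := by
            apply mul_le_mul_of_nonneg_left _ (by norm_num)
            rw [P, P]
            exact Pmono _ _ (by norm_num)
        _ ≤ n ^ ((6026 : ℝ) / 10000) / 2 := by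
            have := Ppos ((6026 : ℝ) / 10000)
            linarith
    have e2 : n ^ ((2052 : ℝ) / 10000) / 200 ≤ √(kk n h / (4000 * V ^ 4 * h)) :=
      Real.le_sqrt_of_sq_le e1
    have hJ0 : (0 : ℝ) < 16 * J := by positivity
    have e3 : 2 * n ^ ((1 : ℝ) / 5) ≤ √(kk n h / (4000 * V ^ 4 * h)) / (16 * J) := by
      rw [le_div_iff₀ hJ0]
      refine le_trans ?_ e2
      calc 2 * n ^ ((1 : ℝ) / 5) * (16 * J)
          ≤ 2 * n ^ ((1 : ℝ) / 5) * (16 * (2 * n ^ ((1 : ℝ) / 10 ^ 5))) := by gcongr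
        _ = 64 * (n ^ ((1 : ℝ) / 5) * n ^ ((1 : ℝ) / 10 ^ 5)) := by ring
        _ ≤ 64 * n ^ ((201 : ℝ) / 1000) := by
            apply mul_le_mul_of_nonneg_left _ (by norm_num)
            rw [P]
            exact Pmono _ _ (by norm_num)
        _ ≤ n ^ ((1 : ℝ) / 1000) / 200 * n ^ ((201 : ℝ) / 1000) := by
            apply mul_le_mul_of_nonneg_right _ (Ppos _).le
            linarith
        _ = n ^ ((202 : ℝ) / 1000) / 200 := by
            rw [div_mul_eq_mul_div, P]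
            norm_num
        _ ≤ n ^ ((2052 : ℝ) / 10000) / 200 := by
            have := Pmono ((202 : ℝ) / 1000) ((2052 : ℝ) / 10000) (by norm_num)
            linarith
    have e4 : 8 * (J : ℝ) ≤ n ^ ((1 : ℝ) / 5) := by
      calc 8 * (J : ℝ) ≤ 8 * (2 * n ^ ((1 : ℝ) / 10 ^ 5)) := by gcongr
        _ = 16 * n ^ ((1 : ℝ) / 10 ^ 5) := by ring
        _ ≤ n ^ ((1 : ℝ) / 1000) * n ^ ((1 : ℝ) / 10 ^ 5) := by
            apply mul_le_mul_of_nonneg_right _ (Ppos _).le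
            linarith
        _ ≤ n ^ ((1 : ℝ) / 5) := by
            rw [P]
            exact Pmono _ _ (by norm_num)
    linarith
  · -- (3)
    have e1 : (S : ℝ) + 1 ≤ 2 * n ^ ((2 : ℝ) / 10 ^ 7) := by linarith
    calc 128 * (J : ℝ) ^ 2 * (12 * X) * c * (S + 1)
        ≤ 128 * (2 * n ^ ((1 : ℝ) / 10 ^ 5)) ^ 2 * (12 * n ^ ((192 : ℝ) / 1000)) * c *
          (2 * n ^ ((2 : ℝ) / 10 ^ 7)) := by gcongr
      _ = 12288 * c * (n ^ ((1 : ℝ) / 10 ^ 5 * ((2 : ℕ) : ℝ)) * n ^ ((192 : ℝ) / 1000) *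
          n ^ ((2 : ℝ) / 10 ^ 7)) := by
          rw [mul_pow 2, PP]
          ring
      _ ≤ 12288 * c * n ^ ((193 : ℝ) / 1000) := by
          apply mul_le_mul_of_nonneg_left _ (by positivity)
          rw [P, P]
          exact Pmono _ _ (by norm_num)
      _ ≤ n ^ ((1 : ℝ) / 1000) * n ^ ((193 : ℝ) / 1000) := by
          apply mul_le_mul_of_nonneg_right _ (Ppos _).le
          linarith
      _ ≤ n ^ ((1 : ℝ) / 5) := by
          rw [P]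
          exact Pmono _ _ (by norm_num)
  · -- (4)
    intro D hD0 hD1
    constructor
    · have e1 : D / h ≤ 4 * c * n ^ (-(135 : ℝ) / 1000) := by
        rw [div_le_iff₀ hh0]
        calc D ≤ c * n ^ ((55 : ℝ) / 1000) := hD1
          _ = 4 * c * n ^ (-(135 : ℝ) / 1000) * (n ^ ((19 : ℝ) / 100) / 4) := by
              have : n ^ ((55 : ℝ) / 1000) = n ^ (-(135 : ℝ) / 1000) * n ^ ((19 : ℝ) / 100) := by
                rw [P]
                norm_num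
              rw [this]
              ring
          _ ≤ 4 * c * n ^ (-(135 : ℝ) / 1000) * h := by gcongr
      have e2 : 0 ≤ D / h := by positivity
      calc 2 * (kk n h * (D / h) ^ 3)
          ≤ 2 * ((2 * n ^ ((6034 : ℝ) / 10000)) * (4 * c * n ^ (-(135 : ℝ) / 1000)) ^ 3) := by
            gcongr
        _ = 256 * c ^ 3 * (n ^ ((6034 : ℝ) / 10000) * n ^ (-(135 : ℝ) / 1000 * ((3 : ℕ) : ℝ))) := by
            rw [mul_pow (4 * c), PP]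
            ring
        _ ≤ 256 * c ^ 3 * n ^ ((1985 : ℝ) / 10000) := by
            apply mul_le_mul_of_nonneg_left _ (by positivity)
            rw [P]
            exact Pmono _ _ (by norm_num)
        _ ≤ n ^ ((1 : ℝ) / 1000) * n ^ ((1985 : ℝ) / 10000) := by
            apply mul_le_mul_of_nonneg_right _ (Ppos _).le
            linarith
        _ ≤ n ^ ((1 : ℝ) / 5) := by
            rw [P]
            exact Pmono _ _ (by norm_num)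
    · have e1 : 100 * c * n ^ ((55 : ℝ) / 1000) ≤ n ^ ((19 : ℝ) / 100) := by
        calc 100 * c * n ^ ((55 : ℝ) / 1000) ≤ n ^ ((1 : ℝ) / 1000) * n ^ ((55 : ℝ) / 1000) := by
              apply mul_le_mul_of_nonneg_right _ (Ppos _).le
              linarith
          _ ≤ _ := by
              rw [P]
              exact Pmono _ _ (by norm_num)
      linarith

end Pool.Agent.RPS
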