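import Mathlib
import Pool.Agent.RPS.Wfacts
import Pool.Agent.RPS.GoodBlk
import Pool.Agent.RPS.Pair
import Pool.Agent.RPS.ApAlg
import Pool.Agent.RPS.Few
import Pool.Agent.RPS.Side

set_option autoImplicit false

/-!
# The step of the chain: `f m = f (m + 12 W₁ t)` for `t` prime to 3
-/

namespace Pool.Agent.RPS

open Pool.Agent.SqrtParity Pool.Agent.SSQ Finset Filter

namespace StepAux

theorem blk_mono {f : ℕ → ℤ} {n : ℝ} {z M J : ℕ} {I I' : ℝ} {h' j : ℕ} {κ : ZMod M → ℤ}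
    (B : BlkR f n z M J I h' j κ) (hI : I' ≤ I) : BlkR f n z M J I' h' j κ :=
  ⟨B.1, B.2.1, B.2.2.1, B.2.2.2.1, fun y hy hyI => B.2.2.2.2 y hy (hyI.trans hI)⟩

theorem rough_unit {T z x : ℕ} (hT : 5 ≤ T) (hTz : T ≤ z) (hx : Rough z x) :
    IsUnit ((x : ℕ) : ZMod (3 * W1 T)) := by
  rw [ZMod.isUnit_iff_coprime]
  apply Nat.coprime_of_dvd
  intro q hq hqx hqw
  have h1 : q ∣ 12 * W1 T := by
    have : 12 * W1 T = 4 * (3 * W1 T) := by ring
    rw [this]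
    exact Dvd.dvd.mul_left hqw 4
  have h2 : q ≤ T := (W1_facts hT).2.2.2.2.2.2 q hq h1
  exact hx q hq (h2.trans hTz) hqx

/-- everything that stays fixed -/
structure Env (C T S0 : ℕ) (f : ℕ → ℤ) (n V : ℝ) (z S J : ℕ) (e : ℤ) (X c : ℝ) : Prop where
  hS : SieveC C T S0
  H : HypR f n V z e
  hn : 0 < n
  hS0 : S0 ≤ S
  hSz : z ^ C ≤ S
  hTz : T ≤ z
  hzJ : z ≤ J
  hV : V = 16 * primorial T * S
  hX : 0 < X
  hc : 3 * (W1 T : ℝ) ≤ c
  side : ∀ h : ℝ, X / 4 ≤ h → h ≤ 4 * X →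
      10 ^ 11 * V ^ 6 * (J : ℝ) ^ 4 * h ≤ kk n h ∧ n ^ ((1 : ℝ) / 5) ≤ IR n V J h ∧
      128 * (J : ℝ) ^ 2 * (12 * X) * c * (S + 1) ≤ n ^ ((1 : ℝ) / 5) ∧
      ∀ D : ℝ, 0 ≤ D → D ≤ c * n ^ ((55 : ℝ) / 1000) →
        2 * (kk n h * (D / h) ^ 3) ≤ n ^ ((1 : ℝ) / 5) ∧ D ≤ X / 100

variable {C T S0 : ℕ} {f : ℕ → ℤ} {n V : ℝ} {z S J : ℕ} {e : ℤ} {X c : ℝ}

theorem blk_env (E : Env C T S0 f n V z S J e X c) {h : ℕ} (hX1 : X / 4 ≤ h) (hX2 : (h : ℝ) ≤ 4 * X)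
    (hcop : RoughT T z h) (hg : GoodR n V (primorial T) J h) :
    ∃ (j : ℕ) (κ : ZMod (3 * W1 T) → ℤ), BlkR f n z (3 * W1 T) J (n ^ ((1 : ℝ) / 5)) h j κ := by
  obtain ⟨s1, s2, -, -⟩ := E.side h hX1 hX2
  have hh : 1 ≤ h := by
    have h0 : (0 : ℝ) < h := lt_of_lt_of_le (by have := E.hX; positivity) hX1
    exact_mod_cast h0
  obtain ⟨j, κ, B⟩ := good_blkR E.hS E.H E.hn E.hS0 E.hSz E.hTz E.hzJ E.hV hh hcop hg s1
  exact ⟨j, κ, blk_mono B s2⟩

theorem pair_env (E : Env C T S0 f n V z S J e X c) {h h' j j' : ℕ} {κ κ' : ZMod (3 * W1 T) → ℤ}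
    (B : BlkR f n z (3 * W1 T) J (n ^ ((1 : ℝ) / 5)) h j κ)
    (B' : BlkR f n z (3 * W1 T) J (n ^ ((1 : ℝ) / 5)) h' j' κ') (hX1 : X / 4 ≤ h)
    (hX2 : (h' : ℝ) ≤ 4 * X) (hlt : h < h') (hD : (h' : ℝ) - h ≤ c * n ^ ((55 : ℝ) / 1000))
    (hl : Rough z (h + 2 * h')) (hl' : Rough z (2 * h + h')) (τ : (ZMod (3 * W1 T))ˣ) :
    f (h + 2 * h') * f (2 * h + h') = κ (((h + 2 * h' : ℕ) : ZMod (3 * W1 T)) * τ) *
      κ' (((2 * h + h' : ℕ) : ZMod (3 * W1 T)) * τ) := by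
  have hlt' : (h : ℝ) < h' := by exact_mod_cast hlt
  have hX4 : (h : ℝ) ≤ 4 * X := by linarith
  obtain ⟨-, -, s3, s4⟩ := E.side h hX1 hX4
  have hh : 1 ≤ h := by
    have h0 : (0 : ℝ) < h := lt_of_lt_of_le (by have := E.hX; positivity) hX1
    exact_mod_cast h0
  have hX := E.hX
  refine pairR E.hS E.H.cm E.hn E.hS0 E.hSz E.hTz E.hzJ B B' hh hlt hl hl' ?_
    (s4 _ (by linarith) hD).1 τ
  refine le_trans ?_ s3
  have h1 : (h : ℝ) + 2 * h' ≤ 12 * X := by linarith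
  have h2 := E.hc
  gcongr

/-- three multipliers in arithmetic progression -/
theorem ap_env (E : Env C T S0 f n V z S J e X c) {b a : ℕ} {ε : (ZMod (3 * W1 T))ˣ}
    (hε : Eps (W1 T) ε) (hX1 : X / 4 ≤ b) (hX2 : ((b + 2 * a : ℕ) : ℝ) ≤ 4 * X) (ha : 1 ≤ a)
    (hw : W1 T ∣ a) (hD : 2 * (a : ℝ) ≤ c * n ^ ((55 : ℝ) / 1000))
    (g0 : RoughT T z b) (g2 : RoughT T z (b + 2 * a))
    (G0 : GoodR n V (primorial T) J (b : ℕ)) (G2 : GoodR n V (primorial T) J ((b + 2 * a : ℕ) : ℝ))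
    (r1 : Rough z (3 * b + a)) (r2 : Rough z (3 * b + 2 * a)) (r4 : Rough z (3 * b + 4 * a))
    (r5 : Rough z (3 * b + 5 * a)) {j : ℕ} {κ : ZMod (3 * W1 T) → ℤ}
    (B₂ : BlkR f n z (3 * W1 T) J (n ^ ((1 : ℝ) / 5)) (b + a) j κ)
    (r : (ZMod (3 * W1 T))ˣ) :
    f (3 * b + a) * f (3 * b + 5 * a)
      = κ r * κ ((ε * r : (ZMod (3 * W1 T))ˣ) : ZMod (3 * W1 T)) := by
  have hT := E.hS.2.1
  have hX := E.hX
  have ha0 : (0 : ℝ) ≤ a := Nat.cast_nonneg a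
  have hcast1 : ((b + a : ℕ) : ℝ) = (b : ℝ) + a := by push_cast; ring
  have hcast2 : ((b + 2 * a : ℕ) : ℝ) = (b : ℝ) + 2 * a := by push_cast; ring
  rw [hcast2] at hX2
  obtain ⟨j₁, κ₁, B₁⟩ := blk_env E hX1 (by linarith) g0 G0
  obtain ⟨j₃, κ₃, B₃⟩ := blk_env E (h := b + 2 * a) (by rw [hcast2]; linarith)
    (by rw [hcast2]; linarith) g2 G2
  have hb1 : 1 ≤ b := by
    have h0 : (0 : ℝ) < b := lt_of_lt_of_le (by positivity) hX1
    exact_mod_cast h0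
  have hD1 : (a : ℝ) ≤ c * n ^ ((55 : ℝ) / 1000) := by linarith
  have PA := fun τ => pair_env E B₁ B₂ hX1 (by rw [hcast1]; linarith) (by omega)
    (by rw [hcast1]; linarith) (by convert r2 using 1; ring) (by convert r1 using 1; ring) τ
  have PB := fun τ => pair_env E B₂ B₃ (by rw [hcast1]; linarith) (by rw [hcast2]; linarith)
    (by omega) (by rw [hcast1, hcast2]; linarith) (by convert r5 using 1; ring)
    (by convert r4 using 1; ring) τ
  have PC := fun τ => pair_env E B₁ B₃ hX1 (by rw [hcast2]; linarith) (by omega)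
    (by rw [hcast2]; linarith) (by convert r4 using 1; ring) (by convert r2 using 1; ring) τ
  have e1 : b + 2 * (b + a) = 3 * (b + a) - a := by omega
  have e2 : 2 * b + (b + a) = 3 * (b + a) - 2 * a := by omega
  have e3 : b + a + 2 * (b + 2 * a) = 3 * (b + a) + 2 * a := by omega
  have e4 : 2 * (b + a) + (b + 2 * a) = 3 * (b + a) + a := by omega
  have e5 : b + 2 * (b + 2 * a) = 3 * (b + a) + a := by omega
  have e6 : 2 * b + (b + 2 * a) = 3 * (b + a) - a := by omega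
  simp only [e1, e2] at PA
  simp only [e3, e4] at PB
  simp only [e5, e6] at PC
  have hu : IsUnit ((3 * (b + a) + a : ℕ) : ZMod (3 * W1 T)) := by
    apply rough_unit hT E.hTz
    convert r4 using 1
    ring
  have h := ap_alg E.H.cm hε hw ha (by omega : a < b + a) B₁.2.2.2.1 B₂.2.2.2.1 B₃.2.2.2.1 hu
    PA PB PC r
  have e7 : 3 * (b + a) - 2 * a = 3 * b + a := by omega
  have e8 : 3 * (b + a) + 2 * a = 3 * b + 5 * a := by omega
  rw [e7, e8] at h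
  exact h


theorem combine (E : Env C T S0 f n V z S J e X c) {ε : (ZMod (3 * W1 T))ˣ}
    (hε : Eps (W1 T) ε) {b a b' a' t : ℕ} (hb' : b' = b + 5 * (W1 T * t))
    (haa : a = a' + 3 * (W1 T * t)) (ht : 1 ≤ t) (ha' : 1 ≤ a') (hw : W1 T ∣ a')
    (hX1 : X / 4 ≤ b) (hX2 : ((b + 2 * a : ℕ) : ℝ) ≤ 4 * X)
    (hD : 2 * (a : ℝ) ≤ c * n ^ ((55 : ℝ) / 1000))
    (g0 : RoughT T z b) (g1 : RoughT T z (b + a)) (g2 : RoughT T z (b + 2 * a))
    (g0' : RoughT T z b') (g1' : RoughT T z (b' + a')) (g2' : RoughT T z (b' + 2 * a'))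
    (G0 : GoodR n V (primorial T) J (b : ℕ)) (G1 : GoodR n V (primorial T) J ((b + a : ℕ) : ℝ))
    (G2 : GoodR n V (primorial T) J ((b + 2 * a : ℕ) : ℝ))
    (G0' : GoodR n V (primorial T) J (b' : ℕ))
    (G1' : GoodR n V (primorial T) J ((b' + a' : ℕ) : ℝ))
    (G2' : GoodR n V (primorial T) J ((b' + 2 * a' : ℕ) : ℝ))
    (r1 : Rough z (3 * b + a)) (r2 : Rough z (3 * b + 2 * a)) (r4 : Rough z (3 * b + 4 * a))
    (r5 : Rough z (3 * b + 5 * a)) (r1' : Rough z (3 * b' + a')) (r2' : Rough z (3 * b' + 2 * a'))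
    (r4' : Rough z (3 * b' + 4 * a'))
    (rl : Rough z ((b + a) + 2 * (b' + a'))) (rl' : Rough z (2 * (b + a) + (b' + a'))) :
    f (3 * b + a) = f (3 * b' + a') := by
  have hT := E.hS.2.1
  have hX := E.hX
  have hf := E.H.cm
  have hW : 1 ≤ W1 T := (W1_facts hT).1
  have hWt : 1 ≤ W1 T * t := Nat.mul_pos hW ht
  have ha : 1 ≤ a := by omega
  have hwa : W1 T ∣ a := by
    rw [haa]
    exact dvd_add hw (by rw [show 3 * (W1 T * t) = W1 T * (3 * t) by ring]; exact dvd_mul_right _ _)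
  -- real versions
  have cb' : (b' : ℝ) = b + 5 * ((W1 T * t : ℕ) : ℝ) := by rw [hb']; push_cast; ring
  have ca : (a : ℝ) = a' + 3 * ((W1 T * t : ℕ) : ℝ) := by rw [haa]; push_cast; ring
  have cw : (0 : ℝ) ≤ ((W1 T * t : ℕ) : ℝ) := Nat.cast_nonneg _
  have ca'0 : (0 : ℝ) ≤ a' := Nat.cast_nonneg _
  have hX2r : (b : ℝ) + 2 * a ≤ 4 * X := by
    have : ((b + 2 * a : ℕ) : ℝ) = (b : ℝ) + 2 * a := by push_cast; ring
    rw [this] at hX2; exact hX2
  have hX1' : X / 4 ≤ (b' : ℝ) := by rw [cb']; linarith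
  have hX2' : ((b' + 2 * a' : ℕ) : ℝ) ≤ 4 * X := by
    push_cast
    rw [cb']
    linarith
  have hD' : 2 * (a' : ℝ) ≤ c * n ^ ((55 : ℝ) / 1000) := by linarith
  -- blocks of the two middle multipliers
  obtain ⟨j, κ, B⟩ := blk_env E (h := b + a) (by push_cast; linarith) (by push_cast; linarith) g1 G1
  obtain ⟨j', κ', B'⟩ := blk_env E (h := b' + a') (by push_cast; linarith)
    (by push_cast; rw [cb']; linarith) g1' G1'
  have r5' : Rough z (3 * b' + 5 * a') := by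
    have : 3 * b' + 5 * a' = 3 * b + 5 * a := by omega
    rw [this]; exact r5
  have E1 := fun r => ap_env E hε hX1 hX2 ha hwa hD g0 g2 G0 G2 r1 r2 r4 r5 B r
  have E2 := fun r => ap_env E hε hX1' hX2' ha' hw hD' g0' g2' G0' G2' r1' r2' r4' r5' B' r
  have hlt : b + a < b' + a' := by omega
  have E3 := fun τ => pair_env E B B' (by push_cast; linarith) (by push_cast; rw [cb']; linarith)
    hlt (by push_cast; rw [cb']; linarith) rl rl' τ
  -- the units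
  obtain ⟨u, hu⟩ := rough_unit hT E.hTz rl
  obtain ⟨u', hu'⟩ := rough_unit hT E.hTz rl'
  have F1 := E3 1
  have F2 := E3 ε
  rw [← hu, ← hu'] at F1 F2
  have G3 := E1 u
  have G4 := E2 u'
  rw [Units.val_mul] at G3 G4
  rw [Units.val_one, mul_one, mul_one] at F1
  rw [mul_comm (u : ZMod (3 * W1 T)), mul_comm (u' : ZMod (3 * W1 T))] at F2
  have s1 := hf.sq (n := b + a + 2 * (b' + a')) (by omega)
  have s2 := hf.sq (n := 2 * (b + a) + (b' + a')) (by omega)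
  have s3 := hf.sq (n := 3 * b + 5 * a) (by omega)
  have s4 := hf.sq (n := 3 * b' + a') (by omega)
  have hm : 3 * b' + 5 * a' = 3 * b + 5 * a := by omega
  rw [hm] at G4
  have key : f (3 * b + a) * f (3 * b' + a') = 1 := by
    have h1 : (f (3 * b + a) * f (3 * b + 5 * a)) * (f (3 * b' + a') * f (3 * b + 5 * a)) = 1 := by
      rw [G3, G4]
      calc _ = (κ u * κ' u') * (κ ((ε : ZMod (3 * W1 T)) * u) * κ' ((ε : ZMod (3 * W1 T)) * u')) := by
            ring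
        _ = (f (b + a + 2 * (b' + a')) * f (b + a + 2 * (b' + a'))) *
            (f (2 * (b + a) + (b' + a')) * f (2 * (b + a) + (b' + a'))) := by
            rw [← F1, ← F2]; ring
        _ = 1 := by rw [s1, s2]; norm_num
    calc f (3 * b + a) * f (3 * b' + a')
        = f (3 * b + a) * f (3 * b' + a') * (f (3 * b + 5 * a) * f (3 * b + 5 * a)) := by
          rw [s3, mul_one]
      _ = (f (3 * b + a) * f (3 * b + 5 * a)) * (f (3 * b' + a') * f (3 * b + 5 * a)) := by ring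
      _ = 1 := h1
  calc f (3 * b + a) = f (3 * b + a) * (f (3 * b' + a') * f (3 * b' + a')) := by rw [s4, mul_one]
    _ = (f (3 * b + a) * f (3 * b' + a')) * f (3 * b' + a') := by ring
    _ = f (3 * b' + a') := by rw [key, one_mul]


theorem rough_of_small {T z x : ℕ} (h1 : ∀ q : ℕ, q.Prime → q ≤ T → ¬ q ∣ x)
    (h2 : ∀ q : ℕ, q.Prime → T < q → q ≤ z → ¬ (q : ℤ) ∣ (x : ℤ)) : Rough z x := by
  intro q hq hqz hqx
  rcases Nat.lt_or_ge T q with h | h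
  · exact h2 q hq h hqz (by exact_mod_cast hqx)
  · exact h1 q hq h hqx

theorem roughT_of {T z x : ℕ}
    (h2 : ∀ q : ℕ, q.Prime → T < q → q ≤ z → ¬ (q : ℤ) ∣ (x : ℤ)) : RoughT T z x :=
  fun q hq hT hqz hqx => h2 q hq hT hqz (by exact_mod_cast hqx)

theorem small_ok {T z m x y : ℕ} (hT : 5 ≤ T) (hTz : T ≤ z) (hm : Rough z m)
    (hx : x = m + W1 T * y) (h3 : ¬ 3 ∣ x) : ∀ q : ℕ, q.Prime → q ≤ T → ¬ q ∣ x := by
  intro q hq hqT hqx
  obtain ⟨-, -, -, hf4, hf5, -, -⟩ := W1_facts hT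
  by_cases hq3 : q = 3
  · rw [hq3] at hqx; exact h3 hqx
  have hqw : q ∣ W1 T := by
    rcases Nat.lt_or_ge q 5 with h | h
    · have h2 := hq.two_le
      have : q = 2 ∨ q = 4 := by omega
      rcases this with h | h
      · rw [h]; exact dvd_trans (by norm_num) hf4
      · rw [h] at hq; exact absurd hq (by norm_num)
    · exact hf5 q hq h hqT
  have hqm : q ∣ m := by
    have h1 : q ∣ W1 T * y := Dvd.dvd.mul_right hqw y
    rw [hx] at hqx
    exact (Nat.dvd_add_left h1).1 hqx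
  exact hm q hq (hqT.trans hTz) hqm

theorem rev_card {P : ℕ → Prop} [DecidablePred P] {h₀ s N : ℕ} {β : ℝ}
    (hb : ∀ Bd : Finset ℕ, (∀ i ∈ Bd, i < N) → (∀ i ∈ Bd, ¬ P (h₀ + s * i)) → (Bd.card : ℝ) ≤ β) :
    (((range N).filter (fun i => ¬ P (h₀ + s * (N - 1 - i)))).card : ℝ) ≤ β := by
  have hinj : Set.InjOn (fun i => N - 1 - i)
      ((range N).filter (fun i => ¬ P (h₀ + s * (N - 1 - i))) : Finset ℕ) := by
    intro i hi j hj hij
    simp only [coe_filter, mem_range, Set.mem_setOf_eq] at hi hj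
    simp only at hij
    omega
  rw [← card_image_of_injOn hinj]
  apply hb
  · intro i hi
    obtain ⟨j, hj, rfl⟩ := mem_image.1 hi
    have := mem_range.1 (mem_filter.1 hj).1
    omega
  · intro i hi
    obtain ⟨j, hj, rfl⟩ := mem_image.1 hi
    exact (mem_filter.1 hj).2

theorem fwd_card {P : ℕ → Prop} [DecidablePred P] {h₀ s N : ℕ} {β : ℝ}
    (hb : ∀ Bd : Finset ℕ, (∀ i ∈ Bd, i < N) → (∀ i ∈ Bd, ¬ P (h₀ + s * i)) → (Bd.card : ℝ) ≤ β)
    {g : ℕ → ℕ} (hg : ∀ i, i < N → g i = h₀ + s * i) :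
    (((range N).filter (fun i => ¬ P (g i))).card : ℝ) ≤ β := by
  apply hb
  · intro i hi
    exact mem_range.1 (mem_filter.1 hi).1
  · intro i hi
    have h := mem_filter.1 hi
    rw [← hg i (mem_range.1 h.1)]
    exact h.2

/-- the choice of the multipliers -/
theorem choose_i {C T S0 : ℕ} (hS : SieveC C T S0) {z N m t r0 Bs : ℕ} (hTz : T ≤ z)
    (hm : Rough z m) (hBs : 3 * Bs + W1 T * r0 + 6 * (W1 T * N) = m + 3 * W1 T)
    (hN : 1 ≤ N) (hr0 : 1 ≤ r0) (hr0' : r0 ≤ 2) (hr3 : W1 T * r0 % 3 = m % 3) (ht : ¬ 3 ∣ t)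
    (htN : t ≤ N) (hS0N : S0 ≤ N) (hzN : z ^ C ≤ N) (P : ℕ → Prop) {β : ℝ}
    (hβ : 6 * β < (N : ℝ) / Real.log N ^ C)
    (hbad : ∀ h₀ s : ℕ, (s = W1 T ∨ s = 2 * W1 T ∨ s = 5 * W1 T) → Bs ≤ h₀ →
      h₀ ≤ Bs + 20 * (W1 T * N) →
      ∀ Bd : Finset ℕ, (∀ i ∈ Bd, i < N) → (∀ i ∈ Bd, ¬ P (h₀ + s * i)) → (Bd.card : ℝ) ≤ β) :
    ∃ b a' : ℕ, 3 * b + (a' + 3 * (W1 T * t)) = m ∧ 1 ≤ a' ∧ W1 T ∣ a' ∧ Bs ≤ b ∧
      a' + 3 * (W1 T * t) ≤ 8 * (W1 T * N) ∧ b ≤ Bs + W1 T * N ∧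
      (RoughT T z b ∧ RoughT T z (b + (a' + 3 * (W1 T * t))) ∧
        RoughT T z (b + 2 * (a' + 3 * (W1 T * t))) ∧ RoughT T z (b + 5 * (W1 T * t)) ∧
        RoughT T z (b + 5 * (W1 T * t) + a') ∧ RoughT T z (b + 5 * (W1 T * t) + 2 * a')) ∧
      (P b ∧ P (b + (a' + 3 * (W1 T * t))) ∧ P (b + 2 * (a' + 3 * (W1 T * t))) ∧
        P (b + 5 * (W1 T * t)) ∧ P (b + 5 * (W1 T * t) + a') ∧ P (b + 5 * (W1 T * t) + 2 * a')) ∧
      Rough z (3 * b + 2 * (a' + 3 * (W1 T * t))) ∧ Rough z (3 * b + 4 * (a' + 3 * (W1 T * t))) ∧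
      Rough z (3 * b + 5 * (a' + 3 * (W1 T * t))) ∧
      Rough z (3 * (b + 5 * (W1 T * t)) + 2 * a') ∧ Rough z (3 * (b + 5 * (W1 T * t)) + 4 * a') ∧
      Rough z ((b + (a' + 3 * (W1 T * t))) + 2 * ((b + 5 * (W1 T * t)) + a')) ∧
      Rough z (2 * (b + (a' + 3 * (W1 T * t))) + ((b + 5 * (W1 T * t)) + a')) := by
  classical
  obtain ⟨hC, hT, -, hsieve⟩ := hS
  obtain ⟨hw1, -, hw3, hf4, hf5, -, hf12⟩ := W1_facts hT
  set w : ℕ := W1 T with hw
  -- constants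
  set v : ℕ := w * t with hv
  set A0 : ℕ := w * r0 + 3 * (w * N) with hA0
  set b0 : ℕ := Bs + w * (N - 1) with hb0
  have hwN : w * (N - 1) + w = w * N := by
    obtain ⟨k, rfl⟩ := Nat.exists_eq_add_of_le hN
    rw [show 1 + k - 1 = k by omega]; ring
  have hvN : v ≤ w * N := Nat.mul_le_mul_left w htN
  have hwr : w * r0 ≤ 2 * w := by
    calc w * r0 ≤ w * 2 := Nat.mul_le_mul_left w hr0'
      _ = 2 * w := by ring
  have hwr1 : 1 ≤ w * r0 := Nat.mul_pos hw1 hr0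
  have hw_le : w ≤ w * N := Nat.le_mul_of_pos_right w hN
  set L : List (ℤ × ℤ) := [(3 * (w:ℤ), (m:ℤ) + A0), (9 * (w:ℤ), (m:ℤ) + 3 * A0),
    (12 * (w:ℤ), (m:ℤ) + 4 * A0), (3 * (w:ℤ), (m:ℤ) + 9 * v + A0),
    (9 * (w:ℤ), (m:ℤ) + 3 * v + 3 * A0), (6 * (w:ℤ), (m:ℤ) + 2 * A0 + 4 * v),
    (6 * (w:ℤ), (m:ℤ) + 2 * A0 + 2 * v), (-(w:ℤ), (b0:ℤ)), (2 * (w:ℤ), (b0:ℤ) + A0),
    (5 * (w:ℤ), (b0:ℤ) + 2 * A0), (-(w:ℤ), (b0:ℤ) + 5 * v), (2 * (w:ℤ), (b0:ℤ) + A0 + 2 * v),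
    (5 * (w:ℤ), (b0:ℤ) + 2 * A0 - v)] with hL
  have hcard : L.toFinset.card ≤ 13 := (List.toFinset_card_le L).trans (by simp [hL])
  have hdvd : ∀ f ∈ L, f.1 ∣ 180 * (w:ℤ) := by
    intro f hf
    simp only [hL, List.mem_cons, List.not_mem_nil, or_false] at hf
    rcases hf with rfl | rfl | rfl | rfl | rfl | rfl | rfl | rfl | rfl | rfl | rfl | rfl | rfl
    · exact ⟨60, by ring⟩
    · exact ⟨20, by ring⟩
    · exact ⟨15, by ring⟩
    · exact ⟨60, by ring⟩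
    · exact ⟨20, by ring⟩
    · exact ⟨30, by ring⟩
    · exact ⟨30, by ring⟩
    · exact ⟨-180, by ring⟩
    · exact ⟨90, by ring⟩
    · exact ⟨36, by ring⟩
    · exact ⟨-180, by ring⟩
    · exact ⟨90, by ring⟩
    · exact ⟨36, by ring⟩
  have hF2 : ∀ f ∈ L.toFinset, ∀ q : ℕ, q.Prime → T < q → q ≤ z → ¬ (q : ℤ) ∣ f.1 := by
    intro f hf q hq hTq _ hqf
    have h1 := hqf.trans (hdvd f (List.mem_toFinset.1 hf))
    have h2 : q ∣ 180 * w := by exact_mod_cast h1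
    have h3 : 180 * w = 3 * (5 * (12 * w)) := by ring
    rw [h3] at h2
    rcases (Nat.Prime.dvd_mul hq).1 h2 with h4 | h4
    · have := Nat.le_of_dvd (by norm_num) h4
      omega
    rcases (Nat.Prime.dvd_mul hq).1 h4 with h5 | h5
    · have := Nat.le_of_dvd (by norm_num) h5
      omega
    · have := hf12 q hq h5
      omega
  obtain ⟨A, hA1, hA2, hA3⟩ := hsieve L.toFinset z N hcard hF2 hS0N hzN
  -- the functions of `i`
  set fa : ℕ → ℕ := fun i => w * r0 + 3 * (w * (N + i)) with hfa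
  set fb : ℕ → ℕ := fun i => Bs + w * (N - 1 - i) with hfb
  have hfb' : ∀ i, i < N → fb i + w * i = b0 := by
    intro i hi
    obtain ⟨k, rfl⟩ := Nat.exists_eq_add_of_lt hi
    simp only [hfb, hb0]
    rw [show i + k + 1 - 1 - i = k by omega, show i + k + 1 - 1 = i + k by omega]
    ring
  have hfa' : ∀ i, fa i = A0 + 3 * (w * i) := by
    intro i
    simp only [hfa, hA0]
    ring
  have hfav : ∀ i, 3 * v ≤ fa i := by
    intro i
    rw [hfa' i, hA0]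
    omega
  -- bad sets
  set B1 := (range N).filter (fun i => ¬ P (fb i)) with hB1
  set B2 := (range N).filter (fun i => ¬ P (fb i + fa i)) with hB2
  set B3 := (range N).filter (fun i => ¬ P (fb i + 2 * fa i)) with hB3
  set B4 := (range N).filter (fun i => ¬ P (fb i + 5 * v)) with hB4
  set B5 := (range N).filter (fun i => ¬ P (fb i + 5 * v + (fa i - 3 * v))) with hB5
  set B6 := (range N).filter (fun i => ¬ P (fb i + 5 * v + 2 * (fa i - 3 * v))) with hB6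
  have c1 : (B1.card : ℝ) ≤ β := by
    rw [hB1]
    exact rev_card (hbad Bs w (Or.inl rfl) le_rfl (by omega))
  have c2 : (B2.card : ℝ) ≤ β := by
    rw [hB2]
    refine fwd_card (hbad (b0 + A0) (2 * w) (Or.inr (Or.inl rfl)) (by omega) (by omega)) ?_
    intro i hi
    have h1 := hfb' i hi
    rw [hfa' i]
    rw [show 2 * w * i = 2 * (w * i) by ring]
    omega
  have c3 : (B3.card : ℝ) ≤ β := by
    rw [hB3]
    refine fwd_card (hbad (b0 + 2 * A0) (5 * w) (Or.inr (Or.inr rfl)) (by omega) (by omega)) ?_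
    intro i hi
    have h1 := hfb' i hi
    rw [hfa' i]
    rw [show 5 * w * i = 5 * (w * i) by ring]
    omega
  have c4 : (B4.card : ℝ) ≤ β := by
    rw [hB4]
    have h := rev_card (P := P) (hbad (Bs + 5 * v) w (Or.inl rfl) (by omega) (by omega))
    have e : (fun i => ¬ P (fb i + 5 * v)) = fun i => ¬ P (Bs + 5 * v + w * (N - 1 - i)) := by
      funext i
      have : fb i + 5 * v = Bs + 5 * v + w * (N - 1 - i) := by simp only [hfb]; ring
      rw [this]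
    simp only [e]
    exact h
  have c5 : (B5.card : ℝ) ≤ β := by
    rw [hB5]
    refine fwd_card (hbad (b0 + A0 + 2 * v) (2 * w) (Or.inr (Or.inl rfl)) (by omega) (by omega)) ?_
    intro i hi
    have h1 := hfb' i hi
    have h2 := hfav i
    rw [hfa' i] at h2 ⊢
    rw [show 2 * w * i = 2 * (w * i) by ring]
    omega
  have c6 : (B6.card : ℝ) ≤ β := by
    rw [hB6]
    refine fwd_card (hbad (b0 + 2 * A0 - v) (5 * w) (Or.inr (Or.inr rfl)) (by omega) (by omega)) ?_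
    intro i hi
    have h1 := hfb' i hi
    have h2 := hfav i
    rw [hfa' i] at h2 ⊢
    rw [show 5 * w * i = 5 * (w * i) by ring]
    omega
  have hex : ∃ i ∈ A, i ∉ B1 ∧ i ∉ B2 ∧ i ∉ B3 ∧ i ∉ B4 ∧ i ∉ B5 ∧ i ∉ B6 := by
    by_contra hcon
    push Not at hcon
    have hsub : A ⊆ B1 ∪ (B2 ∪ (B3 ∪ (B4 ∪ (B5 ∪ B6)))) := by
      intro i hi
      simp only [mem_union]
      by_cases g1 : i ∈ B1
      · exact Or.inl g1
      by_cases g2 : i ∈ B2
      · exact Or.inr (Or.inl g2)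
      by_cases g3 : i ∈ B3
      · exact Or.inr (Or.inr (Or.inl g3))
      by_cases g4 : i ∈ B4
      · exact Or.inr (Or.inr (Or.inr (Or.inl g4)))
      by_cases g5 : i ∈ B5
      · exact Or.inr (Or.inr (Or.inr (Or.inr (Or.inl g5))))
      exact Or.inr (Or.inr (Or.inr (Or.inr (Or.inr (hcon i hi g1 g2 g3 g4 g5)))))
    have h1 := card_le_card hsub
    have h2 : (B1 ∪ (B2 ∪ (B3 ∪ (B4 ∪ (B5 ∪ B6))))).card ≤
        B1.card + (B2.card + (B3.card + (B4.card + (B5.card + B6.card)))) := by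
      refine (card_union_le _ _).trans (Nat.add_le_add_left ?_ _)
      refine (card_union_le _ _).trans (Nat.add_le_add_left ?_ _)
      refine (card_union_le _ _).trans (Nat.add_le_add_left ?_ _)
      refine (card_union_le _ _).trans (Nat.add_le_add_left ?_ _)
      exact card_union_le _ _
    have h3 : (A.card : ℝ) ≤ B1.card + (B2.card + (B3.card + (B4.card + (B5.card + B6.card)))) := by
      exact_mod_cast h1.trans h2
    linarith
  obtain ⟨i, hiA, n1, n2, n3, n4, n5, n6⟩ := hex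
  have hiN : i < N := mem_range.1 (hA1 hiA)
  have hP : ∀ {Q : ℕ → Prop} [DecidablePred Q], i ∉ (range N).filter (fun i => ¬ Q i) → Q i := by
    intro Q _ h
    by_contra hc
    exact h (mem_filter.2 ⟨mem_range.2 hiN, hc⟩)
  have p1 := hP n1
  have p2 := hP n2
  have p3 := hP n3
  have p4 := hP n4
  have p5 := hP n5
  have p6 := hP n6
  have hform : ∀ f ∈ L, ∀ q : ℕ, q.Prime → T < q → q ≤ z → ¬ (q : ℤ) ∣ f.1 * i + f.2 :=
    fun f hf => hA3 i hiA f (List.mem_toFinset.2 hf)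
  -- abbreviations
  have hb := hfb' i hiN
  have ha := hfa' i
  have hv3 := hfav i
  obtain ⟨a', ha'⟩ : ∃ a', fa i = a' + 3 * v := ⟨fa i - 3 * v, by omega⟩
  have hsub : fa i - 3 * v = a' := by omega
  rw [hsub] at p5 p6
  rw [ha'] at p2 p3
  set b : ℕ := fb i with hbdef
  set u : ℕ := w * i with hu
  have hu' : u ≤ w * N := Nat.mul_le_mul_left w hiN.le
  -- `3 b + a = m`
  have h3b : 3 * b + (a' + 3 * v) = m := by omega
  -- integer versions
  have zb : (b : ℤ) = b0 - w * i := by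
    have : ((b + u : ℕ) : ℤ) = (b0 : ℕ) := by rw [hb]
    push_cast [hu] at this
    linarith
  have za : (a' : ℤ) + 3 * v = A0 + 3 * (w * i) := by
    have h1 : a' + 3 * v = A0 + 3 * u := by omega
    have : ((a' + 3 * v : ℕ) : ℤ) = ((A0 + 3 * u : ℕ) : ℤ) := by rw [h1]
    push_cast [hu] at this ⊢
    linarith
  have zm : (m : ℤ) = 3 * b + (a' + 3 * v) := by rw [← h3b]; push_cast; ring
  -- a' is a multiple of `w`
  have haw : a' = w * (r0 + 3 * (N + i) - 3 * t) := by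
    have h1 : 3 * t ≤ r0 + 3 * (N + i) := by omega
    obtain ⟨k, hk⟩ := Nat.exists_eq_add_of_le h1
    rw [hk, show 3 * t + k - 3 * t = k by omega]
    have h2 : fa i = w * (r0 + 3 * (N + i)) := by simp only [hfa]; ring
    rw [hk] at h2
    have h3 : w * (3 * t + k) = 3 * v + w * k := by rw [hv]; ring
    omega
  set y' : ℕ := r0 + 3 * (N + i) - 3 * t with hy'
  have ha'1 : 1 ≤ a' := by
    rw [haw]
    exact Nat.mul_pos hw1 (by omega)
  have hm3 : ¬ 3 ∣ m := hm 3 (by norm_num) (by omega)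
  have hv3' : ¬ 3 ∣ v := by
    rw [hv]
    intro h
    rcases (Nat.Prime.dvd_mul (by norm_num)).1 h with h | h
    · exact hw3 h
    · exact ht h
  have ha3 : (a' + 3 * v) % 3 = m % 3 := by omega
  have mem : ∀ x ∈ L, x ∈ L := fun x hx => hx
  have hin : ∀ (cc d : ℤ), (cc, d) ∈ L → ∀ x : ℕ, (x : ℤ) = cc * i + d →
      ∀ q : ℕ, q.Prime → T < q → q ≤ z → ¬ (q : ℤ) ∣ (x : ℤ) := by
    intro cc d hmem x hx q hq hTq hqz
    rw [hx]
    exact hform _ hmem q hq hTq hqz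
  refine ⟨b, a', h3b, ha'1, ⟨y', haw⟩, by simp only [hbdef, hfb]; omega, by omega, by omega,
    ⟨?_, ?_, ?_, ?_, ?_, ?_⟩, ⟨p1, p2, p3, p4, p5, p6⟩, ?_, ?_, ?_, ?_, ?_, ?_, ?_⟩
  · exact roughT_of (hin (-(w:ℤ)) b0 (by simp [hL]) _ (by rw [zb]; ring))
  · exact roughT_of (hin (2 * (w:ℤ)) ((b0:ℤ) + A0) (by simp [hL]) _
      (by push_cast; rw [zb, za]; ring))
  · exact roughT_of (hin (5 * (w:ℤ)) ((b0:ℤ) + 2 * A0) (by simp [hL]) _
      (by push_cast; rw [zb, za]; ring))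
  · exact roughT_of (hin (-(w:ℤ)) ((b0:ℤ) + 5 * v) (by simp [hL]) _
      (by push_cast; rw [zb]; ring))
  · exact roughT_of (hin (2 * (w:ℤ)) ((b0:ℤ) + A0 + 2 * v) (by simp [hL]) _
      (by push_cast; linear_combination zb + za))
  · exact roughT_of (hin (5 * (w:ℤ)) ((b0:ℤ) + 2 * A0 - v) (by simp [hL]) _
      (by push_cast; linear_combination zb + 2 * za))
  · refine rough_of_small (small_ok hT hTz hm (y := y' + 3 * t) ?_ ?_)
      (hin (3 * (w:ℤ)) ((m:ℤ) + A0) (by simp [hL]) _ (by push_cast; linear_combination -zm + za))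
    · rw [← hw, show w * (y' + 3 * t) = w * y' + 3 * (w * t) by ring, ← haw, ← hv]; omega
    · omega
  · refine rough_of_small (small_ok hT hTz hm (y := 3 * (y' + 3 * t)) ?_ ?_)
      (hin (9 * (w:ℤ)) ((m:ℤ) + 3 * A0) (by simp [hL]) _ (by push_cast; linear_combination -zm + 3 * za))
    · rw [← hw, show w * (3 * (y' + 3 * t)) = 3 * (w * y' + 3 * (w * t)) by ring, ← haw, ← hv]; omega
    · omega
  · refine rough_of_small (small_ok hT hTz hm (y := 4 * (y' + 3 * t)) ?_ ?_)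
      (hin (12 * (w:ℤ)) ((m:ℤ) + 4 * A0) (by simp [hL]) _ (by push_cast; linear_combination -zm + 4 * za))
    · rw [← hw, show w * (4 * (y' + 3 * t)) = 4 * (w * y' + 3 * (w * t)) by ring, ← haw, ← hv]; omega
    · omega
  · refine rough_of_small (small_ok hT hTz hm (y := y' + 12 * t) ?_ ?_)
      (hin (3 * (w:ℤ)) ((m:ℤ) + 9 * v + A0) (by simp [hL]) _ (by push_cast; linear_combination -zm + za))
    · rw [← hw, show w * (y' + 12 * t) = w * y' + 12 * (w * t) by ring, ← haw, ← hv]; omega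
    · omega
  · refine rough_of_small (small_ok hT hTz hm (y := 3 * y' + 12 * t) ?_ ?_)
      (hin (9 * (w:ℤ)) ((m:ℤ) + 3 * v + 3 * A0) (by simp [hL]) _
        (by push_cast; linear_combination -zm + 3 * za))
    · rw [← hw, show w * (3 * y' + 12 * t) = 3 * (w * y') + 12 * (w * t) by ring, ← haw, ← hv]; omega
    · omega
  · refine rough_of_small (small_ok hT hTz hm (y := 2 * y' + 10 * t) ?_ ?_)
      (hin (6 * (w:ℤ)) ((m:ℤ) + 2 * A0 + 4 * v) (by simp [hL]) _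
        (by push_cast; linear_combination -zm + 2 * za))
    · rw [← hw, show w * (2 * y' + 10 * t) = 2 * (w * y') + 10 * (w * t) by ring, ← haw, ← hv]; omega
    · omega
  · refine rough_of_small (small_ok hT hTz hm (y := 2 * y' + 8 * t) ?_ ?_)
      (hin (6 * (w:ℤ)) ((m:ℤ) + 2 * A0 + 2 * v) (by simp [hL]) _
        (by push_cast; linear_combination -zm + 2 * za))
    · rw [← hw, show w * (2 * y' + 8 * t) = 2 * (w * y') + 8 * (w * t) by ring, ← haw, ← hv]; omega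
    · omega


theorem ev_rpow {a b : ℝ} (hab : a < b) (K : ℝ) : ∀ᶠ n : ℝ in atTop, K * n ^ a ≤ n ^ b := by
  have h : Tendsto (fun n : ℝ => n ^ (b - a)) atTop atTop := tendsto_rpow_atTop (by linarith)
  filter_upwards [h.eventually_ge_atTop K, eventually_gt_atTop 0] with n h1 h2
  calc K * n ^ a ≤ n ^ (b - a) * n ^ a := by
        apply mul_le_mul_of_nonneg_right h1 (Real.rpow_nonneg h2.le _)
    _ = n ^ b := by rw [← Real.rpow_add h2]; congr 1; ring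

theorem ev_log (C : ℕ) {a : ℝ} (ha : 0 < a) (K : ℝ) (hK : 0 < K) :
    ∀ᶠ n : ℝ in atTop, K * Real.log n ^ C < n ^ a := by
  have h := isLittleO_log_rpow_rpow_atTop (C : ℝ) ha
  have h2 := h.def (c := 1 / (2 * K)) (by positivity)
  filter_upwards [h2, eventually_gt_atTop 1] with n h3 h4
  have h5 : 0 < n ^ a := Real.rpow_pos_of_pos (by linarith) _
  have h6 : 0 ≤ Real.log n := Real.log_nonneg h4.le
  rw [Real.norm_of_nonneg (Real.rpow_nonneg h6 _), Real.norm_of_nonneg h5.le,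
    Real.rpow_natCast] at h3
  calc K * Real.log n ^ C ≤ K * (1 / (2 * K) * n ^ a) := by gcongr
    _ = n ^ a / 2 := by field_simp
    _ < n ^ a := by linarith

end StepAux

open StepAux in
theorem stepR {C T S0 : ℕ} (hS : SieveC C T S0) : ∃ n0 : ℝ, ∀ n : ℝ, n0 ≤ n →
    ∀ (f : ℕ → ℤ) (V : ℝ) (z S : ℕ) (e : ℤ), HypR f n V z e → S0 ≤ S → z ^ C ≤ S → T ≤ z →
    V = 16 * primorial T * S → V ≤ n ^ ((2 : ℝ) / 10 ^ 7) →
    ∀ m t : ℕ, n ^ ((19 : ℝ) / 100) ≤ m → ((m + 12 * W1 T * t : ℕ) : ℝ) ≤ n ^ ((192 : ℝ) / 1000) →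
      t ≤ 4 * (S + 1) → ¬ 3 ∣ t → Rough z m → Rough z (m + 12 * W1 T * t) →
      f m = f (m + 12 * W1 T * t) := by
  have hC := hS.1
  have hT := hS.2.1
  have hS02 := hS.2.2.1
  obtain ⟨hw1, hw2, hw3, -, -, -, -⟩ := W1_facts hT
  have hW1 : 1 ≤ primorial T := primorial_pos T
  set w : ℕ := W1 T with hw
  have hwW : w ≤ primorial T := by omega
  have hw0 : (1 : ℝ) ≤ w := by exact_mod_cast hw1
  obtain ⟨ε, hε⟩ := exists_eps hw1 hw3
  obtain ⟨n1, hn1⟩ := few_badR (primorial T) hW1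
  obtain ⟨n2, hn2⟩ := side (16 * (w : ℝ)) (by linarith)
  have e1 := ev_rpow (a := 54 / 1000) (b := 55 / 1000) (by norm_num) 2
  have e2 := ev_rpow (a := (2 : ℝ) / 10 ^ 7) (b := 54 / 1000) (by norm_num) 8
  have e3 := ev_rpow (a := (55 : ℝ) / 1000) (b := 19 / 100) (by norm_num) (100 * w)
  have e4 := ev_log C (a := (1 : ℝ) / 10 ^ 6) (by norm_num) 6 (by norm_num)
  have e5 : ∀ᶠ n : ℝ in atTop, 1 < n := eventually_gt_atTop 1
  obtain ⟨n3, hn3⟩ := eventually_atTop.1 (e1.and (e2.and (e3.and (e4.and e5))))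
  refine ⟨max n1 (max n2 n3), ?_⟩
  intro n hn f V z S e H hS0 hSz hTz hV hVn m t hm1 hm2 htS ht3 hr hr'
  have hnn1 : n1 ≤ n := (le_max_left _ _).trans hn
  have hnn2 : n2 ≤ n := ((le_max_left _ _).trans (le_max_right _ _)).trans hn
  have hnn3 : n3 ≤ n := ((le_max_right _ _).trans (le_max_right _ _)).trans hn
  obtain ⟨g1, g2, g3, g4, g5⟩ := hn3 n hnn3
  have hn0 : 0 < n := by linarith
  -- sizes
  have hS1 : 1 ≤ S := by omega
  have hSr : (1 : ℝ) ≤ S := by exact_mod_cast hS1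
  have hWr : (1 : ℝ) ≤ primorial T := by exact_mod_cast hW1
  have hSV : (S : ℝ) ≤ V := by
    rw [hV]
    nlinarith
  have hV1 : 1 ≤ V := hSr.trans hSV
  set J : ℕ := ⌈n ^ ((1 : ℝ) / 10 ^ 5)⌉₊ with hJ
  have hJ0 : 1 ≤ n ^ ((1 : ℝ) / 10 ^ 5) := Real.one_le_rpow g5.le (by norm_num)
  have hJ1 : n ^ ((1 : ℝ) / 10 ^ 5) ≤ J := Nat.le_ceil _
  have hJ2 : (J : ℝ) ≤ 2 * n ^ ((1 : ℝ) / 10 ^ 5) := by
    have := Nat.ceil_lt_add_one (a := n ^ ((1 : ℝ) / 10 ^ 5)) (by linarith)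
    rw [← hJ] at this
    linarith
  have hJ3 : 1 ≤ J := by
    have : (1 : ℝ) ≤ J := hJ0.trans hJ1
    exact_mod_cast this
  have hzS : z ≤ S := (Nat.le_self_pow (by omega) z).trans hSz
  have hVJ : V ≤ J := by
    refine (hVn.trans ?_).trans hJ1
    exact Real.rpow_le_rpow_of_exponent_le g5.le (by norm_num)
  have hzJ : z ≤ J := by
    have h1 : (z : ℝ) ≤ J := by
      have : (z : ℝ) ≤ S := by exact_mod_cast hzS
      linarith
    exact_mod_cast h1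
  set N : ℕ := ⌊n ^ ((55 : ℝ) / 1000)⌋₊ with hN
  have hN0 : 0 ≤ n ^ ((55 : ℝ) / 1000) := Real.rpow_nonneg hn0.le _
  have hN2 : (N : ℝ) ≤ n ^ ((55 : ℝ) / 1000) := Nat.floor_le hN0
  have h54 : 1 ≤ n ^ ((54 : ℝ) / 1000) := Real.one_le_rpow g5.le (by norm_num)
  have hN1 : n ^ ((54 : ℝ) / 1000) ≤ N := by
    have := Nat.lt_floor_add_one (n ^ ((55 : ℝ) / 1000))
    rw [← hN] at this
    linarith
  have h8V : 8 * V ≤ N := by
    calc 8 * V ≤ 8 * n ^ ((2 : ℝ) / 10 ^ 7) := by linarith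
      _ ≤ n ^ ((54 : ℝ) / 1000) := g2
      _ ≤ N := hN1
  have hSN : S ≤ N := by
    have : (S : ℝ) ≤ N := by linarith
    exact_mod_cast this
  have htN : t ≤ N := by
    have h1 : (t : ℝ) ≤ 4 * (S + 1) := by exact_mod_cast htS
    have : (t : ℝ) ≤ N := by linarith
    exact_mod_cast this
  have hN8 : (8 : ℝ) ≤ N := by linarith
  have hN1' : 1 ≤ N := by
    have : (1 : ℝ) ≤ N := by linarith
    exact_mod_cast this
  have hwN : 100 * (w * N) ≤ m := by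
    have h1 : (100 * (w * N) : ℝ) ≤ m := by
      calc (100 * (w * N) : ℝ) = 100 * w * N := by ring
        _ ≤ 100 * w * n ^ ((55 : ℝ) / 1000) := by gcongr
        _ ≤ n ^ ((19 : ℝ) / 100) := g3
        _ ≤ m := hm1
    exact_mod_cast h1
  have hw_le : w ≤ w * N := Nat.le_mul_of_pos_right w hN1'
  have hm3 : ¬ 3 ∣ m := hr 3 (by norm_num) (by omega)
  have ht1 : 1 ≤ t := by
    rcases Nat.eq_zero_or_pos t with h | h
    · rw [h] at ht3; exact absurd (dvd_zero 3) ht3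
    · exact h
  obtain ⟨r0, hr01, hr02, hr03⟩ : ∃ r0, 1 ≤ r0 ∧ r0 ≤ 2 ∧ w * r0 % 3 = m % 3 := by
    by_cases h : w % 3 = m % 3
    · exact ⟨1, le_rfl, by norm_num, by rw [mul_one]; exact h⟩
    · refine ⟨2, by norm_num, le_rfl, ?_⟩
      have h1 : w % 3 = 1 ∨ w % 3 = 2 := by omega
      have h2 : m % 3 = 1 ∨ m % 3 = 2 := by omega
      rw [Nat.mul_mod]
      rcases h1 with h1 | h1 <;> rcases h2 with h2 | h2 <;> rw [h1, h2] at h ⊢
      · exact absurd rfl h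
      · exact absurd rfl h
  have hwr : w * r0 ≤ 2 * w := by
    calc w * r0 ≤ w * 2 := Nat.mul_le_mul_left w hr02
      _ = 2 * w := by ring
  obtain ⟨Bs, hBs⟩ : ∃ Bs, 3 * Bs + w * r0 + 6 * (w * N) = m + 3 * w :=
    ⟨(m + 3 * w - w * r0 - 6 * (w * N)) / 3, by omega⟩
  have hX0 : (0 : ℝ) < m := by
    have : 1 ≤ m := by omega
    exact_mod_cast this
  have hmX : (m : ℝ) ≤ n ^ ((192 : ℝ) / 1000) := by
    refine le_trans ?_ hm2
    push_cast
    have : (0 : ℝ) ≤ 12 * (W1 T : ℝ) * t := by positivity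
    linarith
  -- the fixed data
  have E : Env C T S0 f n V z S J e (m : ℝ) (16 * (w : ℝ)) :=
    { hS := hS
      H := H
      hn := hn0
      hS0 := hS0
      hSz := hSz
      hTz := hTz
      hzJ := hzJ
      hV := hV
      hX := hX0
      hc := by rw [← hw]; linarith
      side := hn2 n hnn2 m V J S hm1 hmX hV1 hVn hSV hJ3 hJ2 }
  have hBs1 : m ≤ 4 * Bs := by omega
  have hBs2 : 3 * Bs ≤ m + 3 * w := by omega
  -- choice
  have hβ : 6 * ((N : ℝ) * n ^ (-(1 : ℝ) / 10 ^ 6)) < (N : ℝ) / Real.log N ^ C := by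
    have hlN : 0 < Real.log N := Real.log_pos (by linarith)
    have hlN' : Real.log N ≤ Real.log n := by
      apply Real.log_le_log (by linarith)
      calc (N : ℝ) ≤ n ^ ((55 : ℝ) / 1000) := hN2
        _ ≤ n ^ (1 : ℝ) := Real.rpow_le_rpow_of_exponent_le g5.le (by norm_num)
        _ = n := Real.rpow_one n
    rw [lt_div_iff₀ (pow_pos hlN C)]
    have h1 : 6 * Real.log N ^ C < n ^ ((1 : ℝ) / 10 ^ 6) := by
      refine lt_of_le_of_lt ?_ g4
      gcongr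
    have h2 : n ^ (-(1 : ℝ) / 10 ^ 6) * n ^ ((1 : ℝ) / 10 ^ 6) = 1 := by
      rw [← Real.rpow_add hn0]
      norm_num
    have h3 : 0 < n ^ (-(1 : ℝ) / 10 ^ 6) := Real.rpow_pos_of_pos hn0 _
    calc 6 * ((N : ℝ) * n ^ (-(1 : ℝ) / 10 ^ 6)) * Real.log N ^ C
        = N * (n ^ (-(1 : ℝ) / 10 ^ 6) * (6 * Real.log N ^ C)) := by ring
      _ < N * (n ^ (-(1 : ℝ) / 10 ^ 6) * n ^ ((1 : ℝ) / 10 ^ 6)) := by
          have hNpos : (0 : ℝ) < N := by linarith
          gcongr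
      _ = N := by rw [h2, mul_one]
  have hbad : ∀ h₀ s : ℕ, (s = w ∨ s = 2 * w ∨ s = 5 * w) → Bs ≤ h₀ →
      h₀ ≤ Bs + 20 * (w * N) →
      ∀ Bd : Finset ℕ, (∀ i ∈ Bd, i < N) →
      (∀ i ∈ Bd, ¬ (fun h : ℕ => GoodR n V (primorial T) J (h : ℝ)) (h₀ + s * i)) →
      (Bd.card : ℝ) ≤ (N : ℝ) * n ^ (-(1 : ℝ) / 10 ^ 6) := by
    intro h₀ s hs hh1 hh2 Bd hBd hBd'
    have hs1 : 1 ≤ s := by rcases hs with h | h | h <;> omega
    have hs2 : s ≤ 10 * primorial T := by rcases hs with h | h | h <;> omega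
    have hsN : s * N ≤ 5 * (w * N) := by
      rcases hs with h | h | h
      · rw [h]; omega
      · rw [h, show 2 * w * N = 2 * (w * N) by ring]; omega
      · rw [h, show 5 * w * N = 5 * (w * N) by ring]
    refine hn1 n hnn1 m V hm1 hmX hV1 hVn J hJ1 hJ2 N hN1 hN2 h₀ s hs1 hs2 ?_ ?_ Bd hBd hBd'
    · have h1 : m ≤ 4 * h₀ := by omega
      have h2 : (m : ℝ) ≤ 4 * h₀ := by exact_mod_cast h1
      linarith
    · have h1 : h₀ + s * N ≤ 4 * m := by omega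
      exact_mod_cast h1
  obtain ⟨b, a', h3b, ha'1, haw, hbB, ha8, hbN, ⟨t1, t2, t3, t4, t5, t6⟩,
    ⟨p1, p2, p3, p4, p5, p6⟩, q1, q2, q3, q4, q5, q6, q7⟩ :=
    choose_i hS hTz hr hBs hN1' hr01 hr02 hr03 ht3 htN (hS0.trans hSN) (hSz.trans hSN)
      (fun h : ℕ => GoodR n V (primorial T) J (h : ℝ)) hβ hbad
  have hfin := combine E hε (b := b) (a := a' + 3 * (W1 T * t)) (b' := b + 5 * (W1 T * t))
    (a' := a') (t := t) rfl rfl ht1 ha'1 haw ?_ ?_ ?_ t1 t2 t3 t4 t5 t6 p1 p2 p3 p4 p5 p6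
    (by rw [h3b]; exact hr) q1 q2 q3 ?_ q4 q5 q6 q7
  · rw [h3b] at hfin
    have e6 : 3 * (b + 5 * (W1 T * t)) + a' = m + 12 * W1 T * t := by
      rw [show 12 * W1 T * t = 12 * (W1 T * t) by ring]
      omega
    rw [e6] at hfin
    exact hfin
  · have h1 : m ≤ 4 * b := by omega
    have h2 : (m : ℝ) ≤ 4 * b := by exact_mod_cast h1
    linarith
  · have h1 : b + 2 * (a' + 3 * (W1 T * t)) ≤ 4 * m := by omega
    exact_mod_cast h1
  · have h1 : ((a' + 3 * (W1 T * t) : ℕ) : ℝ) ≤ 8 * (w * N) := by exact_mod_cast ha8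
    calc 2 * ((a' + 3 * (W1 T * t) : ℕ) : ℝ) ≤ 2 * (8 * (w * N)) := by linarith
      _ = 16 * w * N := by ring
      _ ≤ 16 * w * n ^ ((55 : ℝ) / 1000) := by gcongr
  · have e6 : 3 * (b + 5 * (W1 T * t)) + a' = m + 12 * W1 T * t := by
      rw [show 12 * W1 T * t = 12 * (W1 T * t) by ring]
      omega
    rw [e6]
    exact hr'

end Pool.Agent.RPS
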