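import Pool.Agent.RPS.Sieve
import Pool.Agent.RPS.Wfacts
import Pool.Agent.RPS.Step

set_option autoImplicit false

namespace Pool.Agent.RPS

open Pool.Agent.SqrtParity Pool.Agent.SSQ Finset

/-- roughness is preserved by multiples of `12 W1` up to primes `≤ T` -/
theorem rough_add {T z : ℕ} (hT : 5 ≤ T) {m k : ℕ} (hm : Rough z m)
    (h : ∀ q : ℕ, q.Prime → T < q → q ≤ z → ¬ q ∣ m + 12 * W1 T * k) :
    Rough z (m + 12 * W1 T * k) := by
  intro q hq hqz
  by_cases hqT : T < q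
  · exact h q hq hqT hqz
  · have hqT' : q ≤ T := not_lt.1 hqT
    obtain ⟨-, -, -, h4, h5, -, -⟩ := W1_facts hT
    have hdvd : q ∣ 12 * W1 T := by
      rcases lt_or_ge q 5 with h' | h'
      · have h2 : q = 2 ∨ q = 3 := by
          have := hq.two_le
          interval_cases q
          · left; rfl
          · right; rfl
          · exact absurd hq (by norm_num)
        rcases h2 with rfl | rfl
        · exact Dvd.dvd.mul_right (by norm_num) _
        · exact Dvd.dvd.mul_right (by norm_num) _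
      · exact Dvd.dvd.mul_left (h5 q hq h' hqT') _
    intro hd
    have h6 : q ∣ 12 * W1 T * k := Dvd.dvd.mul_right hdvd _
    exact hm q hq hqz ((Nat.dvd_add_left h6).1 hd)

/-- a rough integer `m + 12 W1 (1 + g s)`, `s < S`, `g = 1` or `3` -/
theorem exists_next {C T S0 : ℕ} (hS : SieveC C T S0) {z S : ℕ} (h1 : S0 ≤ S) (h2 : z ^ C ≤ S)
    {m : ℕ} (hm : Rough z m) (g : ℕ) (hg : g = 1 ∨ g = 3) :
    ∃ s : ℕ, s < S ∧ Rough z (m + 12 * W1 T * (1 + g * s)) := by
  have hT : 5 ≤ T := hS.2.1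
  obtain ⟨-, -, -, -, -, -, h7⟩ := W1_facts hT
  obtain ⟨s, hs, hs'⟩ := exists_rough hS h1 h2
    ({(((12 * W1 T * g : ℕ) : ℤ), ((m + 12 * W1 T : ℕ) : ℤ))} : Finset (ℤ × ℤ))
    (by simp) (by
      intro f hf q hq hqT hqz hd
      rw [Finset.mem_singleton] at hf
      subst hf
      simp only at hd
      have hd' : q ∣ 12 * W1 T * g := by exact_mod_cast hd
      rcases (hq.dvd_mul).1 hd' with h | h
      · exact absurd (h7 q hq h) (not_le.2 hqT)
      · have h3 : q ≤ 3 := by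
          rcases hg with rfl | rfl
          · exact (Nat.le_of_dvd (by norm_num) h).trans (by norm_num)
          · exact Nat.le_of_dvd (by norm_num) h
        omega)
  refine ⟨s, hs, rough_add hT hm ?_⟩
  intro q hq hqT hqz hd
  refine hs' _ (Finset.mem_singleton_self _) q hq hqT hqz ?_
  simp only
  have h8 : ((12 * W1 T * g : ℕ) : ℤ) * s + ((m + 12 * W1 T : ℕ) : ℤ) =
      ((m + 12 * W1 T * (1 + g * s) : ℕ) : ℤ) := by
    push_cast
    ring
  rw [h8]
  exact_mod_cast hd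

theorem chainR {C T S0 : ℕ} (hS : SieveC C T S0) : ∃ n0 : ℝ, ∀ n : ℝ, n0 ≤ n →
    ∀ (f : ℕ → ℤ) (V : ℝ) (z S : ℕ) (e : ℤ), HypR f n V z e → S0 ≤ S → z ^ C ≤ S → T ≤ z →
    V = 16 * primorial T * S → V ≤ n ^ ((2 : ℝ) / 10 ^ 7) →
    ∀ m m' : ℕ, n ^ ((19 : ℝ) / 100) ≤ m → m ≤ m' → (m' : ℝ) ≤ n ^ ((1915 : ℝ) / 10000) →
      m ≡ m' [MOD 12 * W1 T] → Rough z m → Rough z m' → f m = f m' := by
  obtain ⟨n1, hstep⟩ := stepR hS
  refine ⟨max n1 (3 ^ 2000), ?_⟩
  intro n hn f V z S e H hS0 hSz hTz hV hVn m m' hm hmm hm' hmod rm rm'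
  have hn1 : n1 ≤ n := (le_max_left _ _).trans hn
  have hn2 : (3 : ℝ) ^ 2000 ≤ n := (le_max_right _ _).trans hn
  have hn0 : 1 ≤ n := (one_le_pow₀ (by norm_num)).trans hn2
  have hnpos : 0 < n := lt_of_lt_of_le one_pos hn0
  have hT : 5 ≤ T := hS.2.1
  have hSpos : 2 ≤ S := hS.2.2.1.trans hS0
  obtain ⟨hW1, hW3, -⟩ := W1_facts hT
  have hgrow : n ^ ((1915 : ℝ) / 10000) + 2 * n ^ ((2 : ℝ) / 10 ^ 7) ≤ n ^ ((192 : ℝ) / 1000) := by
    have h1 : n ^ ((192 : ℝ) / 1000) = n ^ ((1915 : ℝ) / 10000) * n ^ (((2000 : ℕ) : ℝ)⁻¹) := by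
      rw [← Real.rpow_add hnpos]
      norm_num
    have h2 : (3 : ℝ) ≤ n ^ (((2000 : ℕ) : ℝ)⁻¹) := by
      calc (3 : ℝ) = ((3 : ℝ) ^ 2000) ^ (((2000 : ℕ) : ℝ)⁻¹) :=
            (Real.pow_rpow_inv_natCast (by norm_num) (by norm_num)).symm
        _ ≤ _ := Real.rpow_le_rpow (by positivity) hn2 (by positivity)
    have h3 : n ^ ((2 : ℝ) / 10 ^ 7) ≤ n ^ ((1915 : ℝ) / 10000) :=
      Real.rpow_le_rpow_of_exponent_le hn0 (by norm_num)
    have h4 : 0 < n ^ ((1915 : ℝ) / 10000) := by positivity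
    rw [h1]
    nlinarith
  have hshift : ∀ k : ℕ, k ≤ 4 * S → ((12 * W1 T * k : ℕ) : ℝ) ≤ 2 * n ^ ((2 : ℝ) / 10 ^ 7) := by
    intro k hk
    have h1 : ((12 * W1 T * k : ℕ) : ℝ) ≤ 2 * V := by
      rw [hV]
      have h2 : 12 * W1 T * k ≤ 2 * (16 * primorial T * S) := by
        have h3 : 12 * W1 T = 8 * primorial T := by omega
        rw [h3]
        nlinarith [Nat.zero_le (primorial T), Nat.mul_le_mul_left (8 * primorial T) hk]
      calc ((12 * W1 T * k : ℕ) : ℝ) ≤ ((2 * (16 * primorial T * S) : ℕ) : ℝ) := by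
            exact_mod_cast h2
        _ = _ := by push_cast; ring
    linarith
  -- the direct case
  have hdirect : ∀ (m t : ℕ), n ^ ((19 : ℝ) / 100) ≤ m →
      ((m + 12 * W1 T * t : ℕ) : ℝ) ≤ n ^ ((1915 : ℝ) / 10000) → t ≤ 4 * (S + 1) → Rough z m →
      Rough z (m + 12 * W1 T * t) → f m = f (m + 12 * W1 T * t) := by
    intro m t hm hmt ht rm rmt
    have hn192 : n ^ ((1915 : ℝ) / 10000) ≤ n ^ ((192 : ℝ) / 1000) :=
      Real.rpow_le_rpow_of_exponent_le hn0 (by norm_num)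
    by_cases h3 : 3 ∣ t
    · obtain ⟨s, hs, rs⟩ := exists_next hS hS0 hSz rm 3 (Or.inr rfl)
      have hm0 : (m : ℝ) ≤ n ^ ((1915 : ℝ) / 10000) := by
        refine le_trans ?_ hmt
        exact_mod_cast Nat.le_add_right _ _
      have hle : ((m + 12 * W1 T * (1 + 3 * s) : ℕ) : ℝ) ≤ n ^ ((192 : ℝ) / 1000) := by
        have h4 := hshift (1 + 3 * s) (by omega)
        have h5 : ((m + 12 * W1 T * (1 + 3 * s) : ℕ) : ℝ) =
            (m : ℝ) + ((12 * W1 T * (1 + 3 * s) : ℕ) : ℝ) := by push_cast; ring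
        rw [h5]
        linarith
      have e1 : f m = f (m + 12 * W1 T * (1 + 3 * s)) :=
        hstep n hn1 f V z S e H hS0 hSz hTz hV hVn m (1 + 3 * s) hm hle (by omega) (by omega) rm rs
      rcases le_total (1 + 3 * s) t with h6 | h6
      · have h7 : m + 12 * W1 T * t =
            (m + 12 * W1 T * (1 + 3 * s)) + 12 * W1 T * (t - (1 + 3 * s)) := by
          obtain ⟨r, rfl⟩ := Nat.exists_eq_add_of_le h6
          rw [Nat.add_sub_cancel_left]
          ring
        have hm2 : n ^ ((19 : ℝ) / 100) ≤ ((m + 12 * W1 T * (1 + 3 * s) : ℕ) : ℝ) := by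
          refine hm.trans ?_
          exact_mod_cast Nat.le_add_right _ _
        rw [e1, h7]
        refine hstep n hn1 f V z S e H hS0 hSz hTz hV hVn _ (t - (1 + 3 * s)) hm2 ?_ (by omega)
          (by omega) rs ?_
        · rw [← h7]
          exact hmt.trans hn192
        · rw [← h7]
          exact rmt
      · have h7 : m + 12 * W1 T * (1 + 3 * s) =
            (m + 12 * W1 T * t) + 12 * W1 T * ((1 + 3 * s) - t) := by
          obtain ⟨r, hr⟩ := Nat.exists_eq_add_of_le h6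
          rw [hr, Nat.add_sub_cancel_left]
          ring
        have hm2 : n ^ ((19 : ℝ) / 100) ≤ ((m + 12 * W1 T * t : ℕ) : ℝ) := by
          refine hm.trans ?_
          exact_mod_cast Nat.le_add_right _ _
        rw [e1, h7]
        symm
        refine hstep n hn1 f V z S e H hS0 hSz hTz hV hVn _ ((1 + 3 * s) - t) hm2 ?_ (by omega)
          (by omega) rmt ?_
        · rw [← h7]
          exact hle
        · rw [← h7]
          exact rs
    · exact hstep n hn1 f V z S e H hS0 hSz hTz hV hVn m t hm (hmt.trans hn192) ht h3 rm rmt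
  -- the chain
  have hchain : ∀ t m : ℕ, n ^ ((19 : ℝ) / 100) ≤ m →
      ((m + 12 * W1 T * t : ℕ) : ℝ) ≤ n ^ ((1915 : ℝ) / 10000) → Rough z m →
      Rough z (m + 12 * W1 T * t) → f m = f (m + 12 * W1 T * t) := by
    intro t
    induction t using Nat.strong_induction_on with
    | _ t ih =>
      intro m hm hmt rm rmt
      by_cases ht : t ≤ 4 * (S + 1)
      · exact hdirect m t hm hmt ht rm rmt
      · obtain ⟨s, hs, rs⟩ := exists_next hS hS0 hSz rm 1 (Or.inl rfl)
        rw [one_mul] at rs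
        have h7 : m + 12 * W1 T * t =
            (m + 12 * W1 T * (1 + s)) + 12 * W1 T * (t - (1 + s)) := by
          obtain ⟨r, hr⟩ := Nat.exists_eq_add_of_le (show 1 + s ≤ t by omega)
          rw [hr, Nat.add_sub_cancel_left]
          ring
        have hm2 : n ^ ((19 : ℝ) / 100) ≤ ((m + 12 * W1 T * (1 + s) : ℕ) : ℝ) := by
          refine hm.trans ?_
          exact_mod_cast Nat.le_add_right _ _
        have hle : ((m + 12 * W1 T * (1 + s) : ℕ) : ℝ) ≤ n ^ ((1915 : ℝ) / 10000) := by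
          refine le_trans ?_ hmt
          rw [h7]
          exact_mod_cast Nat.le_add_right _ _
        have e1 : f m = f (m + 12 * W1 T * (1 + s)) := hdirect m (1 + s) hm hle (by omega) rm rs
        rw [e1, h7]
        refine ih (t - (1 + s)) (by omega) _ hm2 ?_ rs ?_
        · rw [← h7]
          exact hmt
        · rw [← h7]
          exact rmt
  obtain ⟨t, ht⟩ : 12 * W1 T ∣ m' - m := (Nat.modEq_iff_dvd' hmm).1 hmod
  have hm't : m' = m + 12 * W1 T * t := by omega
  rw [hm't]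
  refine hchain t m hm ?_ rm ?_
  · rw [← hm't]
    exact hm'
  · rw [← hm't]
    exact rm'

end Pool.Agent.RPS
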