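import Mathlib
import Pool.Agent.RPS.Defs
import Pool.Agent.RPS.Wfacts
import Pool.Agent.RPS.Chain
import Pool.Agent.RPS.Sieve

set_option autoImplicit false

/-!
# The general theorem
-/

namespace Pool.Agent.RPS

open Pool.Agent.SqrtParity Pool.Agent.SSQ Finset Filter

theorem main_ev (A B : ℝ) (n1 : ℝ) : ∀ᶠ n : ℝ in atTop, n1 ≤ n ∧ 1 ≤ n ∧
    A ≤ n ^ ((1 : ℝ) / 10 ^ 7) ∧ B ≤ n ^ ((1 : ℝ) / 10000) ∧
    2 ≤ n ^ ((1 : ℝ) / (2 * 10 ^ 7)) := by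
  filter_upwards [eventually_ge_atTop n1, eventually_ge_atTop 1,
    (tendsto_rpow_atTop (show (0 : ℝ) < (1 : ℝ) / 10 ^ 7 by norm_num)).eventually_ge_atTop A,
    (tendsto_rpow_atTop (show (0 : ℝ) < (1 : ℝ) / 10000 by norm_num)).eventually_ge_atTop B,
    (tendsto_rpow_atTop (show (0 : ℝ) < (1 : ℝ) / (2 * 10 ^ 7) by norm_num)).eventually_ge_atTop 2]
    with n h1 h2 h3 h4 h5
  exact ⟨h1, h2, h3, h4, h5⟩

theorem mainR : ∃ (W : ℕ) (σ : ℝ), 1 ≤ W ∧ 0 < σ ∧ ∃ n0 : ℝ, ∀ n : ℝ, n0 ≤ n →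
    ∀ f : ℕ → ℤ, CM f → (∃ q : ℕ, q.Prime ∧ q ≡ 1 [MOD W] ∧ n ^ ((1 : ℝ) / 2000) ≤ q ∧
      (q : ℝ) ≤ n ^ ((1 : ℝ) / 1000) ∧ f q = -1) →
    ∀ e : ℤ, (e = 1 ∨ e = -1) → ∃ m : ℕ, n ^ 2 < m ∧ (m : ℝ) ≤ n ^ 2 + n ^ (1 - σ) ∧
      (∀ p : ℕ, p.Prime → p ∣ m → n ^ σ < p) ∧ f m = e := by
  obtain ⟨C, T, S0, hS⟩ := exists_sieve
  obtain ⟨hC1, hT5, hS02, -⟩ := id hS
  obtain ⟨n1, hchain⟩ := chainR hS
  obtain ⟨hW1, hW3, -, -, -, hPd, hWd⟩ := W1_facts hT5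
  obtain ⟨P, hP⟩ : ∃ P : ℕ, P = primorial T := ⟨_, rfl⟩
  have hP0 : 0 < P := by rw [hP]; exact primorial_pos T
  obtain ⟨n0, hn0⟩ := eventually_atTop.1
    (main_ev ((S0 : ℝ) + (T : ℝ) ^ C + 16 * P + 10) (4 * P) n1)
  have hC0 : (0 : ℝ) < C := by exact_mod_cast hC1
  have hC1' : (1 : ℝ) ≤ C := by exact_mod_cast hC1
  obtain ⟨σ, hσ⟩ : ∃ σ : ℝ, σ = 1 / (10 ^ 7 * (2 * C + 2)) := ⟨_, rfl⟩
  have hσ0 : 0 < σ := by rw [hσ]; positivity
  have hσC : σ * C ≤ 1 / (2 * 10 ^ 7) := by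
    rw [hσ, div_mul_eq_mul_div, one_mul, div_le_div_iff₀ (by positivity) (by positivity)]
    nlinarith
  refine ⟨12 * W1 T, σ, by omega, hσ0, n0, ?_⟩
  intro n hn f hf hq e he
  obtain ⟨hn1, hn1', hA, hB, h2⟩ := hn0 n hn
  obtain ⟨q, hqp, hqm, hq1, hq2, hqf⟩ := hq
  have hnpos : 0 < n := by linarith
  obtain ⟨x, hx⟩ : ∃ x : ℝ, x = n ^ ((1 : ℝ) / 10 ^ 7) := ⟨_, rfl⟩
  rw [← hx] at hA
  have hTC : (0 : ℝ) ≤ (T : ℝ) ^ C := by positivity
  have hS0r : (0 : ℝ) ≤ S0 := Nat.cast_nonneg _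
  have hPr : (1 : ℝ) ≤ P := by exact_mod_cast hP0
  obtain ⟨S, hSd⟩ : ∃ S : ℕ, S = ⌊x⌋₊ := ⟨_, rfl⟩
  have hx0 : 0 ≤ x := by linarith
  have hSx : (S : ℝ) ≤ x := by rw [hSd]; exact Nat.floor_le hx0
  have hxS : x < S + 1 := by rw [hSd]; exact Nat.lt_floor_add_one x
  have hSge : x / 2 ≤ S := by linarith
  have hS0S : S0 ≤ S := by
    rw [hSd]; apply Nat.le_floor; linarith
  have hTS : (T : ℝ) ^ C ≤ S := by
    have : T ^ C ≤ S := by
      rw [hSd]; apply Nat.le_floor; push_cast; linarith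
    exact_mod_cast this
  have hSpos : (0 : ℝ) < S := by linarith
  obtain ⟨z, hz⟩ : ∃ z : ℕ, z = ⌊(S : ℝ) ^ ((1 : ℝ) / C)⌋₊ := ⟨_, rfl⟩
  have hzle : (z : ℝ) ≤ (S : ℝ) ^ ((1 : ℝ) / C) := by
    rw [hz]; exact Nat.floor_le (by positivity)
  have hzgt : (S : ℝ) ^ ((1 : ℝ) / C) < z + 1 := by rw [hz]; exact Nat.lt_floor_add_one _
  have hpw : ((S : ℝ) ^ ((1 : ℝ) / C)) ^ C = S := by
    rw [← Real.rpow_natCast, ← Real.rpow_mul hSpos.le, one_div_mul_cancel hC0.ne', Real.rpow_one]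
  have hzC : z ^ C ≤ S := by
    have h3 : (z : ℝ) ^ C ≤ S := by
      calc (z : ℝ) ^ C ≤ ((S : ℝ) ^ ((1 : ℝ) / C)) ^ C :=
            pow_le_pow_left₀ (Nat.cast_nonneg _) hzle C
        _ = S := hpw
    exact_mod_cast h3
  have hTz : T ≤ z := by
    rw [hz]; apply Nat.le_floor
    have h3 : ((T : ℝ) ^ C) ^ ((1 : ℝ) / C) = T := by
      rw [← Real.rpow_natCast, ← Real.rpow_mul (Nat.cast_nonneg _), mul_one_div_cancel hC0.ne',
        Real.rpow_one]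
    rw [← h3]
    exact Real.rpow_le_rpow hTC hTS (by positivity)
  have hσS : n ^ (σ * C) ≤ S := by
    have h3 : n ^ (σ * C) ≤ n ^ ((1 : ℝ) / (2 * 10 ^ 7)) := Real.rpow_le_rpow_of_exponent_le hn1' hσC
    have h4 : x = n ^ ((1 : ℝ) / (2 * 10 ^ 7)) * n ^ ((1 : ℝ) / (2 * 10 ^ 7)) := by
      rw [hx, ← Real.rpow_add hnpos]; congr 1; norm_num
    nlinarith
  have hσz : n ^ σ ≤ (S : ℝ) ^ ((1 : ℝ) / C) := by
    have h3 : n ^ σ = (n ^ (σ * C)) ^ ((1 : ℝ) / C) := by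
      rw [← Real.rpow_mul hnpos.le, mul_assoc, mul_one_div_cancel hC0.ne', mul_one]
    rw [h3]
    exact Real.rpow_le_rpow (by positivity) hσS (by positivity)
  have hσ1S : n ^ σ ≤ S := by
    refine (Real.rpow_le_rpow_of_exponent_le hn1' ?_).trans hσS
    nlinarith
  obtain ⟨V, hV⟩ : ∃ V : ℝ, V = 16 * (primorial T : ℝ) * S := ⟨_, rfl⟩
  have hVS : (S : ℝ) ≤ V := by
    rw [hV, ← hP]; nlinarith
  have hVpos : 0 < V := by linarith
  have hV2 : V ≤ n ^ ((2 : ℝ) / 10 ^ 7) := by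
    have h3 : n ^ ((2 : ℝ) / 10 ^ 7) = x * x := by
      rw [hx, ← Real.rpow_add hnpos]; congr 1; norm_num
    rw [h3, hV, ← hP]
    apply mul_le_mul _ hSx hSpos.le hx0
    linarith
  by_contra hcon
  push Not at hcon
  have hnn : (1 : ℝ) ≤ n ^ 2 := one_le_pow₀ hn1'
  have hH : HypR f n V z (-e) := by
    refine ⟨hf, fun m hm1 hm2 hm3 => ?_⟩
    have hm0 : 1 ≤ m := by
      have : (1 : ℝ) < m := by linarith
      have : 1 < m := by exact_mod_cast this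
      omega
    have h3 : (m : ℝ) ≤ n ^ 2 + n ^ (1 - σ) := by
      refine hm2.trans ?_
      have h4 : n / V ≤ n ^ (1 - σ) := by
        rw [Real.rpow_sub hnpos, Real.rpow_one]
        exact div_le_div_of_nonneg_left hnpos.le (by positivity) (hσ1S.trans hVS)
      linarith
    have h4 : ∀ p : ℕ, p.Prime → p ∣ m → n ^ σ < p := by
      intro p hp hpm
      have h5 : z < p := by
        by_contra h6
        exact hm3 p hp (by omega) hpm
      have h6 : (z : ℝ) + 1 ≤ p := by exact_mod_cast h5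
      linarith
    have h5 := hcon m hm1 h3 h4
    rcases hf.one_or m hm0 with h6 | h6 <;> rcases he with h7 | h7
    · exact absurd (h6.trans h7.symm) h5
    · rw [h6, h7]; norm_num
    · rw [h6, h7]
    · exact absurd (h6.trans h7.symm) h5
  -- a rough integer
  obtain ⟨K, hK⟩ : ∃ K : ℕ, K = ⌈n ^ ((19 : ℝ) / 100)⌉₊ := ⟨_, rfl⟩
  have hqP : ∀ r : ℕ, r.Prime → T < r → ¬ r ∣ P := by
    intro r hr hrT hd
    rw [hP] at hd
    have h3 : 12 * W1 T = 8 * primorial T := by omega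
    have h4 := hWd r hr (by rw [h3]; exact hd.mul_left 8)
    omega
  obtain ⟨s, hsS, hs⟩ := exists_rough hS hS0S hzC {((P : ℤ), ((P * K + 1 : ℕ) : ℤ))} (by simp)
    (by
      intro g hg r hr hrT _ hd
      rw [mem_singleton] at hg
      rw [hg] at hd
      have hd' : (r : ℤ) ∣ (P : ℤ) := hd
      exact hqP r hr hrT (by exact_mod_cast hd'))
  obtain ⟨m, hm⟩ : ∃ m : ℕ, m = P * (K + s) + 1 := ⟨_, rfl⟩
  have hrm : Rough z m := by
    intro r hr hrz hd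
    by_cases hrT : r ≤ T
    · have h3 : r ∣ P := by rw [hP]; exact hPd r hr hrT
      have h4 : r ∣ 1 := by
        have h5 : r ∣ P * (K + s) := h3.mul_right _
        rw [hm] at hd
        exact (Nat.dvd_add_right h5).1 hd
      exact hr.one_lt.ne' (Nat.dvd_one.1 h4)
    · refine hs _ (mem_singleton_self _) r hr (by omega) hrz ?_
      have h3 : ((P : ℤ) * (s : ℤ) + ((P * K + 1 : ℕ) : ℤ)) = (m : ℤ) := by
        rw [hm]; push_cast; ring
      simp only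
      rw [h3]
      exact_mod_cast hd
  have hKge : n ^ ((19 : ℝ) / 100) ≤ K := by rw [hK]; exact Nat.le_ceil _
  have hKle : (K : ℝ) < n ^ ((19 : ℝ) / 100) + 1 := by
    rw [hK]; exact Nat.ceil_lt_add_one (by positivity)
  have hm19 : n ^ ((19 : ℝ) / 100) ≤ m := by
    have h3 : K ≤ m := by
      rw [hm]
      have : 1 * (K + s) ≤ P * (K + s) := Nat.mul_le_mul_right _ hP0
      omega
    have h4 : (K : ℝ) ≤ m := by exact_mod_cast h3
    linarith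
  have hn19 : 1 ≤ n ^ ((19 : ℝ) / 100) := Real.one_le_rpow hn1' (by norm_num)
  have hmle : (m : ℝ) ≤ n ^ ((1901 : ℝ) / 10000) := by
    have h3 : (s : ℝ) + 1 ≤ S := by exact_mod_cast hsS
    have h4 : x ≤ n ^ ((19 : ℝ) / 100) := by
      rw [hx]; exact Real.rpow_le_rpow_of_exponent_le hn1' (by norm_num)
    have h5 : (m : ℝ) = P * (K + s) + 1 := by rw [hm]; push_cast; ring
    have h6 : n ^ ((1901 : ℝ) / 10000) = n ^ ((1 : ℝ) / 10000) * n ^ ((19 : ℝ) / 100) := by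
      rw [← Real.rpow_add hnpos]; congr 1; norm_num
    rw [h5, h6]
    have h7 : (K : ℝ) + s ≤ 3 * n ^ ((19 : ℝ) / 100) := by linarith
    calc (P : ℝ) * (K + s) + 1 ≤ P * (3 * n ^ ((19 : ℝ) / 100)) + P * n ^ ((19 : ℝ) / 100) := by
          apply add_le_add (mul_le_mul_of_nonneg_left h7 (by linarith))
          nlinarith
      _ = (4 * P) * n ^ ((19 : ℝ) / 100) := by ring
      _ ≤ n ^ ((1 : ℝ) / 10000) * n ^ ((19 : ℝ) / 100) :=
          mul_le_mul_of_nonneg_right hB (by positivity)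
  have hm0 : 1 ≤ m := by rw [hm]; omega
  have hzq : z < q := by
    have h3 : (S : ℝ) ^ ((1 : ℝ) / C) ≤ S := by
      have h4 : (S : ℝ) ^ ((1 : ℝ) / C) ≤ (S : ℝ) ^ (1 : ℝ) := by
        apply Real.rpow_le_rpow_of_exponent_le
        · have : (1 : ℕ) ≤ S := by omega
          exact_mod_cast this
        · rw [div_le_one hC0]; exact hC1'
      rwa [Real.rpow_one] at h4
    have h4 : x < n ^ ((1 : ℝ) / 2000) := by
      rw [hx]
      apply Real.rpow_lt_rpow_of_exponent_lt _ (by norm_num)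
      by_contra h5
      push Not at h5
      have h6 : n = 1 := le_antisymm h5 hn1'
      rw [h6, Real.one_rpow] at h2
      norm_num at h2
    have h5 : (z : ℝ) < q := by linarith
    exact_mod_cast h5
  have hrqm : Rough z (q * m) := by
    intro r hr hrz hd
    rcases hr.dvd_mul.1 hd with h3 | h3
    · have h4 := (Nat.prime_dvd_prime_iff_eq hr hqp).1 h3
      omega
    · exact hrm r hr hrz h3
  have hqm2 : ((q * m : ℕ) : ℝ) ≤ n ^ ((1915 : ℝ) / 10000) := by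
    push_cast
    calc (q : ℝ) * m ≤ n ^ ((1 : ℝ) / 1000) * n ^ ((1901 : ℝ) / 10000) :=
          mul_le_mul hq2 hmle (Nat.cast_nonneg _) (by positivity)
      _ = n ^ ((1911 : ℝ) / 10000) := by
          rw [← Real.rpow_add hnpos]; congr 1; norm_num
      _ ≤ n ^ ((1915 : ℝ) / 10000) := Real.rpow_le_rpow_of_exponent_le hn1' (by norm_num)
  have hmod : m ≡ q * m [MOD 12 * W1 T] := by
    have h3 := (hqm.mul_right m).symm
    rwa [one_mul] at h3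
  have hfin := hchain n hn1 f V z S (-e) hH hS0S hzC hTz hV hV2 m (q * m) hm19
    (Nat.le_mul_of_pos_left m hqp.pos) hqm2 hmod hrm hrqm
  rw [hf.mul q m hqp.one_lt.le hm0, hqf] at hfin
  rcases hf.one_or m hm0 with h3 | h3 <;> rw [h3] at hfin <;> norm_num at hfin

end Pool.Agent.RPS
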