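import Mathlib
import Pool.Agent.MertensAP.Main

set_option autoImplicit false

/-!
# A prime `q = 1 mod W` in `[n^(1/2000), n^(1/1000)]`
-/

namespace Pool.Agent.RPS

open Finset

theorem prime_ap (W : ℕ) (hW : 1 ≤ W) : ∃ n0 : ℝ, ∀ n : ℝ, n0 ≤ n →
    ∃ q : ℕ, q.Prime ∧ q ≡ 1 [MOD W] ∧ n ^ ((1 : ℝ) / 2000) ≤ q ∧ (q : ℝ) ≤ n ^ ((1 : ℝ) / 1000) := by
  obtain ⟨C, hC, hM⟩ := Pool.Agent.MertensAP.mertens_ap_mod W hW
  have hφ : (0 : ℝ) < W.totient := by exact_mod_cast Nat.totient_pos.2 hW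
  refine ⟨max 2 (Real.exp (2000 * W.totient * (2 * C + 1))), fun n hn => ?_⟩
  have hn2 : (2 : ℝ) ≤ n := (le_max_left _ _).trans hn
  have hn0 : 0 < n := by linarith
  have hlog : 2000 * W.totient * (2 * C + 1) ≤ Real.log n := by
    rw [Real.le_log_iff_exp_le hn0]
    exact (le_max_right _ _).trans hn
  have hlog0 : 0 ≤ Real.log n := Real.log_nonneg (by linarith)
  obtain ⟨x, hx⟩ : ∃ x : ℝ, x = n ^ ((1 : ℝ) / 2000) := ⟨_, rfl⟩
  obtain ⟨y, hy⟩ : ∃ y : ℝ, y = n ^ ((1 : ℝ) / 1000) := ⟨_, rfl⟩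
  rw [← hx, ← hy]
  have hx1 : 1 ≤ x := by rw [hx]; exact Real.one_le_rpow (by linarith) (by norm_num)
  have hxy : x ≤ y := by
    rw [hx, hy]; exact Real.rpow_le_rpow_of_exponent_le (by linarith) (by norm_num)
  have hy1 : 1 ≤ y := hx1.trans hxy
  have lx : Real.log x = 1 / 2000 * Real.log n := by rw [hx, Real.log_rpow hn0]
  have ly : Real.log y = 1 / 1000 * Real.log n := by rw [hy, Real.log_rpow hn0]
  by_contra hcon
  push Not at hcon
  have h1 := abs_le.1 (hM 1 (Nat.coprime_one_left W) x hx1)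
  have h2 := abs_le.1 (hM 1 (Nat.coprime_one_left W) y hy1)
  have hsum : ∑ p ∈ (Icc 1 ⌊y⌋₊).filter (fun p : ℕ => p.Prime ∧ p ≡ 1 [MOD W]), Real.log p / p
      ≤ ∑ p ∈ (Icc 1 ⌊x⌋₊).filter (fun p : ℕ => p.Prime ∧ p ≡ 1 [MOD W]), Real.log p / p := by
    apply sum_le_sum_of_subset_of_nonneg
    · intro p hp
      rw [mem_filter, mem_Icc] at hp ⊢
      refine ⟨⟨hp.1.1, ?_⟩, hp.2⟩
      rw [Nat.le_floor_iff (by linarith)]
      by_contra hc
      push Not at hc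
      have h3 := hcon p hp.2.1 hp.2.2 hc.le
      have h4 : (p : ℝ) ≤ y := (Nat.le_floor_iff (by linarith)).1 hp.1.2
      linarith
    · intro p hp _
      rw [mem_filter, mem_Icc] at hp
      exact div_nonneg (Real.log_nonneg (by exact_mod_cast hp.1.1)) (Nat.cast_nonneg _)
  have h3 : Real.log y / W.totient - Real.log x / W.totient ≤ 2 * C := by
    linarith [h1.2, h2.1]
  rw [lx, ly, ← sub_div, div_le_iff₀ hφ] at h3
  nlinarith

end Pool.Agent.RPS
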